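import Pool.Agent.MP_66cee2_co.B.Ch
import Pool.Agent.MP_66cee2_co.B.Ga1

/-
Approximation of the Gaussian for a range of widths.
-/

namespace Pool.Agent.MP_66cee2_co.B2K.H7

open Polynomial Pool.Agent.MP_66cee2_co.B

theorem gaA (l : ℕ) (hl : 1 ≤ l) (a : ℝ) (h1 : 37 / 50 * l ≤ a) (h2 : a ≤ 9 / 10 * l) :
    ∃ r : ℝ[X], r.natDegree ≤ l ∧ ∀ k : ℝ,
      |√(a / Real.pi) * Phi (r.comp (X ^ 2)) k - Real.exp (-k ^ 2 / (4 * a))| ≤
        10 * l * Real.exp (-(37 / 50 * l)) := by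
  have l1 : (1 : ℝ) ≤ l := by exact_mod_cast hl
  have a0 : 0 < a := by linarith
  obtain ⟨r, hr, h⟩ := sCh l a 4 a0.le (by norm_num)
  refine ⟨r, hr, fun k => (sGa1 a _ r a0 h k).trans ?_⟩
  have e0 := Real.exp_pos (-(37 / 50 * l : ℝ))
  have s1 : √(a / Real.pi) ≤ l := by
    refine Real.sqrt_le_iff.2 ⟨by linarith, ?_⟩
    rw [div_le_iff₀ Real.pi_pos]
    nlinarith [Real.pi_gt_three, mul_le_mul_of_nonneg_left l1 (show (0 : ℝ) ≤ l by linarith)]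
  have s2 : ((4 : ℝ) ^ l)⁻¹ * Real.exp (a / 2 * ((4 + 4⁻¹) / 2 - 1)) ≤
      Real.exp (-(37 / 50 * l)) := by
    have e4 : (4 : ℝ) ^ l = Real.exp (l * (2 * Real.log 2)) := by
      rw [Real.exp_nat_mul, show (2 : ℝ) * Real.log 2 = Real.log 2 + Real.log 2 by ring,
        Real.exp_add, Real.exp_log two_pos]
      norm_num
    rw [e4, ← Real.exp_neg, ← Real.exp_add]
    refine Real.exp_le_exp.2 ?_
    nlinarith [Real.log_two_gt_d9]
  have s3 : 2 * Real.exp (-a) / a ≤ 4 * Real.exp (-(37 / 50 * l)) := by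
    rw [div_le_iff₀ a0]
    have : Real.exp (-a) ≤ Real.exp (-(37 / 50 * l)) := Real.exp_le_exp.2 (by linarith)
    nlinarith
  have s4 : 2 * (3 * ((4 : ℝ) ^ l)⁻¹ * Real.exp (a / 2 * ((4 + 4⁻¹) / 2 - 1))) +
      2 * Real.exp (-a) / a ≤ 10 * Real.exp (-(37 / 50 * l)) := by
    rw [mul_assoc 3]
    linarith
  refine (mul_le_mul s1 s4 (by positivity) (by linarith)).trans (le_of_eq (by ring))

end Pool.Agent.MP_66cee2_co.B2K.H7
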