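import Pool.Agent.MP_66cee2_co.B2L.LP
import Pool.Agent.MP_66cee2_co.B.Gauss

/-
The two sided weighted linear test.
-/

namespace Pool.Agent.MP_66cee2_co.B2K.H6

open MeasureTheory Set Filter Metric Topology Polynomial Pool.Agent.MP_66cee2_co.X
  Pool.Agent.MP_66cee2_co.B
open scoped RealInnerProductSpace

theorem bdd {d n p : ℕ} {Y : Set (E d)} {β : E d → E n} (hP : Pre Y β) (hV : Van Y β p) :
    ∃ A : ℝ, 0 ≤ A ∧ ∀ x ∈ Y, ‖β x‖ ≤ A := by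
  obtain ⟨B, hB⟩ := hV
  obtain ⟨R, hR0, hR⟩ := hP.bdd.exists_pos_norm_le
  rcases Y.eq_empty_or_nonempty with rfl | ⟨y, hy⟩
  · exact ⟨0, le_rfl, fun x hx => hx.elim⟩
  set T := |B| * ((2 * R) ^ 2 + 1) ^ p with hT
  have hT0 : 0 ≤ T := by positivity
  refine ⟨‖β y‖ + (T + 3), by positivity, fun x hx => ?_⟩
  have h1 : ‖x - y‖ ≤ 2 * R := (norm_sub_le _ _).trans (by linarith [hR x hx, hR y hy])
  have h2 : |‖x - y‖ ^ 2 - 1| ≤ (2 * R) ^ 2 + 1 := by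
    refine (abs_sub _ _).trans ?_
    rw [abs_one, abs_of_nonneg (by positivity)]
    gcongr
  have h3 : (1 - ‖β x - β y‖ ^ 2) ^ 2 ≤ T :=
    (hB x hx y hy).trans ((mul_le_mul_of_nonneg_right (le_abs_self B) (by positivity)).trans
      (by rw [hT]; gcongr))
  have h4 : ‖β x - β y‖ ≤ T + 3 := by
    by_contra hn
    push Not at hn
    have h5 : T + 1 ≤ ‖β x - β y‖ ^ 2 - 1 := by nlinarith
    nlinarith
  calc ‖β x‖ = ‖β y + (β x - β y)‖ := by congr 1; abel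
    _ ≤ _ := (norm_add_le _ _).trans (by linarith)

theorem van_lin {d n p : ℕ} {Y : Set (E d)} {β : E d → E n} (hV : Van Y β (2 * p)) :
    ∃ B : ℝ, 0 ≤ B ∧ ∀ x ∈ Y, ∀ y ∈ Y, |1 - ‖β x - β y‖ ^ 2| ≤ B * |‖x - y‖ ^ 2 - 1| ^ p := by
  obtain ⟨B, hB⟩ := hV
  refine ⟨√|B|, Real.sqrt_nonneg _, fun x hx y hy => ?_⟩
  refine abs_le_of_sq_le_sq' ?_ (by positivity) |> abs_le.2
  rw [mul_pow, Real.sq_sqrt (abs_nonneg B), ← pow_mul, mul_comm p 2]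
  exact (hB x hx y hy).trans (mul_le_mul_of_nonneg_right (le_abs_self B) (by positivity))

/-- two sided form of `lp2` for a Gaussian. -/
theorem lp_abs {l : ℕ} {ι τ : Type} [Fintype ι] [Fintype τ] {Y : Set (E (2 * l + 3))}
    (hY : MeasurableSet Y) (hb : Bornology.IsBounded Y) {f : ι → E (2 * l + 3) → ℝ}
    {g : τ → E (2 * l + 3) → ℝ} (hf : ∀ i, Measurable (f i)) (hg : ∀ j, Measurable (g j))
    {C : ℝ} (hfC : ∀ i x, |f i x| ≤ C) (hgC : ∀ j x, |g j x| ≤ C) {B : ℝ}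
    (hB : ∀ x ∈ Y, ∀ y ∈ Y, |∑ i, f i x * f i y - ∑ j, g j x * g j y| ≤
      B * |‖x - y‖ ^ 2 - 1| ^ (l + 2))
    {a κ m : ℝ} (ha : 0 < a) {r : ℝ[X]} (hr : r.natDegree ≤ l)
    (hm : ∀ k : ℝ, |κ * Phi (r.comp (X ^ 2)) k - Real.exp (-k ^ 2 / (4 * a))| ≤ m) :
    |∫ x in Y, ∫ y in Y, G _ a (y - x) * (∑ i, f i x * f i y - ∑ j, g j x * g j y)| ≤
      m * (∫ x in Y, ∑ i, f i x ^ 2) + m * ∫ x in Y, ∑ j, g j x ^ 2 := by
  obtain ⟨g1, -, g3, -, g5⟩ := sGauss (2 * l + 3) a ha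
  have hm0 : 0 ≤ m := (abs_nonneg _).trans (hm 0)
  have h1 : ∀ ξ : E (2 * l + 3), ct (G _ a) ξ ≤ κ * Phi (r.comp (X ^ 2)) ‖ξ‖ + m := fun ξ => by
    rw [g5]; linarith [(abs_le.1 (hm ‖ξ‖)).1]
  have h2 : ∀ ξ : E (2 * l + 3), κ * Phi (r.comp (X ^ 2)) ‖ξ‖ - m ≤ ct (G _ a) ξ := fun ξ => by
    rw [g5]; linarith [(abs_le.1 (hm ‖ξ‖)).2]
  have e1 := B2L.lp2 hY hb hf hg hfC hgC hB g1 g3 hm0 hm0 hr h1 h2
  have e2 := B2L.lp2 hY hb hg hf hgC hfC (B := B)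
    (fun x hx y hy => by rw [abs_sub_comm]; exact hB x hx y hy) g1 g3 hm0 hm0 hr h1 h2
  have e3 : (∫ x in Y, ∫ y in Y, G _ a (y - x) * (∑ j, g j x * g j y - ∑ i, f i x * f i y)) =
      -∫ x in Y, ∫ y in Y, G _ a (y - x) * (∑ i, f i x * f i y - ∑ j, g j x * g j y) := by
    simp only [← integral_neg]
    congr 1; ext x; congr 1; ext y; ring
  rw [e3] at e2
  rw [abs_le]
  constructor <;> linarith

end Pool.Agent.MP_66cee2_co.B2K.H6
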