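import Pool.Agent.MP_66cee2_co.B2K.Spec
import Pool.Agent.MP_66cee2_co.B2K.H6Lin

/-
No flat class of nearly full measure.
-/

namespace Pool.Agent.MP_66cee2_co.B2K.H68

open MeasureTheory Set Filter Metric Topology Polynomial Pool.Agent.MP_66cee2_co.X
  Pool.Agent.MP_66cee2_co.XI Pool.Agent.MP_66cee2_co.B
open scoped ENNReal RealInnerProductSpace

/-- the space coordinates in a frame. -/
noncomputable def uu {n : ℕ} (c : E n) (r : ℝ) (y : E n) : Option (Fin n) → ℝ
  | none => vv c r y - r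
  | some i => √2 * (y - c) i

theorem uu_form {n : ℕ} (c : E n) {r : ℝ} (hr : r ≠ 0) (y z : E n) :
    ∑ i, uu c r y i * uu c r z i - vv c r y * vv c r z = 1 - ‖y - z‖ ^ 2 := by
  have h2 : √2 * √2 = (2 : ℝ) := Real.mul_self_sqrt (by norm_num)
  have h1 : ∑ i, √2 * (y - c) i * (√2 * (z - c) i) = 2 * ⟪y - c, z - c⟫ := by
    rw [PiLp.inner_apply, Finset.mul_sum]
    refine Finset.sum_congr rfl fun i _ => ?_
    simp only [RCLike.inner_apply, conj_trivial]
    linear_combination ((y - c) i * (z - c) i) * h2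
  rw [Fintype.sum_option]
  simp only [uu]
  rw [h1, show y - z = (y - c) - (z - c) by abel, norm_sub_sq_real]
  unfold vv
  field_simp
  ring

theorem uu_sq {n : ℕ} (c : E n) {r : ℝ} (hr : r ≠ 0) (y : E n) :
    ∑ i, uu c r y i ^ 2 = 1 + vv c r y ^ 2 := by
  have := uu_form c hr y y
  simp only [sub_self, norm_zero] at this
  simp only [sq]
  linarith

theorem vv_meas {n : ℕ} (c : E n) (r : ℝ) : Measurable (vv c r) := by
  unfold vv
  fun_prop

theorem uu_meas {n : ℕ} (c : E n) (r : ℝ) (i : Option (Fin n)) :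
    Measurable fun y => uu c r y i := by
  cases i with
  | none => exact (vv_meas c r).sub measurable_const
  | some i =>
    simp only [uu]
    fun_prop

theorem WW_meas (v₀ : ℝ) : Measurable (WW v₀) := by
  unfold WW
  fun_prop

theorem WW_abs {v₀ : ℝ} (h : 0 < v₀) (v : ℝ) : |WW v₀ v| ≤ 1 / (2 * v₀) := by
  unfold WW
  have h1 : 0 < v ^ 2 + v₀ ^ 2 := by positivity
  rw [abs_div, abs_of_pos h1, div_le_div_iff₀ h1 (by positivity), ← sq_abs v]
  nlinarith [sq_nonneg (|v| - v₀)]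

theorem WW_q {v₀ : ℝ} (h : 0 < v₀) (v : ℝ) : 0 ≤ WW v₀ v * v ∧ WW v₀ v * v ≤ 1 := by
  unfold WW
  have h1 : 0 < v ^ 2 + v₀ ^ 2 := by positivity
  rw [div_mul_eq_mul_div, ← sq]
  exact ⟨by positivity, (div_le_one h1).2 (by nlinarith)⟩

theorem WW_low {v₀ ε : ℝ} (h : 0 < v₀) (v : ℝ) (hε : 0 ≤ ε) (hv : v₀ ^ 2 ≤ ε * v ^ 2) :
    1 - ε ≤ WW v₀ v * v := by
  unfold WW
  have h1 : 0 < v ^ 2 + v₀ ^ 2 := by positivity
  rw [div_mul_eq_mul_div, ← sq, le_div_iff₀ h1]
  nlinarith [mul_nonneg hε (sq_nonneg v₀)]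

theorem sFull (hK : SKar) (hF : SFin) (hG : SGap) : SFull := by
  filter_upwards [hF, hG, eventually_ge_atTop 2] with l hF hG hl n Y β hn hP hV
  by_contra hc
  rw [not_lt] at hc
  obtain ⟨D, hD⟩ : ∃ D : ℝ, D = 2 * l + 3 := ⟨_, rfl⟩
  have hl' : (2 : ℝ) ≤ l := by exact_mod_cast hl
  have D7 : 7 ≤ D := by linarith
  have D0 : 0 < D := by linarith
  have b0 : 0 < bb l := by
    unfold bb
    positivity
  obtain ⟨g1, g2, g3, g4, -⟩ := sGauss (2 * l + 3) (bb l) b0
  rw [← hD] at hn hc hF hG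
  generalize G (2 * l + 3) (bb l) = g at *
  obtain ⟨A, -, hA⟩ := H6.bdd hP hV
  obtain ⟨B, B0, hB⟩ := H6.van_lin hV
  obtain ⟨ε, hε⟩ : ∃ ε : ℝ, ε = 1 / D ^ 6 := ⟨_, rfl⟩
  have ε0 : 0 < ε := by rw [hε]; positivity
  have ε1 : 6 * ε ≤ 1 / D ^ 5 := by
    rw [hε, mul_one_div, div_le_div_iff₀ (by positivity) (by positivity)]
    have : 0 < D ^ 5 := by positivity
    nlinarith
  have ε2 : 1 / D ^ 5 ≤ 1 / 7 := by
    refine one_div_le_one_div_of_le (by norm_num) (D7.trans ?_)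
    exact le_self_pow₀ (by linarith) (by norm_num)
  have hc' : 1 - 4 * ε ≤ ∫ x in Y, g x := by
    rw [hε, mul_one_div]
    exact hc
  have p2 : (0 : ℝ) < 2 ^ l := by positivity
  obtain ⟨v₀, v0, v1⟩ : ∃ v₀ : ℝ, 0 < v₀ ∧ v₀ ^ 2 = ε * (1 / 2 ^ l) :=
    ⟨√(ε * (1 / 2 ^ l)), Real.sqrt_pos.2 (by positivity), Real.sq_sqrt (by positivity)⟩
  have gm : Measurable fun x => ENNReal.ofReal (g x) := g1.measurable.ennreal_ofReal
  have : IsFiniteMeasure ((volume.restrict Y).withDensity fun x => ENNReal.ofReal (g x)) :=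
    isFiniteMeasure_withDensity_ofReal g3.restrict.2
  have cv : ∀ f : E (2 * l + 3) → ℝ,
      ∫ x, f x ∂((volume.restrict Y).withDensity fun x => ENNReal.ofReal (g x)) =
        ∫ x in Y, g x * f x := by
    intro f
    rw [integral_withDensity_eq_integral_toReal_smul gm (ae_of_all _ fun x => ENNReal.ofReal_lt_top)]
    refine integral_congr_ae (ae_of_all _ fun x => ?_)
    simp only [ENNReal.toReal_ofReal (g2 x).le, smul_eq_mul]
  obtain ⟨c, r, r0, k1, k2, k3⟩ := hK _ n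
    ((volume.restrict Y).withDensity fun x => ENNReal.ofReal (g x)) β A v₀ hP.meas
    ((withDensity_absolutelyContinuous _ _).ae_le ((ae_restrict_mem hP.ms).mono hA)) v0
  simp only [cv] at k1 k2 k3
  have r1 : r ≠ 0 := by
    intro h
    rw [h] at r0
    linarith
  have vm : Measurable fun x => vv c r (β x) := (vv_meas c r).comp hP.meas
  have um : ∀ i, Measurable fun x => uu c r (β x) i := fun i => (uu_meas c r i).comp hP.meas
  have wm : Measurable fun x => WW v₀ (vv c r (β x)) := (WW_meas v₀).comp vm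
  have sm : MeasurableSet {x | vv c r (β x) ^ 2 ≤ 1 / 2 ^ l} :=
    measurableSet_le (vm.pow_const 2) measurable_const
  have small : ∫ x in Y ∩ {x | vv c r (β x) ^ 2 ≤ 1 / 2 ^ l}, g x ≤ ε := by
    have h := hF (Option (Fin n)) (Y ∩ {x | vv c r (β x) ^ 2 ≤ 1 / 2 ^ l})
      (fun i x => uu c r (β x) i) (fun x => vv c r (β x))
      ⟨hP.ms.inter sm, hP.bdd.subset inter_subset_left, um, fun x hx => by
        rw [uu_sq c r1]
        have h1 : vv c r (β x) ^ 2 ≤ 1 / 2 ^ l := hx.2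
        have h2 : (1 : ℝ) / 2 ^ l ≤ 1 := (div_le_one p2).2 (one_le_pow₀ (by norm_num))
        linarith⟩ vm
      (fun x _ => by
        rw [uu_sq c r1]
        nlinarith [sq_nonneg (vv c r (β x))])
      (fun x hx => hx.2)
      ⟨B, fun x hx y hy => by
        rw [uu_form c r1]
        exact hB x hx.1 y hy.1⟩
    refine (le_abs_self _).trans (abs_le_of_sq_le_sq ?_ ε0.le)
    refine h.trans ?_
    rw [Fintype.card_option, Fintype.card_fin, hε, div_pow, one_pow, ← mul_div_assoc,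
      div_le_div_iff₀ (by positivity) (by positivity)]
    push_cast
    calc ((n : ℝ) + 1) * (4000 * D ^ 4) * (D ^ 6) ^ 2 = (n + 1) * (4000 * D ^ 16) := by ring
      _ ≤ 1 * 4 ^ l := by rw [one_mul]; exact hn
  have ig : IntegrableOn g Y := g3.integrableOn
  have iq : IntegrableOn (fun x => g x * (WW v₀ (vv c r (β x)) * vv c r (β x))) Y := by
    refine ig.mul_bdd (c := 1) (wm.mul vm).aestronglyMeasurable (ae_of_all _ fun x => ?_)
    rw [Real.norm_eq_abs, abs_of_nonneg (WW_q v0 _).1]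
    exact (WW_q v0 _).2
  have iw : IntegrableOn (fun x => g x * WW v₀ (vv c r (β x))) Y :=
    ig.mul_bdd (c := 1 / (2 * v₀)) wm.aestronglyMeasurable (ae_of_all _ fun x => WW_abs v0 _)
  have m1 : ∫ x in Y, g x ≤ 1 := by
    rw [← g4]
    exact setIntegral_le_integral g3 (ae_of_all _ fun x => (g2 x).le)
  have big : 1 - 1 / D ^ 5 ≤ ∫ x in Y, g x * (WW v₀ (vv c r (β x)) * vv c r (β x)) := by
    have h1 : ∫ x in Y, ((1 - ε) * g x - {x | vv c r (β x) ^ 2 ≤ 1 / 2 ^ l}.indicator g x) ≤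
        ∫ x in Y, g x * (WW v₀ (vv c r (β x)) * vv c r (β x)) := by
      refine integral_mono ((ig.const_mul _).sub (ig.indicator sm)) iq fun x => ?_
      have g0 := (g2 x).le
      by_cases hx : x ∈ {x | vv c r (β x) ^ 2 ≤ 1 / 2 ^ l}
      · simp only [indicator_of_mem hx]
        nlinarith [mul_nonneg g0 (WW_q v0 (vv c r (β x))).1, mul_nonneg ε0.le g0]
      · simp only [indicator_of_notMem hx]
        have h2 : 1 / 2 ^ l < vv c r (β x) ^ 2 := not_le.1 hx
        have := WW_low v0 (vv c r (β x)) ε0.le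
          (by rw [v1]; exact mul_le_mul_of_nonneg_left h2.le ε0.le)
        nlinarith [mul_le_mul_of_nonneg_left this g0]
    rw [integral_sub (ig.const_mul _) (ig.indicator sm), integral_const_mul,
      setIntegral_indicator sm] at h1
    have h3 : (1 - ε) * (1 - 4 * ε) ≤ (1 - ε) * ∫ x in Y, g x :=
      mul_le_mul_of_nonneg_left hc' (by linarith)
    nlinarith [sq_nonneg ε]
  have r2 : v₀ / 2 < r := by
    refine r0.lt_of_ne fun h => ?_
    have h1 : ∫ x in Y, (g x * (WW v₀ (vv c r (β x)) * vv c r (β x)) - 1 / 4 * g x) ≤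
        ∫ x in Y, g x * (WW v₀ (vv c r (β x)) * (vv c r (β x) - r)) := by
      refine integral_mono (iq.sub (ig.const_mul _)) ?_ fun x => ?_
      · refine (iq.sub (iw.const_mul r)).congr (ae_of_all _ fun x => ?_)
        simp only [Pi.sub_apply]
        ring
      · have h2 := (abs_le.1 (WW_abs v0 (vv c r (β x)))).2
        have h3 : WW v₀ (vv c r (β x)) * r ≤ 1 / 4 := by
          calc WW v₀ (vv c r (β x)) * r ≤ 1 / (2 * v₀) * r :=
                mul_le_mul_of_nonneg_right h2 (by linarith)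
            _ = 1 / 4 := by
              rw [← h]
              field_simp
              norm_num
        have := mul_le_mul_of_nonneg_left h3 (g2 x).le
        dsimp only
        nlinarith
    rw [integral_sub iq (ig.const_mul _), integral_const_mul] at h1
    linarith
  refine hG (Option (Fin n)) Y (fun i x => WW v₀ (vv c r (β x)) * uu c r (β x) i)
    (fun x => WW v₀ (vv c r (β x)) * vv c r (β x))
    ⟨hP.ms, hP.bdd, fun i => wm.mul (um i), fun x _ => ?_⟩ (wm.mul vm) (fun x _ => WW_q v0 _)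
    ⟨1 / (2 * v₀) * (1 / (2 * v₀)) * B, fun x hx y hy => ?_⟩ big fun i => ?_
  · simp only [mul_pow]
    rw [← Finset.mul_sum, uu_sq c r1]
    have h1 := WW_q v0 (vv c r (β x))
    have h2 : WW v₀ (vv c r (β x)) ^ 2 ≤ (1 / (2 * v₀)) ^ 2 := by
      rw [← sq_abs]
      exact pow_le_pow_left₀ (abs_nonneg _) (WW_abs v0 _) 2
    have h3 : (1 / (2 * v₀)) ^ 2 = D ^ 6 * 2 ^ l / 4 := by
      rw [div_pow, mul_pow, v1, hε]
      field_simp
      norm_num
    have h4 : (1 : ℝ) ≤ D ^ 6 * 2 ^ l :=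
      one_le_mul_of_one_le_of_one_le (one_le_pow₀ (by linarith)) (one_le_pow₀ (by norm_num))
    have h5 : (WW v₀ (vv c r (β x)) * vv c r (β x)) ^ 2 ≤ 1 := by nlinarith [h1.1, h1.2]
    have h6 : 7 * (D ^ 6 * 2 ^ l) ≤ D * (D ^ 6 * 2 ^ l) :=
      mul_le_mul_of_nonneg_right D7 (by linarith)
    calc WW v₀ (vv c r (β x)) ^ 2 * (1 + vv c r (β x) ^ 2)
        = WW v₀ (vv c r (β x)) ^ 2 + (WW v₀ (vv c r (β x)) * vv c r (β x)) ^ 2 := by ring
      _ ≤ D * (D ^ 6 * 2 ^ l) := by linarith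
      _ = D ^ 7 * 2 ^ l := by ring
  · have e : ∑ i, WW v₀ (vv c r (β x)) * uu c r (β x) i * (WW v₀ (vv c r (β y)) * uu c r (β y) i) -
        WW v₀ (vv c r (β x)) * vv c r (β x) * (WW v₀ (vv c r (β y)) * vv c r (β y)) =
        WW v₀ (vv c r (β x)) * WW v₀ (vv c r (β y)) * (1 - ‖β x - β y‖ ^ 2) := by
      rw [← uu_form c r1, mul_sub, Finset.mul_sum]
      refine congrArg₂ _ (Finset.sum_congr rfl fun i _ => ?_) ?_ <;> ring
    rw [e, abs_mul, abs_mul, mul_assoc (1 / (2 * v₀) * (1 / (2 * v₀)))]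
    exact mul_le_mul (mul_le_mul (WW_abs v0 _) (WW_abs v0 _) (abs_nonneg _) (by positivity))
      (hB x hx y hy) (abs_nonneg _) (by positivity)
  · cases i with
    | none => exact k3 r2
    | some i =>
      have h := congrArg (fun t => √2 * t) (k1 i)
      simp only [mul_zero] at h
      rw [← h, ← integral_const_mul]
      refine integral_congr_ae (ae_of_all _ fun x => ?_)
      simp only [uu]
      ring

end Pool.Agent.MP_66cee2_co.B2K.H68
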