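import Pool.Agent.MP_66cee2_co.B2K.Spec

/-
A family of mean zero cannot imitate a nearly constant function.
-/

namespace Pool.Agent.MP_66cee2_co.B2K

open MeasureTheory Set Filter Topology Pool.Agent.MP_66cee2_co.X Pool.Agent.MP_66cee2_co.B

namespace Gapx

theorem small : ∀ᶠ l : ℕ in atTop, 4 * (2 * l + 3 : ℝ) ^ 8 < 2 ^ l := by
  have h := tendsto_pow_const_div_const_pow_of_one_lt 8 (show (1 : ℝ) < 2 by norm_num)
  filter_upwards [h.eventually (gt_mem_nhds (show (0 : ℝ) < 1 / (4 * 5 ^ 8) by norm_num)),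
    eventually_ge_atTop 1] with l h1 h2
  have h3 : (1 : ℝ) ≤ l := by exact_mod_cast h2
  have h4 : (2 * l + 3 : ℝ) ^ 8 ≤ (5 * l) ^ 8 := pow_le_pow_left₀ (by positivity) (by linarith) 8
  rw [div_lt_div_iff₀ (by positivity) (by positivity)] at h1
  rw [mul_pow] at h4
  linarith

theorem exp_le (l : ℕ) (x : ℝ) (h : 2 * l ≤ x) : Real.exp (-x) * (2 ^ l * 2 ^ l) ≤ 1 := by
  have h1 : (2 : ℝ) ≤ Real.exp 1 := by linarith [Real.add_one_le_exp 1]
  have h2 : (2 : ℝ) ^ l ≤ Real.exp l := by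
    rw [← Real.exp_one_pow]
    exact pow_le_pow_left₀ (by norm_num) h1 l
  have h3 : (2 : ℝ) ^ l * 2 ^ l ≤ Real.exp x := by
    refine (mul_le_mul h2 h2 (by positivity) (Real.exp_pos _).le).trans ?_
    rw [← Real.exp_add]
    exact Real.exp_le_exp.2 (by linarith)
  refine (mul_le_mul_of_nonneg_left h3 (Real.exp_pos _).le).trans ?_
  rw [← Real.exp_add, neg_add_cancel, Real.exp_zero]

end Gapx

theorem sGap : SCS → SZero → SDecay → STest → SLogC → SGap := by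
  intro hC hZ hD hT hL
  filter_upwards [hT, Gapx.small, eventually_ge_atTop 40] with l h1 h2 h3
  intro ι _ Y p q hp hq hq1 hF hm h0
  obtain ⟨t1, t2⟩ := h1 ι Y p q hp hq hq1 hF hm
  have l40 : (40 : ℝ) ≤ l := by exact_mod_cast h3
  have l0 : (0 : ℝ) < l := by linarith
  obtain ⟨D, hDd⟩ : ∃ D : ℝ, D = 2 * l + 3 := ⟨_, rfl⟩
  have D1 : 83 ≤ D := by linarith
  have D0 : 0 < D := by linarith
  have b0 : 0 < bb l := by unfold bb; positivity
  have t0 : 0 < tt l := by unfold tt; positivity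
  have lt1 : ∀ x : ℝ, 0 < x → Real.exp (-x) < 1 := fun x hx =>
    Real.exp_lt_one_iff.2 (by linarith)
  have cs : ∀ j : ℕ, 1 ≤ j → 0 ≤ ph Y (bb l) (Real.exp (-((j : ℕ) * tt l))) p ∧
      ph Y (bb l) (Real.exp (-(((j + 1 : ℕ) : ℝ) * tt l))) p ^ 2 ≤
        ph Y (bb l) (Real.exp (-((j : ℕ) * tt l))) p *
          ph Y (bb l) (Real.exp (-(((j + 2 : ℕ) : ℝ) * tt l))) p := fun j hj => by
    have j0 : (0 : ℝ) < j := by exact_mod_cast hj
    have := hC _ ι Y p _ (bb l) (Real.exp (-(j * tt l / 2))) (Real.exp (-((j + 2) * tt l / 2))) hp b0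
      (Real.exp_pos _).le (lt1 _ (by positivity)) (Real.exp_pos _).le (lt1 _ (by positivity))
    simp only [← Real.exp_add] at this
    rw [show -(j * tt l / 2) + -(j * tt l / 2) = -((j : ℝ) * tt l) by ring,
      show -(j * tt l / 2) + -((j + 2) * tt l / 2) = -(((j + 1 : ℕ) : ℝ) * tt l) by
        push_cast; ring,
      show -((j + 2) * tt l / 2) + -((j + 2) * tt l / 2) = -(((j + 2 : ℕ) : ℝ) * tt l) by
        push_cast; ring] at this
    exact this
  rw [← hDd] at t1 t2 h2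
  have D4 : (1 : ℝ) ≤ D ^ 4 := one_le_pow₀ (by linarith)
  have e1 : (2 * (6 * D ^ 4) + 1) * (3 / D ^ 5) ≤ 1 / 2 := by
    rw [← mul_div_assoc, div_le_div_iff₀ (by positivity) (by positivity)]
    have : 83 * D ^ 4 ≤ D * D ^ 4 := mul_le_mul_of_nonneg_right D1 (by positivity)
    have e : D ^ 5 = D * D ^ 4 := by ring
    linarith
  have e0 : 0 ≤ 3 / D ^ 5 := by positivity
  have e2 : 3 / D ^ 5 ≤ 1 / 4 := by
    have := mul_le_mul_of_nonneg_right (show (2 : ℝ) ≤ 2 * (6 * D ^ 4) + 1 by linarith) e0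
    linarith
  have k1 := hL (fun j => ph Y (bb l) (Real.exp (-((j : ℕ) * tt l))) p) (3 / D ^ 5) e0 e2
    (fun j hj => (cs j hj).1) (fun j hj => (cs j hj).2) t1 t2 (6 * (2 * l + 3) ^ 4)
  have c1 : ((6 * (2 * l + 3) ^ 4 : ℕ) : ℝ) = 6 * D ^ 4 := by
    rw [hDd]
    push_cast
    ring
  have c2 : ((7 + 6 * (2 * l + 3) ^ 4 : ℕ) : ℝ) = 7 + 6 * D ^ 4 := by
    rw [Nat.cast_add, c1]
    norm_num
  have c3 : ((2 * l + 3 : ℕ) : ℝ) = D := by
    rw [hDd]
    push_cast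
    ring
  simp only [c1, c2] at k1
  have x1 : 2 * l ≤ (7 + 6 * D ^ 4) * tt l := by
    have e : 6 * D ^ 4 * tt l = 12 * D ^ 2 / (21 * l) := by
      unfold tt bb
      rw [← hDd]
      field_simp
      ring
    have e' : 2 * l ≤ 12 * D ^ 2 / (21 * l) := by
      rw [le_div_iff₀ (by positivity)]
      have : (2 * l : ℝ) ^ 2 ≤ D ^ 2 := pow_le_pow_left₀ (by positivity) (by linarith) 2
      nlinarith
    rw [add_mul, e]
    linarith
  have k2 := hD _ ι Y p _ (bb l) (Real.exp (-((7 + 6 * D ^ 4) * tt l))) hp (by positivity) b0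
    (Real.exp_pos _).le (lt1 _ (by positivity))
  rw [hZ _ ι Y p _ (bb l) hp b0, c3, ← hDd] at k2
  simp only [h0, ne_eq, OfNat.ofNat_ne_zero, not_false_eq_true, zero_pow, Finset.sum_const_zero,
    zero_add] at k2
  have k3 := Gapx.exp_le l _ x1
  obtain ⟨z, hz⟩ : ∃ z : ℝ, z = Real.exp (-((7 + 6 * D ^ 4) * tt l)) := ⟨_, rfl⟩
  have z0 : 0 < z * 2 ^ l := by rw [hz]; positivity
  rw [← hz] at k1 k2 k3
  have k4 := mul_lt_mul_of_pos_left h2 z0
  have k5 : 2 * (D ^ 7 * 2 ^ l) * z * D = z * 2 ^ l * (4 * D ^ 8) / 2 := by ring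
  have k6 : z * 2 ^ l * 2 ^ l = z * (2 ^ l * 2 ^ l) := by ring
  linarith

end Pool.Agent.MP_66cee2_co.B2K
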