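import Pool.Agent.MP_66cee2_co.B.Spec

/-
Base two: definitions and statements.
-/

namespace Pool.Agent.MP_66cee2_co.B2K

open MeasureTheory Set Filter Metric Topology Polynomial Pool.Agent.MP_66cee2_co.X
  Pool.Agent.MP_66cee2_co.XI Pool.Agent.MP_66cee2_co.B
open scoped ENNReal RealInnerProductSpace

/-- the transition density. -/
noncomputable def Q (d : ℕ) (b lam : ℝ) (x y : E d) : ℝ := G d (b / (1 - lam ^ 2)) (y - lam • x)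

/-- the joint density of a correlated Gaussian pair. -/
noncomputable def K (d : ℕ) (b lam : ℝ) (x y : E d) : ℝ := G d b x * Q d b lam x y

/-- the correlation of a finite family of functions. -/
noncomputable def ph {d : ℕ} {ι : Type} [Fintype ι] (Y : Set (E d)) (b lam : ℝ)
    (f : ι → E d → ℝ) : ℝ :=
  ∫ x in Y, ∫ y in Y, K d b lam x y * ∑ i, f i x * f i y

/-- a measurable family with bounded sum of squares on a bounded measurable set. -/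
structure Bd {d : ℕ} {ι : Type} [Fintype ι] (Y : Set (E d)) (f : ι → E d → ℝ) (A : ℝ) : Prop where
  ms : MeasurableSet Y
  bdd : Bornology.IsBounded Y
  meas : ∀ i, Measurable (f i)
  sq : ∀ x ∈ Y, ∑ i, f i x ^ 2 ≤ A

/-- the kernel `∑ f f' - g g'` vanishes to order `p` on unit pairs. -/
def Fl {d : ℕ} {ι : Type} [Fintype ι] (Y : Set (E d)) (f : ι → E d → ℝ) (g : E d → ℝ) (p : ℕ) :
    Prop :=
  ∃ B : ℝ, ∀ x ∈ Y, ∀ y ∈ Y, |∑ i, f i x * f i y - g x * g y| ≤ B * |‖x - y‖ ^ 2 - 1| ^ p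

/-- the width of the window. -/
noncomputable def bb (l : ℕ) : ℝ := 1 / (2 * l + 3 : ℝ) ^ 2

/-- the time step. -/
noncomputable def tt (l : ℕ) : ℝ := 2 * bb l / (21 * l)

/-- row Basic: elementary facts on the joint density. -/
def SBasic : Prop :=
  ∀ (d : ℕ) (b lam : ℝ), 0 < b → 0 ≤ lam → lam < 1 →
    (Continuous fun z : E d × E d => K d b lam z.1 z.2) ∧ (∀ x y, 0 < K d b lam x y) ∧
    (∀ x y, K d b lam x y = K d b lam y x) ∧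
    (∀ x, Integrable (fun y => K d b lam x y) ∧ ∫ y, K d b lam x y = G d b x) ∧
    Integrable (fun z : E d × E d => K d b lam z.1 z.2) (volume.prod volume) ∧
    ∀ x y, K d b 0 x y = G d b x * G d b y

/-- row Semi: the semigroup identity. -/
def SSemi : Prop :=
  ∀ (d : ℕ) (b μ ν : ℝ), 0 < b → 0 ≤ μ → μ < 1 → 0 ≤ ν → ν < 1 → ∀ x y : E d,
    Integrable (fun z => G d b z * (Q d b μ z x * Q d b ν z y)) ∧
      ∫ z, G d b z * (Q d b μ z x * Q d b ν z y) = K d b (μ * ν) x y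

/-- row CS: the Cauchy-Schwarz inequality along the semigroup. -/
def SCS : Prop :=
  ∀ (d : ℕ) (ι : Type) [Fintype ι] (Y : Set (E d)) (f : ι → E d → ℝ) (A b μ ν : ℝ), Bd Y f A →
    0 < b → 0 ≤ μ → μ < 1 → 0 ≤ ν → ν < 1 →
    0 ≤ ph Y b (μ * μ) f ∧ ph Y b (μ * ν) f ^ 2 ≤ ph Y b (μ * μ) f * ph Y b (ν * ν) f

/-- row Zero: independent pairs. -/
def SZero : Prop :=
  ∀ (d : ℕ) (ι : Type) [Fintype ι] (Y : Set (E d)) (f : ι → E d → ℝ) (A b : ℝ), Bd Y f A → 0 < b →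
    ph Y b 0 f = ∑ i, (∫ x in Y, G d b x * f i x) ^ 2

/-- row Decay: nearly independent pairs. -/
def SDecay : Prop :=
  ∀ (d : ℕ) (ι : Type) [Fintype ι] (Y : Set (E d)) (f : ι → E d → ℝ) (A b lam : ℝ), Bd Y f A →
    0 ≤ A → 0 < b → 0 ≤ lam → lam < 1 → ph Y b lam f ≤ ph Y b 0 f + 2 * A * lam * d

/-- row One: a single function with values in the unit interval. -/
def SOne : Prop :=
  ∀ (d : ℕ) (Y : Set (E d)) (q : E d → ℝ) (s b lam : ℝ), MeasurableSet Y → Measurable q →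
    (∀ x ∈ Y, 0 ≤ q x ∧ q x ≤ s) → 0 ≤ s → s ≤ 1 → 0 < b → 0 ≤ lam → lam < 1 →
    ph Y b lam (fun _ : Unit => q) ≤ s ^ 2 ∧
      2 * (∫ x in Y, G d b x * q x) - 1 ≤ ph Y b lam (fun _ : Unit => q)

/-- row Fac: the joint density is a Gaussian in the difference times two weights. -/
def SFac : Prop :=
  ∀ (d : ℕ) (b lam : ℝ), 0 < b → 0 < lam → lam < 1 → ∃ w : E d → ℝ, Continuous w ∧
    (∃ C, ∀ x, |w x| ≤ C) ∧ Integrable (fun x => w x ^ 2) ∧ ∫ x, w x ^ 2 ≤ (lam ^ d)⁻¹ ∧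
    ∀ x y, K d b lam x y = G d (b * lam / (1 - lam ^ 2)) (y - x) * (w x * w y)

/-- row LP: the linear programme in a Gaussian window. -/
def SLP : Prop :=
  ∀ (l : ℕ) (ι τ : Type) [Fintype ι] [Fintype τ] (Y : Set (E (2 * l + 3)))
    (f : ι → E (2 * l + 3) → ℝ) (g : τ → E (2 * l + 3) → ℝ) (A A' B b lam κ m M : ℝ) (r : ℝ[X]),
    Bd Y f A → Bd Y g A' → 0 ≤ A → 0 ≤ A' → 0 < b → 0 < lam → lam < 1 → 0 ≤ m → 0 ≤ M →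
    (∀ x ∈ Y, ∀ y ∈ Y, |∑ i, f i x * f i y - ∑ j, g j x * g j y| ≤
      B * |‖x - y‖ ^ 2 - 1| ^ (l + 2)) → r.natDegree ≤ l →
    (∀ k : ℝ, Real.exp (-k ^ 2 / (4 * (b * lam / (1 - lam ^ 2)))) ≤
      κ * Phi (r.comp (X ^ 2)) k + m) →
    (∀ k : ℝ, κ * Phi (r.comp (X ^ 2)) k - M ≤
      Real.exp (-k ^ 2 / (4 * (b * lam / (1 - lam ^ 2))))) →
    ph Y b lam f ≤ ph Y b lam g + (m * A + M * A') * (lam ^ (2 * l + 3))⁻¹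

/-- row Apx: two sided approximation of Gaussians. -/
def SApxG : Prop :=
  ∀ᶠ l : ℕ in atTop, ∀ a : ℝ, 74 / 100 * l ≤ a → a ≤ 88 / 100 * l → ∃ (κ : ℝ) (r : ℝ[X]),
    r.natDegree ≤ l ∧ ∀ k : ℝ, |κ * Phi (r.comp (X ^ 2)) k - Real.exp (-k ^ 2 / (4 * a))| ≤
      Real.exp (-(73 / 100 * l))

/-- row Near: one sided approximation of wide Gaussians. -/
def SNear : Prop :=
  ∀ᶠ l : ℕ in atTop, ∀ a : ℝ, 0 < a → a ≤ 1 / (2 * l + 3 : ℝ) → ∃ (κ : ℝ) (r : ℝ[X]),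
    r.natDegree ≤ l ∧
    (∀ k : ℝ, Real.exp (-k ^ 2 / (4 * a)) ≤
      κ * Phi (r.comp (X ^ 2)) k + 200 * (2 * l + 3 : ℝ) ^ 4 / 4 ^ l) ∧
    ∀ k : ℝ, κ * Phi (r.comp (X ^ 2)) k - 5 ≤ Real.exp (-k ^ 2 / (4 * a))

/-- row Par: the parameters. -/
def SPar : Prop :=
  ∀ᶠ l : ℕ in atTop, ∀ j : ℕ, j = 6 ∨ j = 7 → ∀ lam : ℝ, lam = Real.exp (-(j * tt l)) →
    74 / 100 * l ≤ bb l * lam / (1 - lam ^ 2) ∧ bb l * lam / (1 - lam ^ 2) ≤ 88 / 100 * l ∧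
      (lam ^ (2 * l + 3))⁻¹ ≤ 2

/-- row Test: the two tests. -/
def STest : Prop :=
  ∀ᶠ l : ℕ in atTop, ∀ (ι : Type) [Fintype ι] (Y : Set (E (2 * l + 3)))
    (p : ι → E (2 * l + 3) → ℝ) (q : E (2 * l + 3) → ℝ),
    Bd Y p ((2 * l + 3 : ℝ) ^ 7 * 2 ^ l) → Measurable q → (∀ x ∈ Y, 0 ≤ q x ∧ q x ≤ 1) →
    Fl Y p q (l + 2) → 1 - 1 / (2 * l + 3 : ℝ) ^ 5 ≤ ∫ x in Y, G _ (bb l) x * q x →
    ph Y (bb l) (Real.exp (-((6 : ℕ) * tt l))) p ≤ 1 + 3 / (2 * l + 3 : ℝ) ^ 5 ∧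
      1 - 3 / (2 * l + 3 : ℝ) ^ 5 ≤ ph Y (bb l) (Real.exp (-((7 : ℕ) * tt l))) p

/-- row LogC: logarithmically convex sequences. -/
def SLogC : Prop :=
  ∀ (φ : ℕ → ℝ) (e : ℝ), 0 ≤ e → e ≤ 1 / 4 → (∀ j, 1 ≤ j → 0 ≤ φ j) →
    (∀ j, 1 ≤ j → φ (j + 1) ^ 2 ≤ φ j * φ (j + 2)) → φ 6 ≤ 1 + e → 1 - e ≤ φ 7 →
    ∀ j : ℕ, 1 - (2 * j + 1) * e ≤ φ (7 + j)

/-- row Gap: a family of mean zero cannot imitate a nearly constant function. -/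
def SGap : Prop :=
  ∀ᶠ l : ℕ in atTop, ∀ (ι : Type) [Fintype ι] (Y : Set (E (2 * l + 3)))
    (p : ι → E (2 * l + 3) → ℝ) (q : E (2 * l + 3) → ℝ),
    Bd Y p ((2 * l + 3 : ℝ) ^ 7 * 2 ^ l) → Measurable q → (∀ x ∈ Y, 0 ≤ q x ∧ q x ≤ 1) →
    Fl Y p q (l + 2) → 1 - 1 / (2 * l + 3 : ℝ) ^ 5 ≤ ∫ x in Y, G _ (bb l) x * q x →
    ¬ ∀ i, ∫ x in Y, G _ (bb l) x * p i x = 0

/-- row Fin: the rank bound for nearly Euclidean labels. -/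
def SFin : Prop :=
  ∀ᶠ l : ℕ in atTop, ∀ (ι : Type) [Fintype ι] (Y : Set (E (2 * l + 3)))
    (u : ι → E (2 * l + 3) → ℝ) (v : E (2 * l + 3) → ℝ), Bd Y u 2 → Measurable v →
    (∀ x ∈ Y, 1 ≤ ∑ i, u i x ^ 2) → (∀ x ∈ Y, v x ^ 2 ≤ 1 / 2 ^ l) → Fl Y u v (l + 2) →
    (∫ x in Y, G _ (bb l) x) ^ 2 ≤ Fintype.card ι * (4000 * (2 * l + 3 : ℝ) ^ 4 / 4 ^ l)

/-- the time coordinate in a frame. -/
noncomputable def vv {n : ℕ} (c : E n) (r : ℝ) (y : E n) : ℝ := (‖y - c‖ ^ 2 - 1 / 2) / r + r / 2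

/-- the weight. -/
noncomputable def WW (v₀ v : ℝ) : ℝ := v / (v ^ 2 + v₀ ^ 2)

/-- row Kar: the balanced frame. -/
def SKar : Prop :=
  ∀ (Ω : Type) [MeasurableSpace Ω] (n : ℕ) (ν : Measure Ω) [IsFiniteMeasure ν] (β : Ω → E n)
    (A v₀ : ℝ), Measurable β → (∀ᵐ x ∂ν, ‖β x‖ ≤ A) → 0 < v₀ → ∃ (c : E n) (r : ℝ), v₀ / 2 ≤ r ∧
      (∀ i, ∫ x, WW v₀ (vv c r (β x)) * (β x - c) i ∂ν = 0) ∧
      ∫ x, WW v₀ (vv c r (β x)) * (vv c r (β x) - r) ∂ν ≤ 0 ∧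
      (v₀ / 2 < r → ∫ x, WW v₀ (vv c r (β x)) * (vv c r (β x) - r) ∂ν = 0)

/-- row Full: no flat class of nearly full measure. -/
def SFull : Prop :=
  ∀ᶠ l : ℕ in atTop, ∀ (n : ℕ) (Y : Set (E (2 * l + 3))) (β : E (2 * l + 3) → E n),
    ((n : ℝ) + 1) * (4000 * (2 * l + 3 : ℝ) ^ 16) ≤ 4 ^ l → Pre Y β → Van Y β (2 * (l + 2)) →
    ∫ x in Y, G _ (bb l) x < 1 - 4 / (2 * l + 3 : ℝ) ^ 6

/-- row Small: classes with Euclidean labels are small. -/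
def SSmall : Prop :=
  ∀ᶠ l : ℕ in atTop, ∀ (n : ℕ) (Y : Set (E (2 * l + 3))) (β : E (2 * l + 3) → E n) (s : ℝ),
    ((n : ℝ) + 1) * (4000 * (2 * l + 3 : ℝ) ^ 16) ≤ 4 ^ l → Pre Y β → Van Y β (2 * (l + 2)) →
    s ≤ 1 / 2 → (∀ x ∈ Y, ‖β x‖ ^ 2 = s) → ∫ x in Y, G _ (bb l) x ≤ 1 / (2 * l + 3 : ℝ) ^ 6

/-- row CovA: the four classes cover most of a ball. -/
def SCovA : Prop :=
  ∀ (d n p : ℕ) (P : E d → Matrix (Ix n) (Ix n) ℝ) (u : E d → Ix n → ℝ) (R δ : ℝ), 3 ≤ d →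
    1 ≤ p → Field P → JetField P u → 0 < R → 0 < δ → Concl P ∨
      ∃ (Y : Fin 4 → Set (E d)) (β : Fin 4 → E d → E n),
        (∀ c, Pre (Y c) (β c) ∧ Van (Y c) (β c) p ∧ Y c ⊆ ball 0 R) ∧
        (∀ c, c ≠ 2 → ∃ s : ℝ, s ≤ 1 / 2 ∧ ∀ x ∈ Y c, ‖β c x‖ ^ 2 = s) ∧
        volume.real (ball (0 : E d) R) ≤ volume.real (⋃ c, Y c) + δ

/-- row Tail: a set that fills a large ball has nearly full Gaussian measure. -/
def STail : Prop :=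
  ∀ (d : ℕ) (b ε : ℝ), 0 < b → 0 < ε → ∃ R δ : ℝ, 0 < R ∧ 0 < δ ∧ ∀ Y : Fin 4 → Set (E d),
    (∀ c, MeasurableSet (Y c) ∧ Y c ⊆ ball 0 R) →
    volume.real (ball (0 : E d) R) ≤ volume.real (⋃ c, Y c) + δ →
    1 - ε ≤ ∑ c, ∫ x in Y c, G d b x

/-- row NumC: the numbers. -/
def SNumC : Prop :=
  ∀ c : ℝ, 1 ≤ c → c < 2 → ∀ᶠ l : ℕ in atTop,
    (c ^ (2 * l + 4) + 1) * (4000 * (2 * l + 3 : ℝ) ^ 16) ≤ 4 ^ l

/-- the theorem. -/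
def SBaseK : Prop :=
  ∀ c : ℝ, c < 2 → ∃ d₀ : ℕ, ∀ d n : ℕ, d₀ ≤ d → (n : ℝ) ≤ c ^ d → XT.AllIso d n

end Pool.Agent.MP_66cee2_co.B2K
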