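import Pool.Agent.MP_66cee2_co.B2K.Spec

/-
Base two: the parameters.
-/

namespace Pool.Agent.MP_66cee2_co.B2K

open Filter

theorem Parx.core (L b c x lam : ℝ) (hL : 0 < L) (hx : 0 < x) (hx1 : x ≤ 1 / 100)
    (hb : b = c * L * x) (c1 : 3 / 2 ≤ c) (c2 : c ≤ 7 / 4) (h : lam = Real.exp (-x)) :
    74 / 100 * L ≤ b * lam / (1 - lam ^ 2) ∧ b * lam / (1 - lam ^ 2) ≤ 88 / 100 * L := by
  have h1 : 1 - x ≤ lam := by
    have := Real.add_one_le_exp (-x)
    linarith
  have h0 : 0 < lam := by linarith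
  have h2 : lam * (1 + x) ≤ 1 := by
    have e : lam * Real.exp x = 1 := by rw [h, ← Real.exp_add]; simp
    have := Real.add_one_le_exp x
    nlinarith
  have h3 : x * lam ≤ 1 - lam := by linarith
  have xl : 0 < x * lam := mul_pos hx h0
  have h4 : x * lam * (199 / 100) ≤ 1 - lam ^ 2 := by nlinarith
  have h5 : 1 - lam ^ 2 ≤ x * lam * (202 / 100) := by nlinarith
  have p : 0 < 1 - lam ^ 2 := by linarith
  have e : b * lam = L * (c * (x * lam)) := by rw [hb]; ring
  rw [le_div_iff₀ p, div_le_iff₀ p, e]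
  constructor
  · have : 74 / 100 * (1 - lam ^ 2) ≤ c * (x * lam) := by nlinarith
    nlinarith
  · have : c * (x * lam) ≤ 88 / 100 * (1 - lam ^ 2) := by nlinarith
    nlinarith

theorem sPar : SPar := by
  filter_upwards [eventually_ge_atTop 2] with l hl j hj lam h
  have hL : (2 : ℝ) ≤ l := by exact_mod_cast hl
  have j1 : (6 : ℝ) ≤ j ∧ (j : ℝ) ≤ 7 := by
    rcases hj with rfl | rfl <;> norm_num
  obtain ⟨j1, j2⟩ := j1
  have l0 : (0 : ℝ) < l := by linarith
  have j0 : (0 : ℝ) < j := by linarith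
  have hx : 0 < j * tt l := by
    unfold tt bb
    positivity
  have e : (2 * l + 3 : ℝ) * (j * tt l) = 2 * j / (21 * l * (2 * l + 3)) := by
    unfold tt bb
    field_simp
  have h7 : (2 * l + 3 : ℝ) * (j * tt l) ≤ 7 / 100 := by
    rw [e, div_le_iff₀ (by positivity)]
    nlinarith
  have hx1 : j * tt l ≤ 1 / 100 := by nlinarith
  obtain ⟨a1, a2⟩ := Parx.core l (bb l) (21 / (2 * j)) (j * tt l) lam l0 hx hx1
    (by unfold tt; field_simp) (by rw [le_div_iff₀ (by positivity)]; linarith)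
    (by rw [div_le_iff₀ (by positivity)]; linarith) h
  refine ⟨a1, a2, ?_⟩
  have h2 : 1 / 2 ≤ lam ^ (2 * l + 3) := by
    rw [h, ← Real.exp_nat_mul]
    have := Real.add_one_le_exp (((2 * l + 3 : ℕ) : ℝ) * -(j * tt l))
    push_cast at this ⊢
    linarith
  rw [inv_le_comm₀ (by linarith) (by norm_num)]
  linarith

end Pool.Agent.MP_66cee2_co.B2K
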