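import Pool.Agent.MP_66cee2_co.B2K.Spec
import Pool.Agent.MP_66cee2_co.H17B.Cov2

/-
Row CovA.
-/

namespace Pool.Agent.MP_66cee2_co.B2K

open MeasureTheory Set Metric Pool.Agent.MP_66cee2_co.X
open scoped ENNReal

theorem sCovA : SCovA := by
  intro d n p P u R δ hd hp hP hu hR hδ
  have v0 : volume (ball (0 : E d) R) ≠ 0 := (measure_ball_pos volume _ hR).ne'
  have v1 : volume (ball (0 : E d) R) ≠ ∞ := measure_ball_lt_top.ne
  have hδ' : ENNReal.ofReal δ ≠ 0 := by simpa using hδ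
  rcases H17B.cov2 p R hd hp hP hu (ENNReal.sub_lt_self v1 v0 hδ') with h | ⟨Y, β, h1, h2, h3⟩
  · exact Or.inl h
  refine Or.inr ⟨Y, β, h1, fun c hc => ?_, ?_⟩
  · obtain ⟨t, ht, h⟩ := h2 c hc
    exact ⟨(1 - t) / 2, by linarith, fun x hx => by linarith [h x hx]⟩
  · have f : volume (⋃ c, Y c) ≠ ∞ :=
      ((measure_mono (iUnion_subset fun c => (h1 c).2.2)).trans_lt measure_ball_lt_top).ne
    have h4 := ENNReal.toReal_mono (ENNReal.add_ne_top.2 ⟨f, ENNReal.ofReal_ne_top⟩)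
      (tsub_le_iff_right.1 h3.le)
    rw [ENNReal.toReal_add f ENNReal.ofReal_ne_top, ENNReal.toReal_ofReal hδ.le] at h4
    exact h4

end Pool.Agent.MP_66cee2_co.B2K
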