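import Pool.Agent.MP_66cee2_co.B2K.Spec
import Pool.Agent.MP_66cee2_co.B.Gauss

/-
Base two: nearly independent pairs.
-/

namespace Pool.Agent.MP_66cee2_co.B2K

open MeasureTheory Set Filter Metric Topology Polynomial Pool.Agent.MP_66cee2_co.X
  Pool.Agent.MP_66cee2_co.XI Pool.Agent.MP_66cee2_co.B
open scoped ENNReal RealInnerProductSpace

namespace Dec

/-- the common minorant. -/
noncomputable def hh (d : ℕ) (b lam : ℝ) (x : E d) : ℝ :=
  (b / Real.pi) ^ ((d : ℝ) / 2) * Real.exp (-(b / (1 - lam)) * ‖x‖ ^ 2)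

theorem hh_eq {d : ℕ} {b lam : ℝ} (hb : 0 < b) (h1 : lam < 1) (x : E d) :
    hh d b lam x = (1 - lam) ^ ((d : ℝ) / 2) * G d (b / (1 - lam)) x := by
  have p : 0 < 1 - lam := by linarith
  have q := Real.pi_pos
  unfold hh G
  rw [← mul_assoc, ← Real.mul_rpow p.le (by positivity)]
  have : (1 - lam) * (b / (1 - lam) / Real.pi) = b / Real.pi := by field_simp
  rw [this]

theorem hh_pos {d : ℕ} {b lam : ℝ} (hb : 0 < b) (x : E d) : 0 < hh d b lam x := by
  have q := Real.pi_pos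
  unfold hh
  positivity

theorem hh_le {d : ℕ} {b lam : ℝ} (hb : 0 < b) (h0 : 0 ≤ lam) (h1 : lam < 1) (x : E d) :
    hh d b lam x ≤ G d b x := by
  have p : 0 < 1 - lam := by linarith
  have q := Real.pi_pos
  unfold hh G
  refine mul_le_mul_of_nonneg_left (Real.exp_le_exp.2 ?_) (by positivity)
  have : b ≤ b / (1 - lam) := by
    rw [le_div_iff₀ p]
    nlinarith
  nlinarith [sq_nonneg ‖x‖]

theorem hh_K {d : ℕ} {b lam : ℝ} (hb : 0 < b) (h0 : 0 ≤ lam) (h1 : lam < 1) (x y : E d) :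
    hh d b lam x * hh d b lam y ≤ K d b lam x y := by
  have p : 0 < 1 - lam := by linarith
  have p2 : 0 < 1 - lam ^ 2 := by nlinarith
  have q := Real.pi_pos
  obtain ⟨c, hc⟩ : ∃ c, c = b / (1 - lam ^ 2) := ⟨_, rfl⟩
  have c0 : 0 < c := by rw [hc]; positivity
  have e1 : b = c * (1 - lam ^ 2) := by rw [hc]; field_simp
  have e2 : b / (1 - lam) = c * (1 + lam) := by
    rw [e1, div_eq_iff p.ne']
    ring
  have a1 : (b / Real.pi) ^ ((d : ℝ) / 2) ≤ (c / Real.pi) ^ ((d : ℝ) / 2) := by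
    refine Real.rpow_le_rpow (by positivity) ?_ (by positivity)
    refine div_le_div_of_nonneg_right ?_ q.le
    nlinarith [mul_nonneg c0.le (sq_nonneg lam)]
  have n1 : ‖y - lam • x‖ ^ 2 = ‖y‖ ^ 2 - 2 * (lam * ⟪y, x⟫) + lam ^ 2 * ‖x‖ ^ 2 := by
    rw [norm_sub_sq_real, inner_smul_right, norm_smul, mul_pow, Real.norm_eq_abs, sq_abs]
  have n2 : 0 ≤ ‖y‖ ^ 2 + 2 * ⟪y, x⟫ + ‖x‖ ^ 2 := by
    rw [← norm_add_sq_real]
    positivity
  have a2 : Real.exp (-(b / (1 - lam)) * ‖x‖ ^ 2) * Real.exp (-(b / (1 - lam)) * ‖y‖ ^ 2) ≤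
      Real.exp (-b * ‖x‖ ^ 2) * Real.exp (-c * ‖y - lam • x‖ ^ 2) := by
    rw [← Real.exp_add, ← Real.exp_add, Real.exp_le_exp, e2, n1]
    have := mul_nonneg (mul_nonneg c0.le h0) n2
    nth_rewrite 1 [e1]
    nlinarith
  unfold hh K Q G
  rw [← hc]
  calc _ = (b / Real.pi) ^ ((d : ℝ) / 2) * (b / Real.pi) ^ ((d : ℝ) / 2) *
        (Real.exp (-(b / (1 - lam)) * ‖x‖ ^ 2) * Real.exp (-(b / (1 - lam)) * ‖y‖ ^ 2)) := by ring
    _ ≤ (b / Real.pi) ^ ((d : ℝ) / 2) * (c / Real.pi) ^ ((d : ℝ) / 2) *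
        (Real.exp (-b * ‖x‖ ^ 2) * Real.exp (-c * ‖y - lam • x‖ ^ 2)) := by
      refine mul_le_mul (mul_le_mul_of_nonneg_left a1 (by positivity)) a2 (by positivity)
        (by positivity)
    _ = _ := by ring

theorem sB {d : ℕ} {ι : Type} [Fintype ι] {Y : Set (E d)} {f : ι → E d → ℝ} {A : ℝ}
    (h : Bd Y f A) {x y : E d} (hx : x ∈ Y) (hy : y ∈ Y) : |∑ i, f i x * f i y| ≤ A := by
  have a := h.sq x hx
  have b := h.sq y hy
  have u : ∑ i, f i x * f i y ≤ ∑ i, (f i x ^ 2 + f i y ^ 2) / 2 :=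
    Finset.sum_le_sum fun i _ => by nlinarith [sq_nonneg (f i x - f i y)]
  have v : ∑ i, -((f i x ^ 2 + f i y ^ 2) / 2) ≤ ∑ i, f i x * f i y :=
    Finset.sum_le_sum fun i _ => by nlinarith [sq_nonneg (f i x + f i y)]
  rw [Finset.sum_neg_distrib] at v
  rw [← Finset.sum_div, Finset.sum_add_distrib] at u v
  rw [abs_le]
  constructor <;> linarith

end Dec

open Dec

theorem sDecay (hB : SBasic) : SDecay := by
  intro d ι _ Y f A b lam h A0 hb h0 h1
  have p : 0 < 1 - lam := by linarith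
  obtain ⟨-, -, -, m1, i1, z0⟩ := hB d b lam hb h0 h1
  obtain ⟨-, -, -, m0, i0, -⟩ := hB d b 0 hb le_rfl one_pos
  obtain ⟨-, -, -, g1, -⟩ := sGauss d b hb
  obtain ⟨-, -, gi, g2, -⟩ := sGauss d (b / (1 - lam)) (by positivity)
  have hY : MeasurableSet (Y ×ˢ Y) := h.ms.prod h.ms
  have mS : Measurable fun z : E d × E d => ∑ i, f i z.1 * f i z.2 :=
    Finset.measurable_sum _ fun i _ =>
      ((h.meas i).comp measurable_fst).mul ((h.meas i).comp measurable_snd)
  have bS : ∀ᵐ z ∂((volume.prod volume).restrict (Y ×ˢ Y) : Measure (E d × E d)),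
      ‖∑ i, f i z.1 * f i z.2‖ ≤ A :=
    (ae_restrict_iff' hY).2 (Eventually.of_forall fun z hz => sB h hz.1 hz.2)
  have j1 : IntegrableOn (fun z : E d × E d => K d b lam z.1 z.2 * ∑ i, f i z.1 * f i z.2)
      (Y ×ˢ Y) (volume.prod volume) := i1.integrableOn.mul_bdd mS.aestronglyMeasurable bS
  have j0 : IntegrableOn (fun z : E d × E d => K d b 0 z.1 z.2 * ∑ i, f i z.1 * f i z.2)
      (Y ×ˢ Y) (volume.prod volume) := i0.integrableOn.mul_bdd mS.aestronglyMeasurable bS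
  have hi : Integrable (hh d b lam) := by
    rw [funext (hh_eq hb h1)]
    exact gi.const_mul _
  have hv : ∫ x, hh d b lam x = (1 - lam) ^ ((d : ℝ) / 2) := by
    simp only [hh_eq hb h1]
    rw [integral_const_mul, g2, mul_one]
  have i2 : Integrable (fun z : E d × E d => hh d b lam z.1 * hh d b lam z.2)
      (volume.prod volume) := hi.mul_prod hi
  have t1 : ∫ z : E d × E d, K d b lam z.1 z.2 ∂(volume.prod volume) = 1 := by
    rw [integral_prod _ i1]
    simp only [fun x => (m1 x).2]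
    exact g1
  have t0 : ∫ z : E d × E d, K d b 0 z.1 z.2 ∂(volume.prod volume) = 1 := by
    rw [integral_prod _ i0]
    simp only [fun x => (m0 x).2]
    exact g1
  have t2 : ∫ z : E d × E d, hh d b lam z.1 * hh d b lam z.2 ∂(volume.prod volume) =
      (1 - lam) ^ d := by
    rw [integral_prod_mul, hv, ← Real.rpow_add p, add_halves, Real.rpow_natCast]
  have l0 : ∀ x y : E d, hh d b lam x * hh d b lam y ≤ K d b 0 x y := fun x y => by
    rw [z0]
    exact mul_le_mul (hh_le hb h0 h1 x) (hh_le hb h0 h1 y) (hh_pos hb y).le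
      ((hh_pos hb x).le.trans (hh_le hb h0 h1 x))
  have i3 : Integrable (fun z : E d × E d => A * (K d b lam z.1 z.2 + K d b 0 z.1 z.2 -
      2 * (hh d b lam z.1 * hh d b lam z.2))) (volume.prod volume) :=
    ((i1.add i0).sub (i2.const_mul 2)).const_mul A
  have t3 : ∫ z : E d × E d, A * (K d b lam z.1 z.2 + K d b 0 z.1 z.2 -
      2 * (hh d b lam z.1 * hh d b lam z.2)) ∂(volume.prod volume) =
      A * (2 - 2 * (1 - lam) ^ d) := by
    have i4 : Integrable (fun z : E d × E d => K d b lam z.1 z.2 + K d b 0 z.1 z.2)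
      (volume.prod volume) := i1.add i0
    rw [integral_const_mul, integral_sub i4 (i2.const_mul 2), integral_add i1 i0,
      integral_const_mul, t1, t0, t2]
    ring
  have k1 : ∫ z in Y ×ˢ Y, (K d b lam z.1 z.2 * ∑ i, f i z.1 * f i z.2 -
      K d b 0 z.1 z.2 * ∑ i, f i z.1 * f i z.2) ∂(volume.prod volume) ≤
      A * (2 - 2 * (1 - lam) ^ d) := by
    rw [← t3]
    refine le_trans (setIntegral_mono_on (j1.sub j0) i3.integrableOn hY fun z hz => ?_)
      (setIntegral_le_integral i3 (Eventually.of_forall fun z => ?_))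
    · have a := abs_le.1 (sB h hz.1 hz.2)
      have u := hh_K hb h0 h1 z.1 z.2
      have v := l0 z.1 z.2
      nlinarith [mul_nonneg (sub_nonneg.2 u) (sub_nonneg.2 a.2),
        mul_nonneg (sub_nonneg.2 v) (sub_nonneg.2 a.1)]
    · have u := hh_K hb h0 h1 z.1 z.2
      have v := l0 z.1 z.2
      exact mul_nonneg A0 (by linarith)
  rw [integral_sub j1 j0, setIntegral_prod _ j1, setIntegral_prod _ j0] at k1
  have be : 1 + (d : ℝ) * (-lam) ≤ (1 + -lam) ^ d := one_add_mul_le_pow (by linarith) d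
  rw [← sub_eq_add_neg] at be
  have k2 : A * (2 - 2 * (1 - lam) ^ d) ≤ 2 * A * lam * d := by
    nlinarith [mul_nonneg A0 (sub_nonneg.2 be)]
  unfold ph
  linarith

end Pool.Agent.MP_66cee2_co.B2K
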