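import Pool.Agent.MP_66cee2_co.B2K.Spec
import Pool.Agent.MP_66cee2_co.H12.MehCS

/-
Base two: the rows on the Mehler kernel.
-/

namespace Pool.Agent.MP_66cee2_co.B2K.H12

open MeasureTheory Set Filter Pool.Agent.MP_66cee2_co.X Pool.Agent.MP_66cee2_co.B

theorem K_eq (d : ℕ) (b lam : ℝ) (x y : E d) : K d b lam x y = H12M.K b lam x y := rfl

theorem sq_lt {l : ℝ} (h0 : 0 ≤ l) (h1 : l < 1) : l ^ 2 < 1 := by nlinarith

theorem sBasic : SBasic := fun _ b lam hb h0 h1 =>
  ⟨H12M.K_cont b lam, H12M.K_pos hb (sq_lt h0 h1), H12M.K_symm (sq_lt h0 h1),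
    H12M.K_marg hb (sq_lt h0 h1), H12M.K_integrable hb (sq_lt h0 h1), H12M.K_zero b⟩

theorem sSemi : SSemi := by
  intro d b μ ν hb m0 m1 n0 n1 x y
  have e : ∀ z, G d b z * (Q d b μ z x * Q d b ν z y) =
      H12M.K b μ x z * H12M.K b ν z y / G d b z := by
    intro z
    have := (H12M.G_pos hb z).ne'
    rw [H12M.K_symm (sq_lt m0 m1) x z, ← K_eq, ← K_eq, K, K]
    field_simp
  simp_rw [e]
  exact H12M.K_semi hb (sq_lt m0 m1) (sq_lt n0 n1) x y

theorem sFac : SFac := by
  intro d b lam hb h0 h1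
  have hπ := Real.pi_pos
  set c := (b / (lam * Real.pi)) ^ ((d : ℝ) / 2) with hc
  have hc0 : 0 ≤ c := by positivity
  have hs : ∀ x : E d, (√c * Real.exp (-(b / (1 + lam)) * ‖x‖ ^ 2)) ^ 2 ≤
      lam⁻¹ ^ ((d : ℝ) / 2) * G d b x := fun x => by
    rw [mul_pow, Real.sq_sqrt hc0]
    exact H12M.w_le hb h0 h1 x
  have hcont : Continuous fun x : E d => √c * Real.exp (-(b / (1 + lam)) * ‖x‖ ^ 2) := by
    fun_prop
  have hG := (H12M.G_integrable (d := d) hb).const_mul (lam⁻¹ ^ ((d : ℝ) / 2))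
  have hi : Integrable fun x : E d => (√c * Real.exp (-(b / (1 + lam)) * ‖x‖ ^ 2)) ^ 2 :=
    hG.mono' (hcont.pow 2).aestronglyMeasurable (Eventually.of_forall fun x => by
      rw [Real.norm_of_nonneg (sq_nonneg _)]; exact hs x)
  refine ⟨_, hcont, ⟨√c, fun x => ?_⟩, hi, ?_, fun x y => ?_⟩
  · rw [abs_of_nonneg (by positivity)]
    refine mul_le_of_le_one_right (Real.sqrt_nonneg _) (Real.exp_le_one_iff.2 ?_)
    have : 0 ≤ b / (1 + lam) * ‖x‖ ^ 2 := by positivity
    linarith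
  · refine (integral_mono hi hG hs).trans ?_
    rw [integral_const_mul, H12M.G_int hb, mul_one, ← inv_pow, ← Real.rpow_natCast]
    refine Real.rpow_le_rpow_of_exponent_le ((one_le_inv₀ h0).2 h1.le) ?_
    have : (0 : ℝ) ≤ d := by positivity
    linarith
  · rw [K_eq, H12M.K_factor hb h0 h1, ← hc, mul_mul_mul_comm √c, Real.mul_self_sqrt hc0]
    ring

theorem ind_bd {d : ℕ} {ι : Type} [Fintype ι] {Y : Set (E d)} {f : ι → E d → ℝ} {A : ℝ}
    (h : Bd Y f A) (i : ι) (x : E d) : |Y.indicator (f i) x| ≤ √A := by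
  by_cases hx : x ∈ Y
  · rw [indicator_of_mem hx]
    exact Real.abs_le_sqrt ((Finset.single_le_sum (f := fun i => f i x ^ 2)
      (fun j _ => sq_nonneg _) (Finset.mem_univ i)).trans (h.sq x hx))
  · rw [indicator_of_notMem hx, abs_zero]
    exact Real.sqrt_nonneg _

theorem ph_eq {d : ℕ} {ι : Type} [Fintype ι] {Y : Set (E d)} {f : ι → E d → ℝ} {A b lam : ℝ}
    (h : Bd Y f A) (hb : 0 < b) (hl : lam ^ 2 < 1) :
    ph Y b lam f = ∑ i, H12M.ph b lam (Y.indicator (f i)) (Y.indicator (f i)) := by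
  have hi := fun i => H12M.ph_int hb hl ((h.meas i).indicator h.ms) ((h.meas i).indicator h.ms)
    (ind_bd h i) (ind_bd h i)
  have e : ∀ i, H12M.ph b lam (Y.indicator (f i)) (Y.indicator (f i)) =
      ∫ q : E d × E d, H12M.K b lam q.1 q.2 * (Y.indicator (f i) q.1 * Y.indicator (f i) q.2)
        ∂(volume.prod volume) := fun i => (integral_prod _ (hi i)).symm
  simp_rw [e]
  rw [← integral_finsetSum _ fun i _ => hi i,
    integral_prod _ (integrable_finsetSum _ fun i _ => hi i), ph, ← integral_indicator h.ms]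
  refine integral_congr_ae (Eventually.of_forall fun x => ?_)
  by_cases hx : x ∈ Y
  · simp only [indicator_of_mem hx]
    rw [← integral_indicator h.ms]
    refine integral_congr_ae (Eventually.of_forall fun y => ?_)
    by_cases hy : y ∈ Y
    · simp only [indicator_of_mem hy, K_eq, Finset.mul_sum]
    · simp [indicator_of_notMem hy]
  · simp [indicator_of_notMem hx]

theorem sCS : SCS := by
  intro d ι _ Y f A b μ ν h hb m0 m1 n0 n1
  have hm := sq_lt m0 m1
  have hn := sq_lt n0 n1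
  rw [ph_eq h hb (H12M.mul_lt hm hm), ph_eq h hb (H12M.mul_lt hm hn),
    ph_eq h hb (H12M.mul_lt hn hn)]
  refine ⟨Finset.sum_nonneg fun i _ => (sq_nonneg _).trans (H12M.ph_ge hb (mul_nonneg m0 m0)
    (by nlinarith) ((h.meas i).indicator h.ms) (ind_bd h i)), ?_⟩
  exact H12M.ph_cs hb hm hn (fun i => (h.meas i).indicator h.ms) (ind_bd h)

theorem sZero : SZero := by
  intro d ι _ Y f A b h hb
  rw [ph_eq h hb (by norm_num)]
  refine Finset.sum_congr rfl fun i _ => ?_
  rw [H12M.ph_zero, ← sq, ← integral_indicator h.ms]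
  congr 1
  refine integral_congr_ae (Eventually.of_forall fun x => ?_)
  by_cases hx : x ∈ Y
  · simp only [indicator_of_mem hx]
  · simp [indicator_of_notMem hx]

end Pool.Agent.MP_66cee2_co.B2K.H12
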