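import Pool.Agent.MP_66cee2_co.B2K.Spec
import Pool.Agent.MP_66cee2_co.B.Gauss

/-
Row Tail.
-/

namespace Pool.Agent.MP_66cee2_co.B2K.H17

open MeasureTheory Set Filter Metric Topology Pool.Agent.MP_66cee2_co.X
  Pool.Agent.MP_66cee2_co.XI Pool.Agent.MP_66cee2_co.B
open scoped ENNReal

theorem un_le {d : ℕ} {g : E d → ℝ} (hg : Integrable g) (g0 : ∀ x, 0 ≤ g x)
    {Y : Fin 4 → Set (E d)} (hY : ∀ c, MeasurableSet (Y c)) :
    ∫ x in ⋃ c, Y c, g x ≤ ∑ c, ∫ x in Y c, g x := by
  rw [← integral_indicator (MeasurableSet.iUnion hY)]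
  simp only [← integral_indicator (hY _)]
  rw [← integral_finset_sum _ fun c _ => hg.indicator (hY c)]
  refine integral_mono (hg.indicator (MeasurableSet.iUnion hY))
    (integrable_finset_sum _ fun c _ => hg.indicator (hY c)) fun x => ?_
  have h0 : ∀ c, 0 ≤ (Y c).indicator g x := fun c => indicator_nonneg (fun y _ => g0 y) x
  by_cases hx : x ∈ ⋃ c, Y c
  · obtain ⟨c, hc⟩ := mem_iUnion.1 hx
    have := Finset.single_le_sum (f := fun c => (Y c).indicator g x) (fun c _ => h0 c)
      (Finset.mem_univ c)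
    simp only [indicator_of_mem hc] at this
    simpa only [indicator_of_mem hx] using this
  · simp only [indicator_of_notMem hx]
    exact Finset.sum_nonneg fun c _ => h0 c

theorem small {d : ℕ} {g : E d → ℝ} (hg : Integrable g) {δ : ℝ} (hδ : 0 < δ) :
    ∃ η : ℝ, 0 < η ∧ ∀ s : Set (E d), volume s ≠ ∞ → volume.real s ≤ η → ∫ x in s, g x ≤ δ := by
  have h := hg.tendsto_setIntegral_nhds_zero (l := comap (fun s : Set (E d) => volume s) (𝓝 0))
    (s := id) tendsto_comap
  have h1 := h.eventually (gt_mem_nhds hδ)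
  rw [eventually_comap] at h1
  obtain ⟨a, ha, h2⟩ := ENNReal.nhds_zero_basis_Iic.mem_iff.1 h1
  obtain ⟨η, -, h3, h4⟩ := ENNReal.lt_iff_exists_real_btwn.1 ha
  refine ⟨η, by simpa using h3, fun s hs hs' => (h2 (a := volume s) ?_ s rfl).le⟩
  have h5 : volume s ≤ ENNReal.ofReal η := by
    rw [← ENNReal.ofReal_toReal hs]
    exact ENNReal.ofReal_le_ofReal hs'
  exact h5.trans h4.le

theorem sTail : STail := by
  intro d b ε hb hε
  obtain ⟨-, g0, hg, g1, -⟩ := sGauss d b hb
  have d3 : 0 < ε / 2 := by linarith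
  have t1 := tendsto_setIntegral_of_monotone (μ := volume) (f := G d b)
    (s := fun k : ℕ => ball (0 : E d) (k + 1)) (fun _ => measurableSet_ball)
    (fun i j h => ball_subset_ball (by exact_mod_cast Nat.succ_le_succ h)) hg.integrableOn
  rw [iUnion_ball_nat_succ, Measure.restrict_univ] at t1
  obtain ⟨k, hk⟩ := (t1.eventually (lt_mem_nhds (sub_lt_self _ d3))).exists
  obtain ⟨η, hη, hs⟩ := small hg d3
  refine ⟨k + 1, η, by positivity, hη, fun Y hY h => ?_⟩
  have hm : ∀ c, MeasurableSet (Y c) := fun c => (hY c).1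
  have hU : (⋃ c, Y c) ⊆ ball 0 (k + 1) := iUnion_subset fun c => (hY c).2
  have e1 := hs (ball 0 (k + 1) \ ⋃ c, Y c)
    ((measure_mono diff_subset).trans_lt measure_ball_lt_top).ne (by
      rw [measureReal_diff hU (MeasurableSet.iUnion hm) measure_ball_lt_top.ne]
      linarith)
  have e2 := setIntegral_diff (μ := volume) (f := G d b) (MeasurableSet.iUnion hm)
    hg.integrableOn hU
  have e3 := un_le hg (fun x => (g0 x).le) hm
  linarith

end Pool.Agent.MP_66cee2_co.B2K.H17
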