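import Mathlib

/-
The frame that minimises the logarithmic potential.
-/

namespace Pool.Agent.MP_66cee2_co.B2K.H3

open MeasureTheory Set Filter Metric Topology
open scoped RealInnerProductSpace

variable {Ω : Type} [MeasurableSpace Ω] (ν : Measure Ω) [IsFiniteMeasure ν]

theorem intB {f : Ω → ℝ} (hf : Measurable f) (M : ℝ) (h : ∀ x, |f x| ≤ M) : Integrable f ν :=
  Integrable.of_bound hf.aestronglyMeasurable M (Eventually.of_forall h)

theorem logB {v v₀ M : ℝ} (h0 : 0 < v₀) (h : |v| ≤ M) :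
    |Real.log (v ^ 2 + v₀ ^ 2)| ≤ |Real.log (v₀ ^ 2)| + |Real.log (M ^ 2 + v₀ ^ 2)| := by
  have a1 : Real.log (v₀ ^ 2) ≤ Real.log (v ^ 2 + v₀ ^ 2) :=
    Real.log_le_log (by positivity) (by nlinarith)
  have a2 : Real.log (v ^ 2 + v₀ ^ 2) ≤ Real.log (M ^ 2 + v₀ ^ 2) :=
    Real.log_le_log (by positivity) (by nlinarith [sq_abs v, abs_nonneg v])
  rw [abs_le]
  constructor
  · linarith [neg_abs_le (Real.log (v₀ ^ 2)), abs_nonneg (Real.log (M ^ 2 + v₀ ^ 2))]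
  · linarith [le_abs_self (Real.log (M ^ 2 + v₀ ^ 2)), abs_nonneg (Real.log (v₀ ^ 2))]

theorem wB (v : ℝ) {v₀ : ℝ} (h0 : 0 < v₀) : |v / (v ^ 2 + v₀ ^ 2)| ≤ 1 / (2 * v₀) := by
  rw [abs_div, abs_of_pos (by positivity : 0 < v ^ 2 + v₀ ^ 2),
    div_le_div_iff₀ (by positivity) (by positivity)]
  nlinarith [sq_abs v, sq_nonneg (|v| - v₀)]

theorem ptw {v w g v₀ C s : ℝ} (h0 : 0 < v₀) (s0 : 0 < s) (s1 : s ≤ 1) (hg : |g| ≤ C)
    (h : |w - v - s * g| ≤ C * s ^ 2) :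
    Real.log (w ^ 2 + v₀ ^ 2) ≤ Real.log (v ^ 2 + v₀ ^ 2) +
      (2 * s * (v / (v ^ 2 + v₀ ^ 2) * g) + s ^ 2 * (C / v₀ + 4 * C ^ 2 / v₀ ^ 2)) := by
  have C0 : 0 ≤ C := (abs_nonneg _).trans hg
  have p : 0 < v ^ 2 + v₀ ^ 2 := by positivity
  have a := Real.log_le_sub_one_of_pos (show 0 < (w ^ 2 + v₀ ^ 2) / (v ^ 2 + v₀ ^ 2) by positivity)
  rw [Real.log_div (by positivity) p.ne'] at a
  obtain ⟨r, hr⟩ : ∃ r, r = w - v - s * g := ⟨_, rfl⟩
  rw [← hr] at h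
  have e : (w ^ 2 + v₀ ^ 2) / (v ^ 2 + v₀ ^ 2) - 1 = 2 * s * (v / (v ^ 2 + v₀ ^ 2) * g) +
      2 * (v / (v ^ 2 + v₀ ^ 2) * r) + (w - v) ^ 2 / (v ^ 2 + v₀ ^ 2) := by
    rw [hr]
    field_simp
    ring
  have b1 : v / (v ^ 2 + v₀ ^ 2) * r ≤ 1 / (2 * v₀) * (C * s ^ 2) := by
    refine (le_abs_self _).trans ?_
    rw [abs_mul]
    exact mul_le_mul (wB v h0) h (abs_nonneg _) (by positivity)
  have b2 : |w - v| ≤ 2 * C * s := by
    have : w - v = r + s * g := by rw [hr]; ring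
    rw [this]
    refine (abs_add_le _ _).trans ?_
    rw [abs_mul, abs_of_pos s0]
    nlinarith [mul_le_mul_of_nonneg_left hg s0.le, mul_nonneg C0 (mul_nonneg s0.le (sub_nonneg.2 s1))]
  have b3 : (w - v) ^ 2 / (v ^ 2 + v₀ ^ 2) ≤ (2 * C * s) ^ 2 / v₀ ^ 2 := by
    have := pow_le_pow_left₀ (abs_nonneg _) b2 2
    rw [sq_abs] at this
    exact div_le_div₀ (by positivity) this (by positivity) (by nlinarith)
  have e2 : s ^ 2 * (C / v₀ + 4 * C ^ 2 / v₀ ^ 2) =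
      2 * (1 / (2 * v₀) * (C * s ^ 2)) + (2 * C * s) ^ 2 / v₀ ^ 2 := by
    field_simp
    ring
  linarith

theorem pert {v g : Ω → ℝ} {w : ℝ → Ω → ℝ} {v₀ C δ : ℝ} (h0 : 0 < v₀) (hδ : 0 < δ)
    (mv : Measurable v) (mg : Measurable g) (mw : ∀ s, Measurable (w s)) (bv : ∀ x, |v x| ≤ C)
    (bg : ∀ x, |g x| ≤ C) (hw : ∀ s, 0 < s → s ≤ δ → ∀ x, |w s x - v x - s * g x| ≤ C * s ^ 2)
    (hm : ∀ s, 0 < s → s ≤ δ →
      ∫ x, Real.log (v x ^ 2 + v₀ ^ 2) ∂ν ≤ ∫ x, Real.log (w s x ^ 2 + v₀ ^ 2) ∂ν) :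
    0 ≤ ∫ x, v x / (v x ^ 2 + v₀ ^ 2) * g x ∂ν := by
  obtain ⟨K, hK⟩ : ∃ K, K = C / v₀ + 4 * C ^ 2 / v₀ ^ 2 := ⟨_, rfl⟩
  obtain ⟨I, hI⟩ : ∃ I, I = ∫ x, v x / (v x ^ 2 + v₀ ^ 2) * g x ∂ν := ⟨_, rfl⟩
  have i1 : Integrable (fun x => Real.log (v x ^ 2 + v₀ ^ 2)) ν :=
    intB ν (by fun_prop) _ fun x => logB h0 (bv x)
  have i2 : Integrable (fun x => v x / (v x ^ 2 + v₀ ^ 2) * g x) ν :=
    intB ν (by fun_prop) (1 / (2 * v₀) * C) fun x => by
      rw [abs_mul]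
      exact mul_le_mul (wB _ h0) (bg x) (abs_nonneg _) (by positivity)
  have key : ∀ s, 0 < s → s ≤ min δ 1 → 0 ≤ 2 * I + s * (K * ν.real univ) := by
    intro s s0 s1
    have s2 := s1.trans (min_le_left _ _)
    have s3 := s1.trans (min_le_right _ _)
    have i3 : Integrable (fun x => Real.log (w s x ^ 2 + v₀ ^ 2)) ν := by
      have := mw s
      refine intB ν (by fun_prop) _ fun x => logB (M := 3 * C) h0 ?_
      have a1 := abs_le.1 (hw s s0 s2 x)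
      have a2 := abs_le.1 (bv x)
      have a3 := abs_le.1 (bg x)
      have C0 : 0 ≤ C := (abs_nonneg _).trans (bv x)
      have a4 : C * s ^ 2 ≤ C := mul_le_of_le_one_right C0 (by nlinarith)
      rw [abs_le]
      constructor <;> nlinarith
    have i4 : Integrable (fun x => 2 * s * (v x / (v x ^ 2 + v₀ ^ 2) * g x) + s ^ 2 * K) ν :=
      (i2.const_mul (2 * s)).add (integrable_const (s ^ 2 * K))
    have a := (hm s s0 s2).trans (integral_mono i3 (i1.add i4)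
      fun x => hK ▸ ptw h0 s0 s3 (bg x) (hw s s0 s2 x))
    simp only [Pi.add_apply] at a
    rw [integral_add i1 i4,
      integral_add (i2.const_mul (2 * s)) (integrable_const (s ^ 2 * K)), integral_const_mul,
      integral_const, smul_eq_mul, ← hI] at a
    refine le_of_mul_le_mul_left (a := s) ?_ s0
    nlinarith
  have t : Tendsto (fun s : ℝ => 2 * I + s * (K * ν.real univ)) (𝓝[>] 0)
      (𝓝 (2 * I + 0 * (K * ν.real univ))) :=
    (Continuous.tendsto (by fun_prop) 0).mono_left nhdsWithin_le_nhds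
  have := ge_of_tendsto t (by
    filter_upwards [Ioc_mem_nhdsGT (lt_min hδ one_pos)] with s hs
    exact key s hs.1 hs.2)
  rw [← hI]
  linarith

/-- the time coordinate in the frame `p`. -/
noncomputable def vv {n : ℕ} (p : EuclideanSpace ℝ (Fin n) × ℝ) (b : EuclideanSpace ℝ (Fin n)) :
    ℝ := (‖b - p.1‖ ^ 2 - 1 / 2 + p.2 ^ 2) / (√2 * p.2)

theorem s2 : 1 ≤ √2 ∧ √2 ≤ 2 ∧ √2 * √2 = 2 :=
  ⟨Real.one_le_sqrt.2 (by norm_num), Real.sqrt_le_iff.2 ⟨by norm_num, by norm_num⟩,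
    Real.mul_self_sqrt (by norm_num)⟩

theorem vB {n : ℕ} {p : EuclideanSpace ℝ (Fin n) × ℝ} {b : EuclideanSpace ℝ (Fin n)} {r R A : ℝ}
    (r0 : 0 < r) (h1 : r ≤ p.2) (h2 : p.2 ≤ R) (h3 : ‖p.1‖ ≤ R) (hb : ‖b‖ ≤ A) :
    |vv p b| ≤ ((A + R) ^ 2 + 1 / 2 + R ^ 2) / r := by
  have p0 : 0 < p.2 := r0.trans_le h1
  have a1 : ‖b - p.1‖ ≤ A + R := (norm_sub_le _ _).trans (add_le_add hb h3)
  have a2 := pow_le_pow_left₀ (norm_nonneg _) a1 2
  have a3 := pow_le_pow_left₀ p0.le h2 2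
  rw [vv, abs_div, abs_of_pos (by positivity : 0 < √2 * p.2)]
  refine div_le_div₀ (by positivity) (abs_le.2 ⟨?_, ?_⟩) r0 (by nlinarith [s2.1])
  · nlinarith [sq_nonneg ‖b - p.1‖, sq_nonneg p.2, sq_nonneg (A + R), sq_nonneg R]
  · linarith

theorem exMin {n : ℕ} (β : Ω → EuclideanSpace ℝ (Fin n)) (mβ : Measurable β) {A v₀ r : ℝ}
    (hA : ∀ x, ‖β x‖ ≤ A) (A0 : 0 ≤ A) (h0 : 0 < v₀) (r0 : 0 < r) :
    ∃ p : EuclideanSpace ℝ (Fin n) × ℝ, r ≤ p.2 ∧ ∀ q : EuclideanSpace ℝ (Fin n) × ℝ, r ≤ q.2 →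
      ∫ x, Real.log (vv p (β x) ^ 2 + v₀ ^ 2) ∂ν ≤ ∫ x, Real.log (vv q (β x) ^ 2 + v₀ ^ 2) ∂ν := by
  have mv : ∀ p, Measurable fun x => Real.log (vv p (β x) ^ 2 + v₀ ^ 2) := fun p => by
    unfold vv
    fun_prop
  obtain ⟨M, hM⟩ : ∃ M, M = ((A + r) ^ 2 + 1 / 2 + r ^ 2) / r := ⟨_, rfl⟩
  have M0 : 0 ≤ M := by rw [hM]; positivity
  obtain ⟨R, hR⟩ : ∃ R, R = A + r + 2 * M + 1 / r := ⟨_, rfl⟩
  have ir : 0 < 1 / r := by positivity
  have rR : r ≤ R := by rw [hR]; linarith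
  have hK : IsCompact (closedBall (0 : EuclideanSpace ℝ (Fin n)) R ×ˢ Icc r R) :=
    (isCompact_closedBall _ _).prod isCompact_Icc
  have m0 : ((0 : EuclideanSpace ℝ (Fin n)), r) ∈
      closedBall (0 : EuclideanSpace ℝ (Fin n)) R ×ˢ Icc r R :=
    ⟨mem_closedBall_self (by linarith), le_rfl, rR⟩
  have hc : ContinuousOn (fun p => ∫ x, Real.log (vv p (β x) ^ 2 + v₀ ^ 2) ∂ν)
      (closedBall (0 : EuclideanSpace ℝ (Fin n)) R ×ˢ Icc r R) := by
    refine continuousOn_of_dominated (fun p _ => (mv p).aestronglyMeasurable)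
      (fun p hp => Eventually.of_forall fun x => logB h0
        (vB r0 hp.2.1 hp.2.2 (mem_closedBall_zero_iff.1 hp.1) (hA x))) (integrable_const _)
      (Eventually.of_forall fun x => ContinuousOn.log ?_ fun p _ => by positivity)
    refine ContinuousOn.add (ContinuousOn.pow ?_ 2) continuousOn_const
    unfold vv
    refine ContinuousOn.div (by fun_prop) (by fun_prop) fun p hp => ?_
    have := r0.trans_le hp.2.1
    positivity
  obtain ⟨p, hp, hmin⟩ := hK.exists_isMinOn ⟨_, m0⟩ hc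
  refine ⟨p, hp.2.1, fun q hq => ?_⟩
  by_cases hin : q ∈ closedBall (0 : EuclideanSpace ℝ (Fin n)) R ×ˢ Icc r R
  · exact hmin hin
  have q0 : 0 < q.2 := r0.trans_le hq
  refine (hmin m0).trans (integral_mono
    (intB ν (mv _) _ fun x => logB h0 (vB (R := r) r0 le_rfl le_rfl (by simp [r0.le]) (hA x)))
    (intB ν (mv _) _ fun x => logB h0 (vB (R := max q.2 ‖q.1‖) r0 hq (le_max_left _ _)
      (le_max_right _ _) (hA x))) fun x => Real.log_le_log (by positivity) ?_)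
  have a1 : |vv ((0 : EuclideanSpace ℝ (Fin n)), r) (β x)| ≤ M :=
    hM ▸ vB (R := r) r0 le_rfl le_rfl (by simp [r0.le]) (hA x)
  have a2 : M ≤ vv q (β x) := by
    rw [vv, le_div_iff₀ (by positivity)]
    have c1 : q.2 ≤ q.2 * (q.2 * (1 / r)) :=
      le_mul_of_one_le_right q0.le (by rw [mul_one_div, one_le_div r0]; exact hq)
    have c0 : 1 ≤ q.2 * (1 / r) := by rw [mul_one_div, one_le_div r0]; exact hq
    have c2 : M * (√2 * q.2) ≤ 2 * M * q.2 := by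
      nlinarith [mul_nonneg (mul_nonneg M0 q0.le) (sub_nonneg.2 s2.2.1)]
    by_cases c3 : q.2 ≤ R
    · have c4 : R < ‖q.1‖ := by
        by_contra c
        exact hin ⟨mem_closedBall_zero_iff.2 (not_lt.1 c), hq, c3⟩
      have c5 : ‖q.1‖ - A ≤ ‖β x - q.1‖ := by
        have := norm_sub_norm_le q.1 (β x)
        rw [norm_sub_rev] at this
        linarith [hA x]
      have c6 : 2 * M + 1 / r ≤ ‖β x - q.1‖ := by linarith
      nlinarith [sq_nonneg (‖β x - q.1‖ - q.2), mul_le_mul_of_nonneg_left c6 q0.le]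
    · have c6 : 2 * M + 1 / r ≤ q.2 := by linarith [not_le.1 c3]
      nlinarith [sq_nonneg ‖β x - q.1‖, mul_le_mul_of_nonneg_left c6 q0.le]
  have := pow_le_pow_left₀ (abs_nonneg _) (a1.trans a2) 2
  rw [sq_abs] at this
  linarith

theorem pert3 {v g : Ω → ℝ} {w : ℝ → Ω → ℝ} {v₀ δ : ℝ} (C₁ C₂ C₃ : ℝ) (h0 : 0 < v₀) (hδ : 0 < δ)
    (c₃ : 0 ≤ C₃) (mv : Measurable v) (mg : Measurable g) (mw : ∀ s, Measurable (w s))
    (bv : ∀ x, |v x| ≤ C₁) (bg : ∀ x, |g x| ≤ C₂)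
    (hw : ∀ s, 0 < s → s ≤ δ → ∀ x, |w s x - v x - s * g x| ≤ C₃ * s ^ 2)
    (hm : ∀ s, 0 < s → s ≤ δ →
      ∫ x, Real.log (v x ^ 2 + v₀ ^ 2) ∂ν ≤ ∫ x, Real.log (w s x ^ 2 + v₀ ^ 2) ∂ν) :
    0 ≤ ∫ x, v x / (v x ^ 2 + v₀ ^ 2) * g x ∂ν := by
  refine pert ν (C := |C₁| + |C₂| + C₃) h0 hδ mv mg mw (fun x => ?_) (fun x => ?_)
    (fun s a b x => (hw s a b x).trans ?_) hm
  · linarith [bv x, le_abs_self C₁, abs_nonneg C₂]
  · linarith [bg x, le_abs_self C₂, abs_nonneg C₁]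
  · exact mul_le_mul_of_nonneg_right (by linarith [abs_nonneg C₁, abs_nonneg C₂]) (sq_nonneg _)

theorem kar {n : ℕ} (β : Ω → EuclideanSpace ℝ (Fin n)) (mβ : Measurable β) {A v₀ r : ℝ}
    (hA : ∀ x, ‖β x‖ ≤ A) (A0 : 0 ≤ A) (h0 : 0 < v₀) (r0 : 0 < r) :
    ∃ p : EuclideanSpace ℝ (Fin n) × ℝ, r ≤ p.2 ∧
      (∀ e, ∫ x, vv p (β x) / (vv p (β x) ^ 2 + v₀ ^ 2) * ⟪β x - p.1, e⟫ ∂ν = 0) ∧
      ∫ x, vv p (β x) / (vv p (β x) ^ 2 + v₀ ^ 2) * (vv p (β x) - √2 * p.2) ∂ν ≤ 0 ∧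
      (r < p.2 →
        ∫ x, vv p (β x) / (vv p (β x) ^ 2 + v₀ ^ 2) * (vv p (β x) - √2 * p.2) ∂ν = 0) := by
  obtain ⟨⟨c, ρ⟩, hp, hmin⟩ := exMin ν β mβ hA A0 h0 r0
  dsimp only at hp
  have p0 : 0 < ρ := r0.trans_le hp
  have q2 : 0 < √2 := by positivity
  have mv : ∀ p, Measurable fun x => vv p (β x) := fun p => by
    unfold vv
    fun_prop
  have bv := fun x => vB (p := (c, ρ)) (R := max ρ ‖c‖) r0 hp (le_max_left _ _)
    (le_max_right _ _) (hA x)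
  have bA : ∀ x, ‖β x - c‖ ≤ A + ‖c‖ := fun x => (norm_sub_le _ _).trans (by linarith [hA x])
  have d1 : ∀ e, ∫ x, vv (c, ρ) (β x) / (vv (c, ρ) (β x) ^ 2 + v₀ ^ 2) * ⟪β x - c, e⟫ ∂ν ≤ 0 := by
    intro e
    have := pert3 ν (v := fun x => vv (c, ρ) (β x)) (g := fun x => -(2 / (√2 * ρ)) * ⟪β x - c, e⟫)
      (w := fun s x => vv (c + s • e, ρ) (β x)) _ (2 / (√2 * ρ) * ((A + ‖c‖) * ‖e‖))
      (‖e‖ ^ 2 / (√2 * ρ)) h0 one_pos (by positivity) (mv _) (by fun_prop) (fun s => mv _) bv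
      (fun x => by
        rw [abs_mul, abs_neg, abs_of_pos (by positivity)]
        exact mul_le_mul_of_nonneg_left ((abs_real_inner_le_norm _ _).trans
          (mul_le_mul_of_nonneg_right (bA x) (norm_nonneg _))) (by positivity))
      (fun s s0 _ x => by
        have e1 : ‖β x - (c + s • e)‖ ^ 2 = ‖β x - c‖ ^ 2 - 2 * (s * ⟪β x - c, e⟫) +
            s ^ 2 * ‖e‖ ^ 2 := by
          rw [← sub_sub, norm_sub_sq_real, real_inner_smul_right, norm_smul, mul_pow,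
            Real.norm_eq_abs, sq_abs]
        have e2 : vv (c + s • e, ρ) (β x) - vv (c, ρ) (β x) -
            s * (-(2 / (√2 * ρ)) * ⟪β x - c, e⟫) = ‖e‖ ^ 2 / (√2 * ρ) * s ^ 2 := by
          simp only [vv, e1]
          field_simp
          ring
        rw [e2, abs_of_nonneg (by positivity)])
      (fun s _ _ => hmin _ hp)
    simp only [mul_left_comm _ (-(2 / (√2 * ρ))), integral_const_mul] at this
    by_contra h
    nlinarith [mul_pos (show 0 < 2 / (√2 * ρ) by positivity) (not_le.1 h)]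
  have d2 : ∀ σ δ : ℝ, σ ^ 2 = 1 → 0 < δ → (∀ s, 0 < s → s ≤ δ → r ≤ ρ + σ * s) →
      σ * ∫ x, vv (c, ρ) (β x) / (vv (c, ρ) (β x) ^ 2 + v₀ ^ 2) *
        (vv (c, ρ) (β x) - √2 * ρ) ∂ν ≤ 0 := by
    intro σ δ hσ hδ hr
    have := pert3 ν (v := fun x => vv (c, ρ) (β x))
      (g := fun x => -(σ / ρ) * (vv (c, ρ) (β x) - √2 * ρ))
      (w := fun s x => vv (c, ρ + σ * s) (β x)) _ (|σ / ρ| * (_ + √2 * ρ))
      (((A + ‖c‖) ^ 2 + 1 / 2) / (√2 * ρ ^ 2 * r)) h0 hδ (by positivity) (mv _)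
      (((mv _).sub measurable_const).const_mul _) (fun s => mv _) bv
      (fun x => by
        rw [abs_mul, abs_neg]
        refine mul_le_mul_of_nonneg_left ((abs_sub _ _).trans ?_) (abs_nonneg _)
        rw [abs_of_pos (mul_pos q2 p0)]
        exact add_le_add (bv x) le_rfl)
      (fun s s0 s1 x => by
        have r1 := hr s s0 s1
        have r2 : 0 < ρ + σ * s := r0.trans_le r1
        have e2 : vv (c, ρ + σ * s) (β x) - vv (c, ρ) (β x) -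
            s * (-(σ / ρ) * (vv (c, ρ) (β x) - √2 * ρ)) =
            (‖β x - c‖ ^ 2 - 1 / 2) / (√2 * ρ ^ 2 * (ρ + σ * s)) * (σ ^ 2 * s ^ 2) := by
          have t : √2 * ρ = 2 * ρ ^ 2 / (√2 * ρ) := by
            rw [eq_div_iff (by positivity)]
            linear_combination ρ ^ 2 * s2.2.2
          simp only [vv]
          nth_rewrite 3 [t]
          field_simp
          ring
        rw [e2, hσ, one_mul, abs_mul, abs_of_nonneg (sq_nonneg s), abs_div,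
          abs_of_pos (by positivity : 0 < √2 * ρ ^ 2 * (ρ + σ * s))]
        refine mul_le_mul_of_nonneg_right (div_le_div₀ (by positivity) (abs_le.2 ⟨?_, ?_⟩)
          (by positivity) (by gcongr)) (sq_nonneg s)
        · nlinarith [sq_nonneg ‖β x - c‖, sq_nonneg (A + ‖c‖)]
        · linarith [pow_le_pow_left₀ (norm_nonneg _) (bA x) 2])
      (fun s s0 s1 => hmin _ (hr s s0 s1))
    simp only [mul_left_comm _ (-(σ / ρ)), integral_const_mul] at this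
    rw [neg_mul, le_neg, neg_zero, div_mul_eq_mul_div, div_le_iff₀ p0, zero_mul] at this
    exact this
  have u1 := d2 1 1 (by norm_num) one_pos fun s s0 _ => by linarith
  rw [one_mul] at u1
  refine ⟨(c, ρ), hp, fun e => le_antisymm (d1 e) ?_, u1, fun h => le_antisymm u1 ?_⟩
  · have := d1 (-e)
    simp only [inner_neg_right, mul_neg, integral_neg] at this
    linarith
  · have := d2 (-1) (ρ - r) (by norm_num) (sub_pos.2 h) fun s _ s1 => by linarith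
    linarith

end Pool.Agent.MP_66cee2_co.B2K.H3
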