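import Pool.Agent.MP_66cee2_co.B2K.Spec
import Pool.Agent.MP_66cee2_co.B2K.H3Kar

/-
The balanced frame.
-/

namespace Pool.Agent.MP_66cee2_co.B2K.H3

open MeasureTheory Set Filter Metric Topology Pool.Agent.MP_66cee2_co.X
open scoped RealInnerProductSpace

theorem vv_eq {n : ℕ} (p : E n × ℝ) (h : 0 < p.2) (y : E n) :
    B2K.vv p.1 (√2 * p.2) y = vv p y := by
  have t : √2 * p.2 / 2 = p.2 ^ 2 / (√2 * p.2) := by
    rw [div_eq_div_iff (by norm_num) (by positivity)]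
    linear_combination p.2 ^ 2 * s2.2.2
  rw [B2K.vv, vv, t, ← add_div]

theorem sKar : SKar := by
  intro Ω _ n ν _ β A v₀ mβ hA h0
  have ms : MeasurableSet {x | ‖β x‖ ≤ |A|} := measurableSet_le mβ.norm measurable_const
  obtain ⟨γ, hγ⟩ : ∃ γ : Ω → E n, γ = {x | ‖β x‖ ≤ |A|}.indicator β := ⟨_, rfl⟩
  have ae : ∀ᵐ x ∂ν, β x = γ x := by
    filter_upwards [hA] with x hx
    rw [hγ, indicator_of_mem (show x ∈ {x | ‖β x‖ ≤ |A|} from hx.trans (le_abs_self A))]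
  have bγ : ∀ x, ‖γ x‖ ≤ |A| := fun x => by
    rw [hγ]
    by_cases hx : x ∈ {x | ‖β x‖ ≤ |A|}
    · rw [indicator_of_mem hx]
      exact hx
    · rw [indicator_of_notMem hx, norm_zero]
      exact abs_nonneg A
  have q2 : 0 < √2 := by positivity
  obtain ⟨p, hp, k1, k2, k3⟩ := kar ν γ (hγ ▸ mβ.indicator ms) bγ (abs_nonneg A) h0
    (show 0 < v₀ / 2 / √2 by positivity)
  have p0 : 0 < p.2 := lt_of_lt_of_le (by positivity) hp
  have e2 : ∫ x, WW v₀ (B2K.vv p.1 (√2 * p.2) (β x)) *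
      (B2K.vv p.1 (√2 * p.2) (β x) - √2 * p.2) ∂ν =
      ∫ x, vv p (γ x) / (vv p (γ x) ^ 2 + v₀ ^ 2) * (vv p (γ x) - √2 * p.2) ∂ν := by
    refine integral_congr_ae ?_
    filter_upwards [ae] with x hx
    rw [hx, vv_eq p p0, WW]
  refine ⟨p.1, √2 * p.2, ?_, fun i => ?_, e2 ▸ k2, fun h => e2 ▸ k3 ?_⟩
  · rwa [div_le_iff₀ q2, mul_comm] at hp
  · rw [← k1 (EuclideanSpace.single i 1)]
    refine integral_congr_ae ?_
    filter_upwards [ae] with x hx
    rw [hx, vv_eq p p0, WW, EuclideanSpace.inner_single_right]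
    simp
  · rwa [div_lt_iff₀ q2, mul_comm]

end Pool.Agent.MP_66cee2_co.B2K.H3

namespace Pool.Agent.MP_66cee2_co.B2K

theorem sKar : SKar := H3.sKar

end Pool.Agent.MP_66cee2_co.B2K
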