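import Pool.Agent.MP_66cee2_co.B2K.Spec

/-
Logarithmically convex sequences.
-/

namespace Pool.Agent.MP_66cee2_co.B2K

theorem sLogC : SLogC := by
  intro φ e he he4 h0 hc h6 h7
  have p7 : 0 < φ 7 := by linarith
  have p6 : 0 < φ 6 := by
    rcases (h0 6 (by norm_num)).eq_or_lt with h | h
    · have h1 : φ 7 ^ 2 ≤ φ 6 * φ 8 := hc 6 (by norm_num)
      rw [← h, zero_mul] at h1
      exact absurd h1 (not_le.2 (pow_pos p7 2))
    · exact h
  have hr : 0 < 1 - 2 * e := by linarith
  have key : ∀ i : ℕ, 0 < φ (6 + i) ∧ (1 - 2 * e) * φ (6 + i) ≤ φ (6 + i + 1) := by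
    intro i
    induction i with
    | zero =>
      refine ⟨p6, ?_⟩
      have h1 : (1 - 2 * e) * φ 6 ≤ (1 - 2 * e) * (1 + e) := mul_le_mul_of_nonneg_left h6 hr.le
      have h2 : (1 - 2 * e) * (1 + e) ≤ 1 - e := by nlinarith [sq_nonneg e]
      exact h1.trans (h2.trans h7)
    | succ i ih =>
      obtain ⟨p, q⟩ := ih
      have p1 : 0 < φ (6 + i + 1) := lt_of_lt_of_le (mul_pos hr p) q
      refine ⟨p1, ?_⟩
      have h1 := hc (6 + i) (by omega)
      have h3 := mul_le_mul_of_nonneg_right q p1.le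
      have h2 : φ (6 + i) * ((1 - 2 * e) * φ (6 + i + 1)) ≤ φ (6 + i) * φ (6 + i + 2) := by
        nlinarith
      exact le_of_mul_le_mul_left h2 p
  intro j
  induction j with
  | zero => simpa using h7
  | succ j ih =>
    have h1 := (key (j + 1)).2
    have e1 : 6 + (j + 1) = 7 + j := by omega
    rw [e1] at h1
    have h2 := mul_le_mul_of_nonneg_left ih hr.le
    have h3 : (0 : ℝ) ≤ (2 * j + 1) * (e * e) := by positivity
    have e2 : 7 + (j + 1) = 7 + j + 1 := by omega
    rw [e2]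
    push_cast
    nlinarith

end Pool.Agent.MP_66cee2_co.B2K
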