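import Pool.Agent.MP_66cee2_co.B2K.Spec
import Pool.Agent.MP_66cee2_co.B.Gauss

/-
Row One: a single function with values in the unit interval.
-/

namespace Pool.Agent.MP_66cee2_co.B2K

open MeasureTheory Set Filter Metric Topology Pool.Agent.MP_66cee2_co.X
  Pool.Agent.MP_66cee2_co.B

theorem sOne (hB : SBasic) : SOne := by
  intro d Y q s b lam hY hq hqs s0 s1 hb l0 l1
  obtain ⟨-, k0, ks, km, ki, -⟩ := hB d b lam hb l0 l1
  obtain ⟨-, -, -, g1, -⟩ := sGauss d b hb
  obtain ⟨p, hp⟩ : ∃ p : E d → ℝ, p = Y.indicator q := ⟨_, rfl⟩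
  have pm : Measurable p := hp ▸ hq.indicator hY
  have pY : ∀ x ∈ Y, p x = q x := fun x hx => by rw [hp, indicator_of_mem hx]
  have pN : ∀ x, x ∉ Y → p x = 0 := fun x hx => by rw [hp, indicator_of_notMem hx]
  have ps : ∀ x, 0 ≤ p x ∧ p x ≤ s := fun x => by
    by_cases hx : x ∈ Y
    · rw [pY x hx]
      exact hqs x hx
    · rw [pN x hx]
      exact ⟨le_rfl, s0⟩
  have pa : ∀ x, ‖p x‖ ≤ 1 := fun x => by
    rw [Real.norm_of_nonneg (ps x).1]
    exact (ps x).2.trans s1
  have i1 : Integrable (fun z : E d × E d => K d b lam z.1 z.2 * p z.1) (volume.prod volume) :=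
    ki.mul_bdd (c := 1) (pm.comp measurable_fst).aestronglyMeasurable
      (Eventually.of_forall fun z => pa _)
  have i2 : Integrable (fun z : E d × E d => K d b lam z.1 z.2 * p z.2) (volume.prod volume) :=
    ki.mul_bdd (c := 1) (pm.comp measurable_snd).aestronglyMeasurable
      (Eventually.of_forall fun z => pa _)
  have i3 : Integrable (fun z : E d × E d => K d b lam z.1 z.2 * (p z.1 * p z.2))
      (volume.prod volume) :=
    ki.mul_bdd (c := 1)
      ((pm.comp measurable_fst).mul (pm.comp measurable_snd)).aestronglyMeasurable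
      (Eventually.of_forall fun z => by
        rw [norm_mul]
        exact mul_le_one₀ (pa _) (norm_nonneg _) (pa _))
  have e0 : ∫ z : E d × E d, K d b lam z.1 z.2 ∂(volume.prod volume) = 1 := by
    rw [integral_prod _ ki, ← g1]
    exact integral_congr_ae (Eventually.of_forall fun x => (km x).2)
  have eG : ∫ x, G d b x * p x = ∫ x in Y, G d b x * q x := by
    rw [← setIntegral_eq_integral_of_forall_compl_eq_zero (s := Y)
      (fun x hx => by rw [pN x hx, mul_zero])]
    exact setIntegral_congr_fun hY fun x hx => by simp only [pY x hx]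
  have e1 : ∫ z : E d × E d, K d b lam z.1 z.2 * p z.1 ∂(volume.prod volume) =
      ∫ x in Y, G d b x * q x := by
    rw [integral_prod _ i1, ← eG]
    refine integral_congr_ae (Eventually.of_forall fun x => ?_)
    simp only
    rw [integral_mul_const, (km x).2]
  have e2 : ∫ z : E d × E d, K d b lam z.1 z.2 * p z.2 ∂(volume.prod volume) =
      ∫ x in Y, G d b x * q x := by
    rw [integral_prod_symm _ i2, ← eG]
    refine integral_congr_ae (Eventually.of_forall fun y => ?_)
    simp only
    rw [integral_mul_const, ← (km y).2]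
    exact congrArg (· * p y) (integral_congr_ae (Eventually.of_forall fun x => ks x y))
  have e3 : ph Y b lam (fun _ : Unit => q) =
      ∫ z : E d × E d, K d b lam z.1 z.2 * (p z.1 * p z.2) ∂(volume.prod volume) := by
    rw [integral_prod _ i3, ← setIntegral_eq_integral_of_forall_compl_eq_zero (s := Y)
      (fun x hx => by simp only [pN x hx, zero_mul, mul_zero, integral_zero])]
    refine setIntegral_congr_fun hY fun x hx => ?_
    simp only
    rw [← setIntegral_eq_integral_of_forall_compl_eq_zero (s := Y) (μ := volume)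
      (f := fun y => K d b lam x y * (p x * p y))
      (fun y hy => by simp only [pN y hy, mul_zero])]
    refine setIntegral_congr_fun hY fun y hy => ?_
    simp only [pY x hx, pY y hy, Finset.univ_unique, Finset.sum_const, Finset.card_singleton,
      one_smul]
  rw [e3]
  constructor
  · have h := integral_mono i3 (ki.mul_const (s ^ 2)) fun z =>
      mul_le_mul_of_nonneg_left (show p z.1 * p z.2 ≤ s ^ 2 by
        rw [sq]
        exact mul_le_mul (ps _).2 (ps _).2 (ps _).1 s0) (k0 _ _).le
    rwa [integral_mul_const, e0, one_mul] at h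
  · have h := integral_mono ((i1.add i2).sub ki) i3 fun z => by
      have a1 : 0 ≤ 1 - p z.1 := sub_nonneg.2 ((ps _).2.trans s1)
      have a2 : 0 ≤ 1 - p z.2 := sub_nonneg.2 ((ps _).2.trans s1)
      have a3 := mul_nonneg (k0 z.1 z.2).le (mul_nonneg a1 a2)
      simp only [Pi.sub_apply, Pi.add_apply]
      nlinarith
    rw [integral_sub' (i1.add i2) ki, integral_add' i1 i2, e0, e1, e2] at h
    linarith

end Pool.Agent.MP_66cee2_co.B2K
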