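import Pool.Agent.MP_66cee2_co.B2K.Rows
import Pool.Agent.MP_66cee2_co.B2K.H68Full

/-
Base two: the theorem.
-/

namespace Pool.Agent.MP_66cee2_co.B2K

theorem sBaseQ : SBaseQ := baseQ_of_full H68.sFull

end Pool.Agent.MP_66cee2_co.B2K
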