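import Pool.Agent.MP_66cee2_co.B2K.Spec
import Pool.Agent.MP_66cee2_co.H99.Ga

/-
Base two: two sided approximation of Gaussians.
-/

namespace Pool.Agent.MP_66cee2_co.B2K

open Filter

theorem sApx : SApxG := by
  filter_upwards [eventually_ge_atTop 200000] with l hl a h1 h2
  have l1 : (200000 : ℝ) ≤ l := by exact_mod_cast hl
  obtain ⟨r, hr, h⟩ := H99.gaApp l (by omega) a (by linarith) (by linarith)
  refine ⟨_, r, hr, fun k => (h k).trans ?_⟩
  have e : Real.exp (-(73 / 100 * (l : ℝ))) =
      Real.exp (l / 100) * Real.exp (-(37 / 50 * l)) := by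
    rw [← Real.exp_add]
    congr 1
    ring
  rw [e]
  refine mul_le_mul_of_nonneg_right ?_ (Real.exp_pos _).le
  have := Real.quadratic_le_exp_of_nonneg (show (0 : ℝ) ≤ l / 100 by linarith)
  nlinarith [mul_le_mul_of_nonneg_right l1 (show (0 : ℝ) ≤ l by linarith)]

end Pool.Agent.MP_66cee2_co.B2K
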