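import Pool.Agent.MP_66cee2_co.B2K.Spec
import Pool.Agent.MP_66cee2_co.H75.CS

/-! Rows CS, Basic, Semi and Zero of the base two project. -/

namespace Pool.Agent.MP_66cee2_co.B2K

open MeasureTheory Set Real Pool.Agent.MP_66cee2_co.X Pool.Agent.MP_66cee2_co.B
open scoped RealInnerProductSpace

namespace H75

/-- the standard deviation that belongs to `b`. -/
noncomputable def sd (b : ℝ) : ℝ := √(1 / (2 * b))

theorem sd_pos {b : ℝ} (hb : 0 < b) : 0 < sd b := Real.sqrt_pos.2 (by positivity)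

theorem sd_sq {b : ℝ} (hb : 0 < b) : sd b ^ 2 = 1 / (2 * b) := Real.sq_sqrt (by positivity)

theorem G_eq (d : ℕ) (a : ℝ) (x : E d) :
    G d a x = (a / π) ^ ((d : ℝ) / 2) * rexp (-a * ‖x‖ ^ 2) := rfl

theorem cst (d : ℕ) {b : ℝ} (hb : 0 < b) :
    (2 * π * sd b ^ 2) ^ (-((d : ℝ) / 2)) = (b / π) ^ ((d : ℝ) / 2) := by
  have hp := Real.pi_pos
  have : 2 * π * sd b ^ 2 = (b / π)⁻¹ := by
    rw [sd_sq hb]
    field_simp
  rw [this, Real.inv_rpow (div_pos hb hp).le, Real.rpow_neg (div_pos hb hp).le, inv_inv]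

theorem G_ga (d : ℕ) {b : ℝ} (hb : 0 < b) (x : E d) : G d b x = H75M.ga (sd b) x := by
  rw [G_eq d b]
  unfold H75M.ga
  rw [cst d hb, sd_sq hb]
  congr 2
  field_simp

theorem K_K (d : ℕ) {b lam : ℝ} (hb : 0 < b) (hl : lam ^ 2 < 1) (x y : E d) :
    K d b lam x y = H75M.K (sd b) lam x y := by
  have h1 : 0 < 1 - lam ^ 2 := by linarith
  have hp := Real.pi_pos
  unfold K Q H75M.K
  rw [G_eq d b, G_eq d (b / (1 - lam ^ 2))]
  have e1 : (2 * π * sd b ^ 2) ^ (-(d : ℝ))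
      = (b / π) ^ ((d : ℝ) / 2) * (b / π) ^ ((d : ℝ) / 2) := by
    rw [← cst d hb, ← Real.rpow_add (H75M.tp (sd_pos hb))]
    congr 1
    ring
  have e2 : (b / (1 - lam ^ 2) / π) ^ ((d : ℝ) / 2)
      = (b / π) ^ ((d : ℝ) / 2) * (1 - lam ^ 2) ^ (-((d : ℝ) / 2)) := by
    have : b / (1 - lam ^ 2) / π = b / π * (1 - lam ^ 2)⁻¹ := by field_simp
    rw [this, Real.mul_rpow (div_pos hb hp).le (inv_pos.2 h1).le, Real.inv_rpow h1.le,
      Real.rpow_neg h1.le]
  have e3 : rexp (-(‖x‖ ^ 2 + ‖y‖ ^ 2 - 2 * lam * ⟪x, y⟫) / (2 * sd b ^ 2 * (1 - lam ^ 2)))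
      = rexp (-b * ‖x‖ ^ 2) * rexp (-(b / (1 - lam ^ 2)) * ‖y - lam • x‖ ^ 2) := by
    rw [← Real.exp_add, sd_sq hb, norm_sub_sq_real, norm_smul, mul_pow, Real.norm_eq_abs, sq_abs,
      inner_smul_right, real_inner_comm x y]
    congr 1
    field_simp
    ring
  rw [e1, e2, e3]
  ring

theorem sq_lt {lam : ℝ} (h0 : 0 ≤ lam) (h1 : lam < 1) : lam ^ 2 < 1 := by nlinarith

theorem ind_bd {d : ℕ} {ι : Type} [Fintype ι] {Y : Set (E d)} {f : ι → E d → ℝ} {A : ℝ}
    (h : Bd Y f A) (i : ι) : H75M.Bd (Y.indicator (f i)) := by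
  refine ⟨(h.meas i).indicator h.ms, |A| + 1, fun x => ?_⟩
  by_cases hx : x ∈ Y
  · rw [indicator_of_mem hx]
    have h1 : f i x ^ 2 ≤ ∑ j, f j x ^ 2 :=
      Finset.single_le_sum (f := fun j => f j x ^ 2) (fun j _ => sq_nonneg _) (Finset.mem_univ i)
    have h2 := h.sq x hx
    have h3 := le_abs_self A
    have h4 := sq_abs (f i x)
    nlinarith [abs_nonneg (f i x), sq_nonneg (|f i x| - 1)]
  · rw [indicator_of_notMem hx, abs_zero]
    positivity

theorem ph_ph {d : ℕ} {ι : Type} [Fintype ι] {Y : Set (E d)} {f : ι → E d → ℝ} {A b lam : ℝ}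
    (h : Bd Y f A) (hb : 0 < b) (hl : lam ^ 2 < 1) :
    ph Y b lam f = ∑ i, H75M.ph (sd b) lam (Y.indicator (f i)) (Y.indicator (f i)) := by
  have hs := sd_pos hb
  have hi := fun i => H75M.ph_int hs hl (ind_bd h i) (ind_bd h i)
  unfold H75M.ph
  rw [← integral_finsetSum _ (fun i _ => hi i),
    integral_prod _ (integrable_finsetSum _ (fun i _ => hi i))]
  unfold ph
  rw [← integral_indicator h.ms]
  refine integral_congr_ae (Filter.Eventually.of_forall fun x => ?_)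
  by_cases hx : x ∈ Y
  · simp only [indicator_of_mem hx]
    rw [← integral_indicator h.ms]
    refine integral_congr_ae (Filter.Eventually.of_forall fun y => ?_)
    by_cases hy : y ∈ Y
    · simp only [indicator_of_mem hy]
      rw [K_K d hb hl, Finset.mul_sum]
    · simp [indicator_of_notMem hy]
  · simp [indicator_of_notMem hx]

theorem sBasic : SBasic := by
  intro d b lam hb h0 h1
  have hl := sq_lt h0 h1
  have hs := sd_pos hb
  have z : (0 : ℝ) ^ 2 < 1 := by norm_num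
  simp only [K_K d hb hl, K_K d hb z, G_ga d hb]
  exact ⟨H75M.K_cont _ _, H75M.K_pos hs hl, H75M.K_symm _ _,
    fun x => ⟨H75M.K_int hs hl x, H75M.K_marg hs hl x⟩, H75M.K_int2 hs hl, H75M.K_zero hs⟩

theorem sSemi : SSemi := by
  intro d b μ ν hb m0 m1 n0 n1 x y
  have hm := sq_lt m0 m1
  have hn := sq_lt n0 n1
  have hs := sd_pos hb
  have e : (fun z => G d b z * (Q d b μ z x * Q d b ν z y))
      = fun z => H75M.K (sd b) μ x z * H75M.K (sd b) ν z y / H75M.ga (sd b) z := by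
    funext z
    have hz := H75M.ga_pos hs z
    rw [H75M.K_symm _ μ x z, ← K_K d hb hm, ← K_K d hb hn]
    unfold K
    rw [G_ga d hb]
    field_simp
  rw [e, K_K d hb (H75M.mul_sq_lt hm hn)]
  exact ⟨H75M.KK_int hs hm hn x y, H75M.K_semi hs hm hn x y⟩

theorem sZero : SZero := by
  intro d ι _ Y f A b h hb
  have z : (0 : ℝ) ^ 2 < 1 := by norm_num
  rw [ph_ph h hb z]
  refine Finset.sum_congr rfl fun i _ => ?_
  unfold H75M.ph
  have e : (fun q : E d × E d => H75M.K (sd b) 0 q.1 q.2 *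
      (Y.indicator (f i) q.1 * Y.indicator (f i) q.2))
      = fun q => Y.indicator (fun x => G d b x * f i x) q.1 *
        Y.indicator (fun x => G d b x * f i x) q.2 := by
    funext q
    rw [H75M.K_zero (sd_pos hb), ← G_ga d hb, ← G_ga d hb, indicator_mul_right,
      indicator_mul_right]
    ring
  rw [e, integral_prod_mul (Y.indicator (fun x => G d b x * f i x))
    (Y.indicator (fun x => G d b x * f i x)), integral_indicator h.ms, sq]

end H75

theorem sCS : SCS := by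
  intro d ι _ Y f A b μ ν h hb m0 m1 n0 n1
  have hm := H75.sq_lt m0 m1
  have hn := H75.sq_lt n0 n1
  have hs := H75.sd_pos hb
  rw [H75.ph_ph h hb (H75M.mul_sq_lt hm hm), H75.ph_ph h hb (H75M.mul_sq_lt hm hn),
    H75.ph_ph h hb (H75M.mul_sq_lt hn hn), ← sq μ, ← sq ν]
  exact ⟨Finset.sum_nonneg fun i _ => H75M.ph_nonneg hs hm (H75.ind_bd h i),
    H75M.cs_sum hs hm hn (H75.ind_bd h) (H75.ind_bd h)⟩

end Pool.Agent.MP_66cee2_co.B2K
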