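import Pool.Agent.MP_66cee2_co.B2K.Spec
import Pool.Agent.MP_66cee2_co.B.Gauss

/-
Base two: the factorisation of the joint density.
-/

namespace Pool.Agent.MP_66cee2_co.B2K

open MeasureTheory Set Pool.Agent.MP_66cee2_co.X Pool.Agent.MP_66cee2_co.B
open scoped RealInnerProductSpace

theorem sFac : SFac := by
  intro d b lam hb h0 h1
  have hπ := Real.pi_pos
  have h2 : 0 < 1 - lam ^ 2 := by nlinarith
  have h3 : 0 < 1 + lam := by linarith
  obtain ⟨c, hc⟩ : ∃ c : ℝ, c = √((b / Real.pi) ^ ((d : ℝ) / 2) * (lam ^ ((d : ℝ) / 2))⁻¹) :=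
    ⟨_, rfl⟩
  have c0 : 0 ≤ c := by rw [hc]; exact Real.sqrt_nonneg _
  have l0 : 0 < lam ^ ((d : ℝ) / 2) := Real.rpow_pos_of_pos h0 _
  have c2 : c * c = (b / Real.pi) ^ ((d : ℝ) / 2) * (lam ^ ((d : ℝ) / 2))⁻¹ := by
    rw [hc]
    exact Real.mul_self_sqrt (by positivity)
  obtain ⟨-, g1, g2, g3, -⟩ := sGauss d b hb
  have hw : Continuous fun x : E d => c * Real.exp (-(b / (1 + lam)) * ‖x‖ ^ 2) := by fun_prop
  have le : ∀ x : E d, (c * Real.exp (-(b / (1 + lam)) * ‖x‖ ^ 2)) ^ 2 ≤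
      (lam ^ d)⁻¹ * G d b x := fun x => by
    have e1 : (c * Real.exp (-(b / (1 + lam)) * ‖x‖ ^ 2)) ^ 2 =
        (lam ^ ((d : ℝ) / 2))⁻¹ * ((b / Real.pi) ^ ((d : ℝ) / 2) *
          Real.exp (2 * (-(b / (1 + lam)) * ‖x‖ ^ 2))) := by
      rw [mul_pow, sq c, c2, two_mul, Real.exp_add]
      ring
    rw [e1, G]
    refine mul_le_mul ?_ (mul_le_mul_of_nonneg_left (Real.exp_le_exp.2 ?_) (by positivity))
      (by positivity) (by positivity)
    · refine inv_anti₀ (by positivity) ?_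
      rw [← Real.rpow_natCast]
      refine Real.rpow_le_rpow_of_exponent_ge h0 h1.le ?_
      have : (0 : ℝ) ≤ d := Nat.cast_nonneg d
      linarith
    · have h4 : b ≤ 2 * (b / (1 + lam)) := by
        rw [← mul_div_assoc, le_div_iff₀ h3]
        nlinarith
      nlinarith [sq_nonneg ‖x‖]
  have hi : Integrable fun x : E d => (c * Real.exp (-(b / (1 + lam)) * ‖x‖ ^ 2)) ^ 2 :=
    (g2.const_mul _).mono' (hw.pow 2).aestronglyMeasurable (ae_of_all _ fun x => by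
      rw [Real.norm_of_nonneg (sq_nonneg _)]
      exact le x)
  refine ⟨fun x => c * Real.exp (-(b / (1 + lam)) * ‖x‖ ^ 2), hw, ⟨c, fun x => ?_⟩, hi, ?_,
    fun x y => ?_⟩
  · rw [abs_of_nonneg (by positivity)]
    refine mul_le_of_le_one_right c0 (Real.exp_le_one_iff.2 ?_)
    have : 0 ≤ b / (1 + lam) * ‖x‖ ^ 2 := by positivity
    linarith
  · refine (integral_mono hi (g2.const_mul _) le).trans_eq ?_
    rw [integral_const_mul, g3, mul_one]
  · have e1 : (b * lam / (1 - lam ^ 2) / Real.pi) ^ ((d : ℝ) / 2) =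
        (b / (1 - lam ^ 2) / Real.pi) ^ ((d : ℝ) / 2) * lam ^ ((d : ℝ) / 2) := by
      rw [← Real.mul_rpow (by positivity) h0.le]
      congr 1
      ring
    have e2 : -b * ‖x‖ ^ 2 + -(b / (1 - lam ^ 2)) * ‖y - lam • x‖ ^ 2 =
        -(b * lam / (1 - lam ^ 2)) * ‖y - x‖ ^ 2 +
          (-(b / (1 + lam)) * ‖x‖ ^ 2 + -(b / (1 + lam)) * ‖y‖ ^ 2) := by
      rw [norm_sub_sq_real, norm_sub_sq_real, norm_smul, real_inner_smul_right, mul_pow,
        Real.norm_eq_abs, sq_abs]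
      have h5 : 1 - lam ^ 2 = (1 - lam) * (1 + lam) := by ring
      have h6 : 1 - lam ≠ 0 := by linarith
      rw [h5]
      field_simp
      ring
    simp only [K, Q, G]
    calc _ = (b / Real.pi) ^ ((d : ℝ) / 2) * (b / (1 - lam ^ 2) / Real.pi) ^ ((d : ℝ) / 2) *
          Real.exp (-b * ‖x‖ ^ 2 + -(b / (1 - lam ^ 2)) * ‖y - lam • x‖ ^ 2) := by
          rw [Real.exp_add]
          ring
      _ = (b / (1 - lam ^ 2) / Real.pi) ^ ((d : ℝ) / 2) * lam ^ ((d : ℝ) / 2) * (c * c) *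
          Real.exp (-b * ‖x‖ ^ 2 + -(b / (1 - lam ^ 2)) * ‖y - lam • x‖ ^ 2) := by
          rw [c2]
          field_simp
      _ = _ := by
          rw [e2, e1, Real.exp_add, Real.exp_add]
          ring

end Pool.Agent.MP_66cee2_co.B2K
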