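import Pool.Agent.MP_66cee2_co.B2K.Spec
import Pool.Agent.MP_66cee2_co.B.Gauss

/-
Row Full: no flat class of nearly full measure.
-/

namespace Pool.Agent.MP_66cee2_co.B2K

open MeasureTheory Set Filter Metric Topology Polynomial Pool.Agent.MP_66cee2_co.X
  Pool.Agent.MP_66cee2_co.XI Pool.Agent.MP_66cee2_co.B
open scoped ENNReal RealInnerProductSpace

namespace Fullx

/-- the space coordinates in a frame. -/
noncomputable def uu {n : ℕ} (c : E n) (r : ℝ) (y : E n) : Option (Fin n) → ℝ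
  | none => vv c r y - r
  | some i => √2 * (y - c) i

theorem uu_mul {n : ℕ} (c : E n) {r : ℝ} (hr : r ≠ 0) (y z : E n) :
    ∑ i, uu c r y i * uu c r z i - vv c r y * vv c r z = 1 - ‖y - z‖ ^ 2 := by
  have h2 : √2 * √2 = (2 : ℝ) := Real.mul_self_sqrt (by norm_num)
  have e1 : ∑ i : Fin n, √2 * (y - c) i * (√2 * (z - c) i) = 2 * ⟪y - c, z - c⟫ := by
    rw [PiLp.inner_apply, Finset.mul_sum]
    refine Finset.sum_congr rfl fun i _ => ?_
    simp only [RCLike.inner_apply, conj_trivial]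
    linear_combination ((y - c) i * (z - c) i) * h2
  have e2 : ‖y - z‖ ^ 2 = ‖y - c‖ ^ 2 - 2 * ⟪y - c, z - c⟫ + ‖z - c‖ ^ 2 := by
    rw [← norm_sub_sq_real, sub_sub_sub_cancel_right]
  rw [Fintype.sum_option]
  simp only [uu]
  rw [e1, e2]
  unfold vv
  field_simp
  ring

theorem uu_sq {n : ℕ} (c : E n) {r : ℝ} (hr : r ≠ 0) (y : E n) :
    ∑ i, uu c r y i ^ 2 = 1 + vv c r y ^ 2 := by
  have := uu_mul c hr y y
  simp only [sub_self, norm_zero, ← sq] at this
  linarith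

theorem vv_meas {n : ℕ} (c : E n) (r : ℝ) : Measurable (vv c r) := by
  unfold vv
  fun_prop

theorem uu_meas {n : ℕ} (c : E n) (r : ℝ) (i : Option (Fin n)) :
    Measurable fun y => uu c r y i := by
  rcases i with _ | i
  · exact (vv_meas c r).sub_const r
  · simp only [uu]
    fun_prop

theorem ww_meas (v₀ : ℝ) : Measurable (WW v₀) := by
  unfold WW
  fun_prop

theorem ww_le {v₀ : ℝ} (h : 0 < v₀) (v : ℝ) : |WW v₀ v| ≤ 1 / (2 * v₀) := by
  unfold WW
  rw [abs_div, abs_of_pos (by positivity : 0 < v ^ 2 + v₀ ^ 2),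
    div_le_div_iff₀ (by positivity) (by positivity)]
  nlinarith [sq_nonneg (|v| - v₀), sq_abs v]

theorem qq {v₀ : ℝ} (h : 0 < v₀) (v : ℝ) :
    0 ≤ WW v₀ v * v ∧ WW v₀ v * v ≤ 1 ∧ WW v₀ v * v = 1 - v₀ ^ 2 / (v ^ 2 + v₀ ^ 2) := by
  have e : WW v₀ v * v = v ^ 2 / (v ^ 2 + v₀ ^ 2) := by
    unfold WW
    ring
  rw [e]
  refine ⟨by positivity, (div_le_one (by positivity)).2 (by nlinarith), ?_⟩
  field_simp
  ring

theorem van1 {d n p : ℕ} {Y : Set (E d)} {β : E d → E n} (h : Van Y β (2 * p)) :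
    ∃ B : ℝ, 0 ≤ B ∧ ∀ x ∈ Y, ∀ y ∈ Y, |1 - ‖β x - β y‖ ^ 2| ≤ B * |‖x - y‖ ^ 2 - 1| ^ p := by
  obtain ⟨B, hB⟩ := h
  refine ⟨|B| + 1, by positivity, fun x hx y hy => ?_⟩
  refine abs_le_of_sq_le_sq' ?_ (by positivity) |> abs_le.2
  refine (hB x hx y hy).trans ?_
  rw [mul_pow, ← pow_mul, mul_comm p 2]
  refine mul_le_mul_of_nonneg_right ?_ (by positivity)
  nlinarith [le_abs_self B, abs_nonneg B]

theorem bdd {d n p : ℕ} {Y : Set (E d)} {β : E d → E n} (hY : Bornology.IsBounded Y)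
    (h : Van Y β (2 * p)) : ∃ A : ℝ, ∀ x ∈ Y, ‖β x‖ ≤ A := by
  obtain ⟨B, B0, hB⟩ := van1 h
  obtain ⟨R, hR⟩ := hY.exists_norm_le
  rcases Y.eq_empty_or_nonempty with rfl | ⟨z, hz⟩
  · exact ⟨0, fun x hx => hx.elim⟩
  refine ⟨‖β z‖ + (2 + B * ((2 * R) ^ 2 + 1) ^ p), fun x hx => ?_⟩
  have h1 : ‖x - z‖ ≤ 2 * R := (norm_sub_le x z).trans (by linarith [hR x hx, hR z hz])
  have h2 : |‖x - z‖ ^ 2 - 1| ≤ (2 * R) ^ 2 + 1 := by
    have := pow_le_pow_left₀ (norm_nonneg _) h1 2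
    rw [abs_le]
    constructor <;> nlinarith [sq_nonneg ‖x - z‖]
  have h3 := (hB x hx z hz).trans
    (mul_le_mul_of_nonneg_left (pow_le_pow_left₀ (abs_nonneg _) h2 p) B0)
  have h4 := (abs_le.1 h3).1
  have h5 := norm_add_le (β z) (β x - β z)
  rw [add_sub_cancel] at h5
  nlinarith [sq_nonneg (‖β x - β z‖ - 1)]

theorem intG {d : ℕ} {b : ℝ} (hb : 0 < b) {Y : Set (E d)} (hY : MeasurableSet Y) {f : E d → ℝ}
    (hf : Measurable f) {C : ℝ} (h : ∀ x ∈ Y, |f x| ≤ C) :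
    IntegrableOn (fun x => G d b x * f x) Y := by
  obtain ⟨g1, g2, g3, -, -⟩ := sGauss d b hb
  refine Integrable.mono' (g3.mul_const C).integrableOn
    (g1.measurable.mul hf).aestronglyMeasurable ((ae_restrict_mem hY).mono fun x hx => ?_)
  rw [Real.norm_eq_abs, abs_mul, abs_of_pos (g2 x)]
  exact mul_le_mul_of_nonneg_left (h x hx) (g2 x).le

end Fullx

open Fullx in
theorem sFull : SKar → SFin → SGap → SFull := by
  intro h1 h2 h3
  filter_upwards [h2, h3, eventually_ge_atTop 2] with l h2 h3 hl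
  intro n Y β hn hP hV
  by_contra hc
  rw [not_lt] at hc
  have hl' : (2 : ℝ) ≤ l := by exact_mod_cast hl
  obtain ⟨D, hD⟩ : ∃ D : ℝ, D = 2 * l + 3 := ⟨_, rfl⟩
  rw [← hD] at hn hc
  simp only [← hD] at h2 h3
  have D7 : 7 ≤ D := by linarith
  have D0 : 0 < D := by linarith
  have b0 : 0 < bb l := by
    unfold bb
    positivity
  obtain ⟨g1, g2, g3, g4, -⟩ := sGauss (2 * l + 3) (bb l) b0
  obtain ⟨A, hA⟩ := bdd hP.bdd hV
  obtain ⟨B, B0, hB⟩ := van1 hV
  obtain ⟨v₀, v0, v2⟩ : ∃ v₀ : ℝ, 0 < v₀ ∧ v₀ ^ 2 = 1 / (2 ^ l * D ^ 6) :=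
    ⟨√(1 / (2 ^ l * D ^ 6)), by positivity, Real.sq_sqrt (by positivity)⟩
  let ν : Measure (E (2 * l + 3)) :=
    (volume.restrict Y).withDensity fun x => ENNReal.ofReal (G _ (bb l) x)
  have : IsFiniteMeasure ν := isFiniteMeasure_withDensity_ofReal g3.integrableOn.2
  have iν : ∀ f : E (2 * l + 3) → ℝ, ∫ x, f x ∂ν = ∫ x in Y, G _ (bb l) x * f x := fun f => by
    rw [integral_withDensity_eq_integral_toReal_smul g1.measurable.ennreal_ofReal
      (ae_of_all _ fun _ => ENNReal.ofReal_lt_top)]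
    refine integral_congr_ae (ae_of_all _ fun x => ?_)
    simp only [ENNReal.toReal_ofReal (g2 x).le, smul_eq_mul]
  obtain ⟨c, r, k1, k2, k3, k4⟩ := h1 _ n ν β A v₀ hP.meas
    ((withDensity_absolutelyContinuous _ _).ae_le ((ae_restrict_mem hP.ms).mono hA)) v0
  simp only [iν] at k2 k3 k4
  have r0 : r ≠ 0 := by
    intro h
    linarith
  have mv : Measurable fun x => vv c r (β x) := (vv_meas c r).comp hP.meas
  have mw : Measurable fun x => WW v₀ (vv c r (β x)) := (ww_meas v₀).comp mv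
  have mu : ∀ i, Measurable fun x => uu c r (β x) i := fun i => (uu_meas c r i).comp hP.meas
  have p1 : (1 : ℝ) ≤ 2 ^ l := one_le_pow₀ (by norm_num)
  obtain ⟨Z, hZ⟩ : ∃ Z : Set (E (2 * l + 3)), Z = {x | vv c r (β x) ^ 2 ≤ 1 / 2 ^ l} := ⟨_, rfl⟩
  have mZ : MeasurableSet Z := hZ ▸ measurableSet_le (mv.pow_const 2) measurable_const
  have zz : ∀ x ∈ Y ∩ Z, vv c r (β x) ^ 2 ≤ 1 / 2 ^ l := fun x hx => by
    have := hx.2
    rw [hZ] at this
    exact this
  have f1 := h2 (Option (Fin n)) (Y ∩ Z) (fun i x => uu c r (β x) i) (fun x => vv c r (β x))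
    ⟨hP.ms.inter mZ, hP.bdd.subset inter_subset_left, mu, fun x hx => by
      rw [uu_sq c r0]
      have := (zz x hx).trans ((div_le_one (by positivity)).2 p1)
      linarith⟩ mv (fun x _ => by
      rw [uu_sq c r0]
      nlinarith [sq_nonneg (vv c r (β x))]) zz
    ⟨B, fun x hx y hy => by
      rw [uu_mul c r0]
      exact hB x hx.1 y hy.1⟩
  have f2 : ∫ x in Y ∩ Z, G _ (bb l) x ≤ 1 / D ^ 6 := by
    refine (abs_le_of_sq_le_sq' (f1.trans ?_) (by positivity)).2
    rw [Fintype.card_option, Fintype.card_fin, ← mul_div_assoc, div_pow,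
      div_le_div_iff₀ (by positivity) (by positivity)]
    push_cast
    nlinarith
  have t1 : ∫ x in Y, G _ (bb l) x ≤ 1 :=
    g4 ▸ setIntegral_le_integral g3 (ae_of_all _ fun x => (g2 x).le)
  have mq : Measurable fun x => WW v₀ (vv c r (β x)) * vv c r (β x) := mw.mul mv
  have mr : Measurable fun x => WW v₀ (vv c r (β x)) * (vv c r (β x) - r) :=
    mw.mul (mv.sub_const r)
  have iq := intG b0 hP.ms mq (C := 1) fun x _ =>
    abs_le.2 ⟨by linarith [(qq v0 (vv c r (β x))).1], (qq v0 _).2.1⟩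
  have e6 : 0 < 1 / D ^ 6 := by positivity
  have f3 : 1 - 1 / D ^ 5 ≤ ∫ x in Y, G _ (bb l) x * (WW v₀ (vv c r (β x)) * vv c r (β x)) := by
    have a1 : ∫ x in Y, ((1 - 1 / D ^ 6) * G _ (bb l) x - Z.indicator (G _ (bb l)) x) ≤
        ∫ x in Y, G _ (bb l) x * (WW v₀ (vv c r (β x)) * vv c r (β x)) := by
      refine setIntegral_mono_on ((g3.const_mul _).sub (g3.indicator mZ)).integrableOn iq hP.ms
        fun x _ => ?_
      by_cases hx : x ∈ Z
      · rw [indicator_of_mem hx]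
        nlinarith [mul_nonneg (g2 x).le (qq v0 (vv c r (β x))).1, mul_pos (g2 x) e6]
      · rw [indicator_of_notMem hx, sub_zero, mul_comm, (qq v0 _).2.2]
        refine mul_le_mul_of_nonneg_left (sub_le_sub_left ?_ 1) (g2 x).le
        rw [hZ, mem_ofPred_eq, not_le] at hx
        have : v₀ ^ 2 * D ^ 6 = 1 / 2 ^ l := by
          rw [v2]
          field_simp
        rw [div_le_div_iff₀ (by positivity) (by positivity)]
        nlinarith [sq_nonneg v₀]
    rw [integral_sub (g3.const_mul _).integrableOn (g3.indicator mZ).integrableOn,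
      integral_const_mul, setIntegral_indicator mZ] at a1
    have a2 : 1 / D ^ 5 = D * (1 / D ^ 6) := by field_simp
    have a3 : 4 / D ^ 6 = 4 * (1 / D ^ 6) := by ring
    rw [a3] at hc
    nlinarith [mul_le_mul_of_nonneg_left t1 e6.le, mul_le_mul_of_nonneg_right D7 e6.le]
  have k5 : v₀ / 2 < r := by
    refine lt_of_le_of_ne k1 fun e => ?_
    have a1 : ∫ x in Y, (G _ (bb l) x * (WW v₀ (vv c r (β x)) * vv c r (β x)) -
        1 / 4 * G _ (bb l) x) ≤
        ∫ x in Y, G _ (bb l) x * (WW v₀ (vv c r (β x)) * (vv c r (β x) - r)) := by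
      have w1 : ∀ v, |WW v₀ v * r| ≤ 1 / 4 := fun v => by
        rw [abs_mul, ← e, abs_of_pos (half_pos v0)]
        refine (mul_le_mul_of_nonneg_right (ww_le v0 v) (half_pos v0).le).trans (le_of_eq ?_)
        field_simp
        norm_num
      refine setIntegral_mono_on (iq.sub (g3.const_mul _).integrableOn)
        (intG b0 hP.ms mr (C := 2) fun x _ => ?_) hP.ms fun x _ => ?_
      · have := abs_le.1 (w1 (vv c r (β x)))
        have := qq v0 (vv c r (β x))
        rw [mul_sub, abs_le]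
        constructor <;> linarith
      · have := mul_le_mul_of_nonneg_left (abs_le.1 (w1 (vv c r (β x)))).2 (g2 x).le
        nlinarith
    rw [integral_sub iq (g3.const_mul _).integrableOn, integral_const_mul] at a1
    have a2 : 1 / D ^ 5 ≤ 1 / 2 :=
      one_div_le_one_div_of_le two_pos
        (le_trans (by linarith) (le_self_pow₀ (by linarith) (by simp)))
    linarith
  have w2 : ∀ v, WW v₀ v ^ 2 ≤ 2 ^ l * D ^ 6 := fun v => by
    have a1 := pow_le_pow_left₀ (abs_nonneg _) (ww_le v0 v) 2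
    rw [sq_abs, div_pow, mul_pow, v2] at a1
    refine a1.trans ?_
    rw [div_le_iff₀ (by positivity)]
    field_simp
    norm_num
  refine h3 (Option (Fin n)) Y (fun i x => WW v₀ (vv c r (β x)) * uu c r (β x) i)
    (fun x => WW v₀ (vv c r (β x)) * vv c r (β x))
    ⟨hP.ms, hP.bdd, fun i => mw.mul (mu i), fun x _ => ?_⟩ mq
    (fun x _ => ⟨(qq v0 _).1, (qq v0 _).2.1⟩)
    ⟨1 / (2 * v₀) * (1 / (2 * v₀)) * B, fun x hx y hy => ?_⟩ f3 fun i => ?_
  · simp only [mul_pow]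
    rw [← Finset.mul_sum, uu_sq c r0]
    have a1 := w2 (vv c r (β x))
    obtain ⟨a2, a3, -⟩ := qq v0 (vv c r (β x))
    have a4 : (WW v₀ (vv c r (β x)) * vv c r (β x)) ^ 2 ≤ 1 := by nlinarith
    have a5 : (1 : ℝ) ≤ 2 ^ l * D ^ 6 :=
      one_le_mul_of_one_le_of_one_le p1 (one_le_pow₀ (by linarith))
    have a6 : D ^ 7 * 2 ^ l = D * (2 ^ l * D ^ 6) := by ring
    rw [a6]
    nlinarith
  · have e : ∑ i, WW v₀ (vv c r (β x)) * uu c r (β x) i *
        (WW v₀ (vv c r (β y)) * uu c r (β y) i) -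
        WW v₀ (vv c r (β x)) * vv c r (β x) * (WW v₀ (vv c r (β y)) * vv c r (β y)) =
        WW v₀ (vv c r (β x)) * WW v₀ (vv c r (β y)) * (1 - ‖β x - β y‖ ^ 2) := by
      rw [← uu_mul c r0, mul_sub, Finset.mul_sum]
      refine congrArg₂ _ (Finset.sum_congr rfl fun i _ => by ring) (by ring)
    rw [e, abs_mul, abs_mul, mul_assoc _ B]
    exact mul_le_mul (mul_le_mul (ww_le v0 _) (ww_le v0 _) (abs_nonneg _) (by positivity))
      (hB x hx y hy) (abs_nonneg _) (by positivity)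
  · rcases i with _ | i
    · exact k4 k5
    · have := k2 i
      simp only [uu]
      rw [← mul_zero √2, ← this, ← integral_const_mul]
      exact integral_congr_ae (ae_of_all _ fun x => by ring)

end Pool.Agent.MP_66cee2_co.B2K
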