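import Pool.Agent.MP_66cee2_co.H12.Meh

/-
A cover of almost all of a large ball has almost all of the Gaussian mass.
-/

namespace Pool.Agent.MP_66cee2_co.B2K.H11

open MeasureTheory Set Filter Metric Topology Pool.Agent.MP_66cee2_co.X
  Pool.Agent.MP_66cee2_co.B Pool.Agent.MP_66cee2_co.H12M

theorem ball_mass (d : ℕ) {σ η : ℝ} (hσ : 0 < σ) (hη : 0 < η) :
    ∃ R : ℝ, 0 < R ∧ 1 - η ≤ ∫ x in ball (0 : E d) R, G d σ x := by
  have hm : Monotone fun k : ℕ => ball (0 : E d) ((k : ℝ) + 1) := fun a b h =>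
    ball_subset_ball (by exact_mod_cast Nat.succ_le_succ h)
  have h := tendsto_setIntegral_of_monotone (μ := volume) (f := G d σ)
    (fun k : ℕ => measurableSet_ball) hm (G_integrable hσ).integrableOn
  rw [iUnion_ball_nat_succ, setIntegral_univ, G_int hσ] at h
  obtain ⟨k, hk⟩ := (h.eventually (lt_mem_nhds (show 1 - η < 1 by linarith))).exists
  exact ⟨(k : ℝ) + 1, by positivity, hk.le⟩

theorem G_le (d : ℕ) {σ : ℝ} (hσ : 0 < σ) (x : E d) :
    G d σ x ≤ (σ / Real.pi) ^ ((d : ℝ) / 2) := by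
  have p := Real.rpow_pos_of_pos (div_pos hσ Real.pi_pos) ((d : ℝ) / 2)
  have : Real.exp (-σ * ‖x‖ ^ 2) ≤ 1 := Real.exp_le_one_iff.2 (by nlinarith [sq_nonneg ‖x‖])
  unfold G
  nlinarith

theorem union_le (d : ℕ) {σ : ℝ} (hσ : 0 < σ) (Y : Fin 4 → Set (E d))
    (hY : ∀ c, MeasurableSet (Y c)) :
    ∫ x in ⋃ c, Y c, G d σ x ≤ ∑ c, ∫ x in Y c, G d σ x := by
  have gi := G_integrable (d := d) hσ
  simp_rw [← integral_indicator (hY _)]
  rw [← integral_indicator (MeasurableSet.iUnion hY),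
    ← integral_finset_sum _ fun c _ => gi.indicator (hY c)]
  refine integral_mono (gi.indicator (MeasurableSet.iUnion hY))
    (integrable_finset_sum _ fun c _ => gi.indicator (hY c)) fun x => ?_
  have nn : ∀ c, 0 ≤ (Y c).indicator (G d σ) x := fun c =>
    indicator_nonneg (fun y _ => (G_pos hσ y).le) x
  by_cases hx : x ∈ ⋃ c, Y c
  · obtain ⟨c, hc⟩ := mem_iUnion.1 hx
    have := Finset.single_le_sum (f := fun c => (Y c).indicator (G d σ) x) (fun c _ => nn c)
      (Finset.mem_univ c)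
    rw [indicator_of_mem hc] at this
    rw [indicator_of_mem hx]
    exact this
  · rw [indicator_of_notMem hx]
    exact Finset.sum_nonneg fun c _ => nn c

theorem mass_union (d : ℕ) {σ η : ℝ} (hσ : 0 < σ) (hη : 0 < η) :
    ∃ R δ : ℝ, 0 < R ∧ 0 < δ ∧ ∀ U : Set (E d), MeasurableSet U →
      volume.real (ball (0 : E d) R \ U) ≤ δ → 1 - η ≤ ∫ x in U, G d σ x := by
  obtain ⟨R, hR, h⟩ := ball_mass d hσ (half_pos hη)
  have p := Real.rpow_pos_of_pos (div_pos hσ Real.pi_pos) ((d : ℝ) / 2)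
  set C := (σ / Real.pi) ^ ((d : ℝ) / 2) with hC
  refine ⟨R, η / 2 / C, hR, by positivity, fun U hU hv => ?_⟩
  have gi := G_integrable (d := d) hσ
  have e := integral_inter_add_diff (μ := volume) (s := ball (0 : E d) R) hU gi.integrableOn
  have a1 : ∫ x in ball (0 : E d) R ∩ U, G d σ x ≤ ∫ x in U, G d σ x :=
    setIntegral_mono_set gi.integrableOn (Eventually.of_forall fun x => (G_pos hσ x).le)
      inter_subset_right.eventuallyLE
  have fin : volume (ball (0 : E d) R \ U) < ⊤ :=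
    (measure_mono diff_subset).trans_lt measure_ball_lt_top
  have a2 := norm_setIntegral_le_of_norm_le_const (μ := volume) (f := G d σ) (C := C) fin
    fun x _ => by rw [Real.norm_of_nonneg (G_pos hσ x).le]; exact G_le d hσ x
  have a3 : C * volume.real (ball (0 : E d) R \ U) ≤ η / 2 := by
    have := mul_le_mul_of_nonneg_left hv p.le
    rwa [mul_div_cancel₀ _ p.ne'] at this
  have a4 := le_abs_self (∫ x in ball (0 : E d) R \ U, G d σ x)
  rw [Real.norm_eq_abs] at a2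
  linarith

theorem mass (d : ℕ) {σ η : ℝ} (hσ : 0 < σ) (hη : 0 < η) :
    ∃ R δ : ℝ, 0 < R ∧ 0 < δ ∧ ∀ Y : Fin 4 → Set (E d), (∀ c, MeasurableSet (Y c)) →
      volume.real (ball (0 : E d) R \ ⋃ c, Y c) ≤ δ → 1 - η ≤ ∑ c, ∫ x in Y c, G d σ x := by
  obtain ⟨R, δ, hR, hδ, h⟩ := mass_union d hσ hη
  exact ⟨R, δ, hR, hδ, fun Y hY hv =>
    (h _ (MeasurableSet.iUnion hY) hv).trans (union_le d hσ Y hY)⟩

end Pool.Agent.MP_66cee2_co.B2K.H11
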