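import Pool.Agent.MP_66cee2_co.B2K.Spec
import Pool.Agent.MP_66cee2_co.B.Gauss

/-
Nearly independent pairs.
-/

namespace Pool.Agent.MP_66cee2_co.B2K.H16

open MeasureTheory Set Filter Metric Topology Pool.Agent.MP_66cee2_co.X
  Pool.Agent.MP_66cee2_co.B
open scoped RealInnerProductSpace

variable {d : ℕ}

/-- the common lower bound. -/
noncomputable def L (d : ℕ) (b lam : ℝ) (x : E d) : ℝ :=
  (b / Real.pi) ^ ((d : ℝ) / 2) * Real.exp (-(b / (1 - lam)) * ‖x‖ ^ 2)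

theorem L_eq {b lam : ℝ} (hb : 0 < b) (h1 : lam < 1) (x : E d) :
    L d b lam x = (1 - lam) ^ ((d : ℝ) / 2) * G d (b / (1 - lam)) x := by
  have h : 0 < 1 - lam := by linarith
  have hp := Real.pi_pos
  rw [L, G, ← mul_assoc, ← Real.mul_rpow h.le (by positivity)]
  have : (1 - lam) * (b / (1 - lam) / Real.pi) = b / Real.pi := by field_simp
  rw [this]

theorem L_le {b lam μ : ℝ} (hb : 0 < b) (h0 : 0 ≤ μ) (hm : μ ≤ lam) (h1 : lam < 1) (x y : E d) :
    L d b lam x * L d b lam y ≤ K d b μ x y := by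
  have h : 0 < 1 - lam := by linarith
  have h' : 0 < 1 - μ := by linarith
  have h2 : 0 < 1 - μ ^ 2 := by nlinarith
  have hp := Real.pi_pos
  have p1 : (b / Real.pi) ^ ((d : ℝ) / 2) ≤ (b / (1 - μ ^ 2) / Real.pi) ^ ((d : ℝ) / 2) := by
    refine Real.rpow_le_rpow (by positivity) ?_ (by positivity)
    refine div_le_div_of_nonneg_right ?_ hp.le
    rw [le_div_iff₀ h2]; nlinarith [sq_nonneg μ]
  have e1 : ‖y - μ • x‖ ^ 2 = ‖y‖ ^ 2 - 2 * μ * ⟪y, x⟫ + μ ^ 2 * ‖x‖ ^ 2 := by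
    rw [norm_sub_sq_real, inner_smul_right, norm_smul, mul_pow, Real.norm_eq_abs, sq_abs]; ring
  have e2 : 0 ≤ ‖y‖ ^ 2 + 2 * ⟪y, x⟫ + ‖x‖ ^ 2 := by
    rw [← norm_add_sq_real]; positivity
  have p2 : -(b / (1 - lam)) * ‖x‖ ^ 2 + -(b / (1 - lam)) * ‖y‖ ^ 2 ≤
      -b * ‖x‖ ^ 2 + -(b / (1 - μ ^ 2)) * ‖y - μ • x‖ ^ 2 := by
    have q1 : b / (1 - μ) ≤ b / (1 - lam) := div_le_div_of_nonneg_left hb.le h (by linarith)
    have q2 : b / (1 - μ) = b / (1 - μ ^ 2) * (1 + μ) := by field_simp; ring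
    have q3 : b = b / (1 - μ ^ 2) * (1 - μ ^ 2) := by field_simp
    have q4 : 0 < b / (1 - μ ^ 2) := by positivity
    rw [e1]
    generalize b / (1 - μ ^ 2) = c at *
    have q5 := mul_nonneg (mul_nonneg q4.le h0) e2
    have q6 := mul_le_mul_of_nonneg_right q1 (add_nonneg (sq_nonneg ‖x‖) (sq_nonneg ‖y‖))
    rw [q2] at q6
    generalize b / (1 - lam) = e at *
    rw [q3]
    nlinarith
  have p3 := Real.exp_le_exp.2 p2
  rw [Real.exp_add, Real.exp_add] at p3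
  have p0 : 0 ≤ (b / Real.pi) ^ ((d : ℝ) / 2) := by positivity
  unfold L K Q G
  calc _ = (b / Real.pi) ^ ((d : ℝ) / 2) * ((b / Real.pi) ^ ((d : ℝ) / 2) *
        (Real.exp (-(b / (1 - lam)) * ‖x‖ ^ 2) * Real.exp (-(b / (1 - lam)) * ‖y‖ ^ 2))) := by ring
    _ ≤ (b / Real.pi) ^ ((d : ℝ) / 2) * ((b / (1 - μ ^ 2) / Real.pi) ^ ((d : ℝ) / 2) *
        (Real.exp (-b * ‖x‖ ^ 2) * Real.exp (-(b / (1 - μ ^ 2)) * ‖y - μ • x‖ ^ 2))) :=
      mul_le_mul_of_nonneg_left (mul_le_mul p1 p3 (by positivity) (by positivity)) p0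
    _ = _ := by ring

theorem sDecay (hB : SBasic) : SDecay := by
  intro d ι _ Y f A b lam hf hA hb h0 h1
  have h : 0 < 1 - lam := by linarith
  obtain ⟨-, -, g3, g4, -⟩ := sGauss d (b / (1 - lam)) (by positivity)
  obtain ⟨-, -, -, g5, -⟩ := sGauss d b hb
  have l1 : Integrable (L d b lam) := by
    have := g3.const_mul ((1 - lam) ^ ((d : ℝ) / 2))
    exact this.congr (ae_of_all _ fun x => (L_eq hb h1 x).symm)
  have l2 : ∫ x, L d b lam x = (1 - lam) ^ ((d : ℝ) / 2) := by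
    simp_rw [L_eq hb h1]
    rw [integral_const_mul, g4, mul_one]
  have l3 : Integrable (fun z : E d × E d => L d b lam z.1 * L d b lam z.2) (volume.prod volume) :=
    l1.mul_prod l1
  have l4 : ∫ z : E d × E d, L d b lam z.1 * L d b lam z.2 ∂(volume.prod volume) =
      (1 - lam) ^ d := by
    rw [integral_prod_mul, l2, ← Real.rpow_add h, add_halves, Real.rpow_natCast]
  set S : E d × E d → ℝ := fun z => ∑ i, f i z.1 * f i z.2 with hS
  have mS : Measurable S := Finset.measurable_sum _ fun i _ =>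
    ((hf.meas i).comp measurable_fst).mul ((hf.meas i).comp measurable_snd)
  have mY : MeasurableSet (Y ×ˢ Y) := hf.ms.prod hf.ms
  have bS : ∀ z ∈ Y ×ˢ Y, |S z| ≤ A := by
    intro z hz
    have a1 := hf.sq _ hz.1
    have a2 := hf.sq _ hz.2
    have a3 := Finset.sum_mul_sq_le_sq_mul_sq Finset.univ (fun i => f i z.1) fun i => f i z.2
    refine abs_le_of_sq_le_sq' (a3.trans ?_) hA |> abs_le.2
    rw [sq A]
    exact mul_le_mul a1 a2 (Finset.sum_nonneg fun _ _ => sq_nonneg _) hA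
  have iS : ∀ k : E d × E d → ℝ, Integrable k (volume.prod volume) →
      IntegrableOn (fun z => k z * S z) (Y ×ˢ Y) (volume.prod volume) := fun k hk =>
    hk.integrableOn.mul_bdd mS.aestronglyMeasurable
      ((ae_restrict_iff' mY).2 (ae_of_all _ bS))
  have key : ∀ μ : ℝ, 0 ≤ μ → μ ≤ lam →
      |ph Y b μ f - ∫ z in Y ×ˢ Y, L d b lam z.1 * L d b lam z.2 * S z ∂(volume.prod volume)| ≤
        A * (1 - (1 - lam) ^ d) := by
    intro μ m0 m1
    obtain ⟨-, -, -, k4, k5, -⟩ := hB d b μ hb m0 (by linarith)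
    have e1 : ph Y b μ f = ∫ z in Y ×ˢ Y, K d b μ z.1 z.2 * S z ∂(volume.prod volume) := by
      rw [setIntegral_prod _ (iS _ k5)]; rfl
    have e2 : ∫ z : E d × E d, K d b μ z.1 z.2 ∂(volume.prod volume) = 1 := by
      rw [integral_prod _ k5]
      simp_rw [fun x => (k4 x).2]
      exact g5
    have n1 : ∀ z : E d × E d, 0 ≤ K d b μ z.1 z.2 - L d b lam z.1 * L d b lam z.2 :=
      fun z => sub_nonneg.2 (L_le hb m0 m1 h1 _ _)
    rw [e1, ← integral_sub (iS _ k5) (iS _ l3), ← l4, ← e2, ← integral_sub k5 l3,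
      ← integral_const_mul]
    refine (abs_integral_le_integral_abs).trans ((setIntegral_mono_on
      ((iS _ k5).sub (iS _ l3)).abs ((k5.sub l3).const_mul A).integrableOn mY
      fun z hz => ?_).trans (setIntegral_le_integral ((k5.sub l3).const_mul A)
        (ae_of_all _ fun z => mul_nonneg hA (n1 z))))
    simp only [Pi.sub_apply]
    rw [← sub_mul, abs_mul, abs_of_nonneg (n1 z), mul_comm]
    exact mul_le_mul_of_nonneg_right (bS z hz) (n1 z)
  have k1 := abs_le.1 (key lam h0 le_rfl)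
  have k2 := abs_le.1 (key 0 le_rfl h0)
  have k3 : 1 + (d : ℝ) * (-lam) ≤ (1 + -lam) ^ d := one_add_mul_le_pow (by linarith) d
  rw [← sub_eq_add_neg] at k3
  have k4 := mul_le_mul_of_nonneg_left k3 hA
  nlinarith [k1.2, k2.1]

end Pool.Agent.MP_66cee2_co.B2K.H16
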