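import Pool.Agent.MP_66cee2_co.B2K.Spec

/-
Base two: the assembly with a polynomial loss.
-/

namespace Pool.Agent.MP_66cee2_co.B2K.H18

open MeasureTheory Set Filter Metric Topology Pool.Agent.MP_66cee2_co.X
  Pool.Agent.MP_66cee2_co.XI Pool.Agent.MP_66cee2_co.B

/-- the theorem with a polynomial loss. -/
def SBaseP : Prop :=
  ∃ d₀ : ℕ, ∀ d n : ℕ, d₀ ≤ d → n * d ^ 17 ≤ 2 ^ d → XT.AllIso d n

theorem odd_of (hJ : D.SJ3) (hT : D.STr) (hF : SFull) (hS : SSmall) (hC : SCovA) (hTl : STail) :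
    ∀ᶠ l : ℕ in atTop, ∀ n : ℕ, ((n : ℝ) + 1) * (4000 * (2 * l + 3 : ℝ) ^ 16) ≤ 4 ^ l →
      XT.AllIso (2 * l + 3) n := by
  filter_upwards [hF, hS] with l hF hS n hn
  refine hT _ n (by omega) fun P hP => ?_
  obtain ⟨u, hu⟩ := hJ _ n (by omega) P hP
  have hd : (0 : ℝ) < 2 * l + 3 := by positivity
  obtain ⟨R, δ, hR, hδ, h⟩ := hTl (2 * l + 3) (bb l) (1 / (2 * l + 3 : ℝ) ^ 6)
    (by unfold bb; positivity) (by positivity)
  rcases hC _ n (2 * (l + 2)) P u R δ (by omega) (by omega) hP hu hR hδ with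
    h1 | ⟨Y, β, hY, hs, hcov⟩
  · exact h1
  · exfalso
    have h2 := h Y (fun c => ⟨(hY c).1.ms, (hY c).2.2⟩) hcov
    have h3 : ∀ c, c ≠ 2 → ∫ x in Y c, G _ (bb l) x ≤ 1 / (2 * l + 3 : ℝ) ^ 6 := fun c hc => by
      obtain ⟨s, s1, s2⟩ := hs c hc
      exact hS n (Y c) (β c) s hn (hY c).1 (hY c).2.1 s1 s2
    have h4 := hF n (Y 2) (β 2) hn (hY 2).1 (hY 2).2.1
    rw [Fin.sum_univ_four] at h2
    have a0 := h3 0 (by decide)
    have a1 := h3 1 (by decide)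
    have a3 := h3 3 (by decide)
    have e : (4 : ℝ) / (2 * l + 3 : ℝ) ^ 6 = 4 * (1 / (2 * l + 3 : ℝ) ^ 6) := by ring
    rw [e] at h4
    linarith

theorem num {l d n : ℕ} (hd : 128000 ≤ d) (h1 : 2 * l + 3 ≤ d) (h2 : d ≤ 2 * l + 4)
    (hn : 1 ≤ n) (h : n * d ^ 17 ≤ 2 ^ d) : (n + 1) * (4000 * (2 * l + 3) ^ 16) ≤ 4 ^ l := by
  have a1 : (2 * l + 3) ^ 16 ≤ d ^ 16 := Nat.pow_le_pow_left h1 16
  have a2 : 2 ^ d ≤ 16 * 4 ^ l := by
    calc 2 ^ d ≤ 2 ^ (2 * l + 4) := Nat.pow_le_pow_right (by omega) h2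
      _ = 16 * 4 ^ l := by rw [pow_add, pow_mul]; ring
  have a3 : n * (128000 * d ^ 16) ≤ n * d ^ 17 :=
    Nat.mul_le_mul_left _ (by rw [pow_succ' d 16]; exact Nat.mul_le_mul_right _ hd)
  have a4 : (n + 1) * (4000 * (2 * l + 3) ^ 16) ≤ (2 * n) * (4000 * d ^ 16) :=
    Nat.mul_le_mul (by omega) (Nat.mul_le_mul_left _ a1)
  have a5 : 16 * ((2 * n) * (4000 * d ^ 16)) = n * (128000 * d ^ 16) := by ring
  omega

theorem one_ok {d : ℕ} (hd : 128000 ≤ d) : 1 * d ^ 17 ≤ 2 ^ d := by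
  have a1 : d / 17 + 1 ≤ 2 ^ (d / 17 - 5) := by
    have h : ∀ k : ℕ, k + 16 ≤ 2 ^ (k + 10) := fun k => by
      have := Nat.lt_two_pow_self (n := k)
      rw [pow_add]
      omega
    obtain ⟨k, hk⟩ : ∃ k, d / 17 = k + 15 := ⟨d / 17 - 15, by omega⟩
    rw [hk, show k + 15 - 5 = k + 10 by omega]
    exact h k
  have a2 : d ≤ 2 ^ (d / 17) := by
    obtain ⟨k, hk⟩ : ∃ k, d / 17 = k + 5 := ⟨d / 17 - 5, by omega⟩
    rw [hk, show k + 5 - 5 = k by omega] at a1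
    rw [hk, pow_add]
    omega
  calc 1 * d ^ 17 = d ^ 17 := one_mul _
    _ ≤ (2 ^ (d / 17)) ^ 17 := Nat.pow_le_pow_left a2 17
    _ = 2 ^ (d / 17 * 17) := by rw [← pow_mul]
    _ ≤ 2 ^ d := Nat.pow_le_pow_right (by omega) (Nat.div_mul_le_self d 17)

theorem baseP_of (hJ : D.SJ3) (hT : D.STr) (hO : XT.RowODD) (hF : SFull) (hS : SSmall)
    (hC : SCovA) (hTl : STail) : SBaseP := by
  obtain ⟨l₀, h⟩ := eventually_atTop.1 (odd_of hJ hT hF hS hC hTl)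
  refine ⟨2 * l₀ + 128000, fun d n hd hn => ?_⟩
  obtain ⟨l, hl, e⟩ : ∃ l, l₀ ≤ l ∧ (d = 2 * l + 3 ∨ d = 2 * l + 3 + 1) :=
    ⟨(d - 3) / 2, by omega, by omega⟩
  have h0 : (n + 1) * (4000 * (2 * l + 3) ^ 16) ≤ 4 ^ l := by
    rcases Nat.eq_zero_or_pos n with rfl | hp
    · exact le_trans (Nat.mul_le_mul_right _ (by omega))
        (num (d := d) (n := 1) (by omega) (by omega) (by omega) le_rfl (one_ok (by omega)))
    · exact num (by omega) (by omega) (by omega) hp hn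
  have h1 : XT.AllIso (2 * l + 3) n := h l hl n (by exact_mod_cast h0)
  rcases e with rfl | rfl
  · exact h1
  · exact hO _ n (by omega) h1

end Pool.Agent.MP_66cee2_co.B2K.H18
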