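import Pool.Agent.MP_66cee2_co.B2K.Spec

/-
The Cauchy-Schwarz inequality along the semigroup.
-/

namespace Pool.Agent.MP_66cee2_co.B2K.H1

open MeasureTheory Set Filter Pool.Agent.MP_66cee2_co.X Pool.Agent.MP_66cee2_co.B

variable {d : ℕ} {ι : Type} [Fintype ι] {Y : Set (E d)} {f : ι → E d → ℝ} {A b : ℝ}

/-- the transition operator. -/
noncomputable def T (Y : Set (E d)) (b μ : ℝ) (g : E d → ℝ) (z : E d) : ℝ :=
  ∫ x in Y, Q d b μ z x * g x

theorem G_pos {a : ℝ} (ha : 0 < a) (w : E d) : 0 < G d a w :=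
  mul_pos (Real.rpow_pos_of_pos (div_pos ha Real.pi_pos) _) (Real.exp_pos _)

theorem Q_pos (hb : 0 < b) {μ : ℝ} (h0 : 0 ≤ μ) (h1 : μ < 1) (z x : E d) : 0 < Q d b μ z x :=
  G_pos (div_pos hb (by nlinarith)) _

theorem Q_int (hf : Bd Y f A) (hb : 0 < b) {μ : ℝ} (h0 : 0 ≤ μ) (h1 : μ < 1) (z : E d) (i : ι) :
    Integrable (fun x => Q d b μ z x * f i x) (volume.restrict Y) := by
  have : IsFiniteMeasure (volume.restrict Y) := isFiniteMeasure_restrict.2 hf.bdd.measure_lt_top.ne
  have ha : 0 < b / (1 - μ ^ 2) := div_pos hb (by nlinarith)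
  have hm : Measurable fun x => Q d b μ z x := by
    unfold Q G
    fun_prop
  refine Integrable.of_bound (hm.mul (hf.meas i)).aestronglyMeasurable
    ((b / (1 - μ ^ 2) / Real.pi) ^ ((d : ℝ) / 2) * (1 + A)) ?_
  filter_upwards [ae_restrict_mem hf.ms] with x hx
  have h2 : f i x ^ 2 ≤ A :=
    (Finset.single_le_sum (f := fun j => f j x ^ 2) (fun j _ => sq_nonneg _)
      (Finset.mem_univ i)).trans (hf.sq x hx)
  have h3 : |f i x| ≤ 1 + A := by
    rw [abs_le]
    constructor <;> nlinarith [sq_nonneg (f i x + 1), sq_nonneg (f i x - 1), sq_nonneg (f i x)]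
  have h4 : Q d b μ z x ≤ (b / (1 - μ ^ 2) / Real.pi) ^ ((d : ℝ) / 2) := by
    unfold Q G
    refine mul_le_of_le_one_right (Real.rpow_pos_of_pos (div_pos ha Real.pi_pos) _).le ?_
    exact Real.exp_le_one_iff.2 (by nlinarith [sq_nonneg ‖x - μ • z‖])
  rw [Real.norm_eq_abs, abs_mul, abs_of_pos (Q_pos hb h0 h1 z x)]
  exact mul_le_mul h4 h3 (abs_nonneg _) ((Q_pos hb h0 h1 z x).le.trans h4)

theorem key (hB : SBasic) (hS : SSemi) (hf : Bd Y f A) (hb : 0 < b) {μ ν : ℝ} (h0 : 0 ≤ μ)
    (h1 : μ < 1) (h2 : 0 ≤ ν) (h3 : ν < 1) :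
    Integrable (fun z => G d b z * ∑ i, T Y b μ (f i) z * T Y b ν (f i) z) ∧
      ph Y b (μ * ν) f = ∫ z, G d b z * ∑ i, T Y b μ (f i) z * T Y b ν (f i) z := by
  have : IsFiniteMeasure (volume.restrict Y) := isFiniteMeasure_restrict.2 hf.bdd.measure_lt_top.ne
  have hl : μ * ν < 1 := by nlinarith
  obtain ⟨kc, kp, -, -, ki, -⟩ := hB d b (μ * ν) hb (mul_nonneg h0 h2) hl
  have hm := hf.meas
  have sm : Measurable fun p : E d × E d => ∑ i, f i p.1 * f i p.2 := by fun_prop
  have sb : ∀ᵐ p ∂(volume.restrict Y).prod (volume.restrict Y),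
      |∑ i, f i p.1 * f i p.2| ≤ A := by
    rw [Measure.prod_restrict]
    filter_upwards [ae_restrict_mem (hf.ms.prod hf.ms)] with p hp
    have e1 := hf.sq _ hp.1
    have e2 := hf.sq _ hp.2
    have e3 : ∑ i, |f i p.1 * f i p.2| ≤ ∑ i, (f i p.1 ^ 2 + f i p.2 ^ 2) / 2 :=
      Finset.sum_le_sum fun i _ => by
        rw [abs_le]
        constructor <;> nlinarith [sq_nonneg (f i p.1 + f i p.2), sq_nonneg (f i p.1 - f i p.2)]
    rw [← Finset.sum_div, Finset.sum_add_distrib] at e3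
    exact (Finset.abs_sum_le_sum_abs _ _).trans (by linarith)
  have ki' : Integrable (fun p : E d × E d => K d b (μ * ν) p.1 p.2 * ∑ i, f i p.1 * f i p.2)
      ((volume.restrict Y).prod (volume.restrict Y)) := by
    refine Integrable.mul_bdd ?_ sm.aestronglyMeasurable sb
    rw [Measure.prod_restrict]
    exact ki.integrableOn
  set F : E d × E d → E d → ℝ := fun p z =>
    G d b z * (Q d b μ z p.1 * Q d b ν z p.2) * ∑ i, f i p.1 * f i p.2 with hF
  have fm : Measurable (Function.uncurry F) := by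
    have : Measurable fun q : (E d × E d) × E d =>
        G d b q.2 * (Q d b μ q.2 q.1.1 * Q d b ν q.2 q.1.2) := by
      unfold Q G
      fun_prop
    exact this.mul (sm.comp measurable_fst)
  have fi : Integrable (Function.uncurry F)
      (((volume.restrict Y).prod (volume.restrict Y)).prod volume) := by
    refine (integrable_prod_iff fm.aestronglyMeasurable).2 ⟨Eventually.of_forall fun p =>
      (hS d b μ ν hb h0 h1 h2 h3 p.1 p.2).1.mul_const (∑ i, f i p.1 * f i p.2), ?_⟩
    refine ki'.norm.congr (Eventually.of_forall fun p => ?_)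
    have e : ∀ z, ‖Function.uncurry F (p, z)‖ =
        G d b z * (Q d b μ z p.1 * Q d b ν z p.2) * |∑ i, f i p.1 * f i p.2| := fun z => by
      simp only [Function.uncurry, hF, Real.norm_eq_abs]
      rw [abs_mul, abs_of_pos (mul_pos (G_pos hb z)
        (mul_pos (Q_pos hb h0 h1 z _) (Q_pos hb h2 h3 z _)))]
    simp only [e]
    rw [integral_mul_const, (hS d b μ ν hb h0 h1 h2 h3 p.1 p.2).2, Real.norm_eq_abs, abs_mul,
      abs_of_pos (kp _ _)]
  have inner : ∀ z, ∫ p, F p z ∂(volume.restrict Y).prod (volume.restrict Y) =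
      G d b z * ∑ i, T Y b μ (f i) z * T Y b ν (f i) z := fun z => by
    have e : ∀ p : E d × E d, F p z = G d b z *
        ∑ i, (Q d b μ z p.1 * f i p.1) * (Q d b ν z p.2 * f i p.2) := fun p => by
      simp only [hF, Finset.mul_sum]
      exact Finset.sum_congr rfl fun i _ => by ring
    simp only [e]
    rw [integral_const_mul, integral_finsetSum _ fun i _ =>
      (Q_int hf hb h0 h1 z i).mul_prod (Q_int hf hb h2 h3 z i)]
    congr 1
    exact Finset.sum_congr rfl fun i _ =>
      integral_prod_mul (fun x => Q d b μ z x * f i x) (fun y => Q d b ν z y * f i y)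
  refine ⟨fi.integral_prod_right.congr (Eventually.of_forall inner), ?_⟩
  have e1 : ph Y b (μ * ν) f = ∫ p, K d b (μ * ν) p.1 p.2 * ∑ i, f i p.1 * f i p.2
      ∂(volume.restrict Y).prod (volume.restrict Y) := (integral_prod _ ki').symm
  have e2 : ∀ p : E d × E d, K d b (μ * ν) p.1 p.2 * ∑ i, f i p.1 * f i p.2 = ∫ z, F p z :=
    fun p => by
      simp only [hF]
      rw [integral_mul_const, (hS d b μ ν hb h0 h1 h2 h3 p.1 p.2).2]
  rw [e1]
  simp only [e2]
  rw [integral_integral_swap fi]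
  simp only [inner]

theorem sCS (hB : SBasic) (hS : SSemi) : SCS := by
  intro d ι _ Y f A b μ ν hf hb h0 h1 h2 h3
  obtain ⟨i1, e1⟩ := key hB hS hf hb h0 h1 h0 h1
  obtain ⟨i2, e2⟩ := key hB hS hf hb h0 h1 h2 h3
  obtain ⟨i3, e3⟩ := key hB hS hf hb h2 h3 h2 h3
  refine ⟨e1 ▸ integral_nonneg fun z => mul_nonneg (G_pos hb z).le
    (Finset.sum_nonneg fun i _ => mul_self_nonneg _), ?_⟩
  have h : ∀ t : ℝ, 0 ≤ ph Y b (μ * μ) f * (t * t) + 2 * ph Y b (μ * ν) f * t +
      ph Y b (ν * ν) f := fun t => by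
    have j1 := i1.mul_const (t * t)
    have j2 := (i2.const_mul 2).mul_const t
    have j3 : Integrable fun z => (G d b z * ∑ i, T Y b μ (f i) z * T Y b μ (f i) z) * (t * t) +
        2 * (G d b z * ∑ i, T Y b μ (f i) z * T Y b ν (f i) z) * t := j1.add j2
    rw [e1, e2, e3, ← integral_mul_const, ← integral_const_mul, ← integral_mul_const,
      ← integral_add j1 j2, ← integral_add j3 i3]
    refine integral_nonneg fun z => ?_
    have e : G d b z * ∑ i, (T Y b μ (f i) z * t + T Y b ν (f i) z) ^ 2 =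
        (G d b z * ∑ i, T Y b μ (f i) z * T Y b μ (f i) z) * (t * t) +
          2 * (G d b z * ∑ i, T Y b μ (f i) z * T Y b ν (f i) z) * t +
          G d b z * ∑ i, T Y b ν (f i) z * T Y b ν (f i) z := by
      simp only [Finset.mul_sum, Finset.sum_mul, ← Finset.sum_add_distrib]
      exact Finset.sum_congr rfl fun i _ => by ring
    have p := mul_nonneg (G_pos hb z).le (Finset.sum_nonneg fun i (_ : i ∈ Finset.univ) =>
      sq_nonneg (T Y b μ (f i) z * t + T Y b ν (f i) z))
    rw [e] at p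
    exact p
  have := discrim_le_zero h
  unfold discrim at this
  nlinarith

end Pool.Agent.MP_66cee2_co.B2K.H1
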