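import Pool.Agent.MP_66cee2_co.B.Ch
import Pool.Agent.MP_66cee2_co.B.Ga1

/-
Two-sided polynomial approximation of the Gaussian for a range of parameters.
-/

namespace Pool.Agent.MP_66cee2_co.B2K.H1

open Polynomial Pool.Agent.MP_66cee2_co.B

theorem num4 : Real.exp (81 / 160) * Real.exp (37 / 50) ≤ 4 := by
  have e : Real.exp (81 / 160) * Real.exp (37 / 50) = Real.exp 1 * Real.exp (197 / 800) := by
    rw [← Real.exp_add, ← Real.exp_add]; norm_num
  have h1 := Real.exp_one_lt_d9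
  have h2 := Real.add_one_le_exp (-(197 / 800 : ℝ))
  have h3 : Real.exp (197 / 800) * Real.exp (-(197 / 800 : ℝ)) = 1 := by
    rw [← Real.exp_add]; simp
  have h4 := Real.exp_pos (197 / 800 : ℝ)
  have h5 : Real.exp (197 / 800) ≤ 4 / 3 := by nlinarith
  rw [e]
  nlinarith [Real.exp_pos (1 : ℝ)]

theorem gauss (l : ℕ) (hl : 2 ≤ l) (a : ℝ) (h1 : 37 / 50 * l ≤ a) (h2 : a ≤ 9 / 10 * l) :
    ∃ r : ℝ[X], r.natDegree ≤ l ∧ ∀ k : ℝ,
      |√(a / Real.pi) * Phi (r.comp (X ^ 2)) k - Real.exp (-k ^ 2 / (4 * a))| ≤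
        8 * l * Real.exp (-(37 / 50 * l)) := by
  have l2 : (2 : ℝ) ≤ l := by exact_mod_cast hl
  have a1 : (1 : ℝ) ≤ a := by linarith
  obtain ⟨r, hr, h⟩ := sCh l a 4 (by linarith) (by norm_num)
  refine ⟨r, hr, fun k => (sGa1 a _ r (by linarith) h k).trans ?_⟩
  have s1 : √(a / Real.pi) ≤ l := by
    refine Real.sqrt_le_iff.2 ⟨by linarith, ?_⟩
    rw [div_le_iff₀ Real.pi_pos]
    nlinarith [Real.pi_gt_three]
  have b1 : ((4 : ℝ) ^ l)⁻¹ * Real.exp (a / 2 * ((4 + 4⁻¹) / 2 - 1)) ≤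
      Real.exp (-(37 / 50 * l)) := by
    have c1 : Real.exp (a / 2 * ((4 + 4⁻¹) / 2 - 1)) ≤ Real.exp (81 / 160) ^ l := by
      rw [← Real.exp_nat_mul]
      exact Real.exp_le_exp.2 (by linarith)
    have c2 : Real.exp (-(37 / 50 * l)) = (Real.exp (37 / 50) ^ l)⁻¹ := by
      rw [← Real.exp_nat_mul, Real.exp_neg, mul_comm]
    have c3 : Real.exp (81 / 160) ^ l * Real.exp (37 / 50) ^ l ≤ 4 ^ l := by
      rw [← mul_pow]
      exact pow_le_pow_left₀ (by positivity) num4 _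
    rw [c2, inv_mul_le_iff₀ (by positivity), ← div_eq_mul_inv, le_div_iff₀ (by positivity)]
    exact (mul_le_mul_of_nonneg_right c1 (by positivity)).trans c3
  have b2 : Real.exp (-a) ≤ Real.exp (-(37 / 50 * l)) := Real.exp_le_exp.2 (by linarith)
  have b3 : 2 * Real.exp (-a) / a ≤ 2 * Real.exp (-a) := div_le_self (by positivity) a1
  calc _ ≤ l * (8 * Real.exp (-(37 / 50 * l))) :=
        mul_le_mul s1 (by linarith) (by positivity) (by linarith)
    _ = _ := by ring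

end Pool.Agent.MP_66cee2_co.B2K.H1
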