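import Pool.Agent.MP_66cee2_co.B2K.Spec
import Pool.Agent.MP_66cee2_co.B2K.H1Gauss

namespace Pool.Agent.MP_66cee2_co.B2K.H30

open Filter Polynomial Pool.Agent.MP_66cee2_co.B

theorem sApx : SApxG := by
  filter_upwards [eventually_ge_atTop 160000] with l hl a h1 h2
  have hl' : (160000 : ℝ) ≤ l := by exact_mod_cast hl
  obtain ⟨r, hr, h⟩ := H1.gauss l (by omega) a (by linarith) (by linarith)
  refine ⟨√(a / Real.pi), r, hr, fun k => (h k).trans ?_⟩
  have e1 : Real.exp (-(73 / 100 * (l : ℝ))) =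
      Real.exp (l / 100) * Real.exp (-(37 / 50 * (l : ℝ))) := by
    rw [← Real.exp_add]; congr 1; ring
  have e2 := Real.quadratic_le_exp_of_nonneg (show (0 : ℝ) ≤ l / 100 by positivity)
  rw [e1]
  refine mul_le_mul_of_nonneg_right ?_ (Real.exp_pos _).le
  nlinarith

end Pool.Agent.MP_66cee2_co.B2K.H30
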