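import Pool.Agent.MP_66cee2_co.B2K.Spec
import Pool.Agent.MP_66cee2_co.H12.Meh

/-
A set that fills a large ball has nearly full Gaussian measure.
-/

namespace Pool.Agent.MP_66cee2_co.B2K.H31

open MeasureTheory Set Filter Metric Topology Pool.Agent.MP_66cee2_co.X
  Pool.Agent.MP_66cee2_co.B

theorem G_le {d : ℕ} {b : ℝ} (hb : 0 < b) (x : E d) : G d b x ≤ (b / Real.pi) ^ ((d : ℝ) / 2) := by
  unfold G
  have h1 : Real.exp (-b * ‖x‖ ^ 2) ≤ 1 := Real.exp_le_one_iff.2 (by nlinarith [sq_nonneg ‖x‖])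
  have h2 : 0 < (b / Real.pi) ^ ((d : ℝ) / 2) :=
    Real.rpow_pos_of_pos (div_pos hb Real.pi_pos) _
  nlinarith

theorem big {d : ℕ} {b ε : ℝ} (hb : 0 < b) (hε : 0 < ε) :
    ∃ R : ℝ, 0 < R ∧ 1 - ε ≤ ∫ x in ball (0 : E d) R, G d b x := by
  have hm : Monotone fun k : ℕ => ball (0 : E d) ((k : ℝ) + 1) := fun i j hij =>
    ball_subset_ball (by have : (i : ℝ) ≤ j := by exact_mod_cast hij
                         linarith)
  have hu : (⋃ k : ℕ, ball (0 : E d) ((k : ℝ) + 1)) = univ := iUnion_ball_nat_succ 0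
  have ht := tendsto_setIntegral_of_monotone (μ := volume) (f := G d b)
    (fun k : ℕ => measurableSet_ball (x := (0 : E d)) (ε := (k : ℝ) + 1)) hm
    (H12M.G_integrable hb).integrableOn
  rw [hu, Measure.restrict_univ, H12M.G_int hb] at ht
  obtain ⟨k, hk⟩ := (ht.eventually (lt_mem_nhds (show 1 - ε < 1 by linarith))).exists
  exact ⟨k + 1, by positivity, hk.le⟩

theorem sTail : STail := by
  intro d b ε hb hε
  obtain ⟨R, hR, h1⟩ := big (d := d) hb (half_pos hε)
  obtain ⟨C, hC⟩ : ∃ C : ℝ, C = (b / Real.pi) ^ ((d : ℝ) / 2) := ⟨_, rfl⟩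
  have C0 : 0 < C := hC ▸ Real.rpow_pos_of_pos (div_pos hb Real.pi_pos) _
  refine ⟨R, ε / 2 / C, hR, by positivity, fun Y hY hv => ?_⟩
  have gi := H12M.G_integrable (d := d) hb
  have g0 : ∀ x : E d, 0 ≤ G d b x := fun x => (H12M.G_pos hb x).le
  have hU : MeasurableSet (⋃ c, Y c) := MeasurableSet.iUnion fun c => (hY c).1
  have hs : (⋃ c, Y c) ⊆ ball 0 R := iUnion_subset fun c => (hY c).2
  have hf : volume (ball (0 : E d) R) ≠ ⊤ := measure_ball_lt_top.ne
  have e1 : ∫ x in ball (0 : E d) R \ ⋃ c, Y c, G d b x =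
      (∫ x in ball (0 : E d) R, G d b x) - ∫ x in ⋃ c, Y c, G d b x :=
    setIntegral_sdiff hU gi.integrableOn hs
  have e2 : volume.real (ball (0 : E d) R \ ⋃ c, Y c) =
      volume.real (ball (0 : E d) R) - volume.real (⋃ c, Y c) := measureReal_sdiff hs hU hf
  have hf2 : volume (ball (0 : E d) R \ ⋃ c, Y c) < ⊤ :=
    (measure_mono sdiff_subset).trans_lt measure_ball_lt_top
  have e3 : ‖∫ x in ball (0 : E d) R \ ⋃ c, Y c, G d b x‖ ≤
      C * volume.real (ball (0 : E d) R \ ⋃ c, Y c) :=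
    norm_setIntegral_le_of_norm_le_const hf2 fun x _ => by
      rw [Real.norm_eq_abs, abs_of_nonneg (g0 x), hC]
      exact G_le hb x
  have e4 : C * volume.real (ball (0 : E d) R \ ⋃ c, Y c) ≤ ε / 2 := by
    rw [e2]
    have : C * (ε / 2 / C) = ε / 2 := by field_simp
    nlinarith
  have e5 : ∫ x in ⋃ c, Y c, G d b x ≤ ∑ c, ∫ x in Y c, G d b x := by
    rw [← integral_indicator hU]
    simp_rw [← integral_indicator (hY _).1]
    rw [← integral_finsetSum _ fun c _ => gi.indicator (hY c).1]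
    refine integral_mono (gi.indicator hU)
      (integrable_finsetSum _ fun c _ => gi.indicator (hY c).1) fun x => ?_
    have p : ∀ c, 0 ≤ (Y c).indicator (G d b) x := fun c => indicator_nonneg (fun y _ => g0 y) x
    by_cases hx : x ∈ ⋃ c, Y c
    · obtain ⟨c, hc⟩ := mem_iUnion.1 hx
      have := Finset.single_le_sum (f := fun c => (Y c).indicator (G d b) x) (fun c _ => p c)
        (Finset.mem_univ c)
      simp only [indicator_of_mem hc] at this
      simpa only [indicator_of_mem hx] using this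
    · simpa only [indicator_of_notMem hx] using Finset.sum_nonneg fun c _ => p c
  have e6 := (le_abs_self _).trans ((Real.norm_eq_abs _).symm.le.trans e3)
  linarith

end Pool.Agent.MP_66cee2_co.B2K.H31
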