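import Pool.Agent.MP_66cee2_co.B2K.Spec
import Pool.Agent.MP_66cee2_co.B.Gauss

/-
Base two: a single function with values in the unit interval.
-/

namespace Pool.Agent.MP_66cee2_co.B2K.H33

open MeasureTheory Set Filter Metric Topology Polynomial Pool.Agent.MP_66cee2_co.X
  Pool.Agent.MP_66cee2_co.XI Pool.Agent.MP_66cee2_co.B
open scoped ENNReal RealInnerProductSpace

theorem sOne (hB : SBasic) : SOne := by
  intro d Y q s b lam hY hq hqs hs0 hs1 hb hl0 hl1
  obtain ⟨-, hpos, hsym, hmar, hint, -⟩ := hB d b lam hb hl0 hl1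
  obtain ⟨-, -, gi, g1, -⟩ := sGauss d b hb
  have pm : Measurable (Y.indicator q) := hq.indicator hY
  have pb : ∀ x, 0 ≤ Y.indicator q x ∧ Y.indicator q x ≤ s := fun x => by
    by_cases hx : x ∈ Y
    · rw [indicator_of_mem hx]
      exact hqs x hx
    · rw [indicator_of_notMem hx]
      exact ⟨le_rfl, hs0⟩
  have e : ph Y b lam (fun _ : Unit => q) =
      ∫ x, ∫ y, K d b lam x y * (Y.indicator q x * Y.indicator q y) := by
    unfold ph
    rw [← integral_indicator hY]
    refine integral_congr_ae (ae_of_all _ fun x => ?_)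
    by_cases hx : x ∈ Y
    · simp only [indicator_of_mem hx]
      rw [← integral_indicator hY]
      refine integral_congr_ae (ae_of_all _ fun y => ?_)
      by_cases hy : y ∈ Y <;> simp [hy]
    · simp [hx]
  have e2 : ∫ x in Y, G d b x * q x = ∫ x, G d b x * Y.indicator q x := by
    rw [← integral_indicator hY]
    refine integral_congr_ae (ae_of_all _ fun x => ?_)
    by_cases hx : x ∈ Y <;> simp [hx]
  rw [e, e2]
  generalize Y.indicator q = p at pm pb
  have p1 : ∀ x, |p x| ≤ 1 := fun x => by
    rw [abs_of_nonneg (pb x).1]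
    exact (pb x).2.trans hs1
  have bd : ∀ F : E d × E d → ℝ, Measurable F → (∀ z, |F z| ≤ 1) →
      Integrable (fun z : E d × E d => K d b lam z.1 z.2 * F z) (volume.prod volume) := by
    intro F hF h1
    refine hint.mono (hint.aestronglyMeasurable.mul hF.aestronglyMeasurable)
      (ae_of_all _ fun z => ?_)
    rw [norm_mul]
    exact mul_le_of_le_one_right (norm_nonneg _) (h1 z)
  constructor
  · have h1 : ∀ x, ∫ y, K d b lam x y * (p x * p y) ≤ G d b x * s ^ 2 := fun x => by
      rw [← (hmar x).2, ← integral_mul_const]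
      refine integral_mono_of_nonneg (ae_of_all _ fun y => ?_) ((hmar x).1.mul_const _)
        (ae_of_all _ fun y => ?_)
      · exact mul_nonneg (hpos x y).le (mul_nonneg (pb x).1 (pb y).1)
      · refine mul_le_mul_of_nonneg_left ?_ (hpos x y).le
        rw [sq]
        exact mul_le_mul (pb x).2 (pb y).2 (pb y).1 hs0
    have h2 : ∫ x, ∫ y, K d b lam x y * (p x * p y) ≤ ∫ x, G d b x * s ^ 2 :=
      integral_mono_of_nonneg (ae_of_all _ fun x => integral_nonneg fun y =>
        mul_nonneg (hpos x y).le (mul_nonneg (pb x).1 (pb y).1)) (gi.mul_const _)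
        (ae_of_all _ h1)
    rwa [integral_mul_const, g1, one_mul] at h2
  · have i0 := bd (fun z => p z.1 * p z.2) (by fun_prop) fun z => by
      rw [abs_mul]
      exact mul_le_one₀ (p1 _) (abs_nonneg _) (p1 _)
    have i1 := bd (fun z => p z.1) (by fun_prop) fun z => p1 _
    have i2 := bd (fun z => p z.2) (by fun_prop) fun z => p1 _
    have a0 := integral_prod _ i0
    have a1 : ∫ z : E d × E d, K d b lam z.1 z.2 * p z.1 ∂(volume.prod volume) =
        ∫ x, G d b x * p x := by
      rw [integral_prod _ i1]
      refine integral_congr_ae (ae_of_all _ fun x => ?_)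
      show ∫ y, K d b lam x y * p x = G d b x * p x
      rw [integral_mul_const, (hmar x).2]
    have a2 : ∫ z : E d × E d, K d b lam z.1 z.2 * p z.2 ∂(volume.prod volume) =
        ∫ x, G d b x * p x := by
      rw [integral_prod_symm _ i2]
      refine integral_congr_ae (ae_of_all _ fun y => ?_)
      show ∫ x, K d b lam x y * p y = G d b y * p y
      rw [integral_mul_const, ← (hmar y).2]
      simp only [hsym y]
    have a3 : ∫ z : E d × E d, K d b lam z.1 z.2 ∂(volume.prod volume) = 1 := by
      rw [integral_prod _ hint, ← g1]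
      exact integral_congr_ae (ae_of_all _ fun x => (hmar x).2)
    have h3 : ∫ z : E d × E d, (K d b lam z.1 z.2 * p z.1 + K d b lam z.1 z.2 * p z.2 -
        K d b lam z.1 z.2) ∂(volume.prod volume) ≤
        ∫ z : E d × E d, K d b lam z.1 z.2 * (p z.1 * p z.2) ∂(volume.prod volume) := by
      refine integral_mono ((i1.add i2).sub hint) i0 fun z => ?_
      have h4 := mul_nonneg (hpos z.1 z.2).le (mul_nonneg
        (sub_nonneg.2 ((pb z.1).2.trans hs1)) (sub_nonneg.2 ((pb z.2).2.trans hs1)))
      show K d b lam z.1 z.2 * p z.1 + K d b lam z.1 z.2 * p z.2 - K d b lam z.1 z.2 ≤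
        K d b lam z.1 z.2 * (p z.1 * p z.2)
      linarith
    have i3 : Integrable (fun z : E d × E d =>
        K d b lam z.1 z.2 * p z.1 + K d b lam z.1 z.2 * p z.2) (volume.prod volume) := i1.add i2
    rw [integral_sub i3 hint, integral_add i1 i2, a1, a2, a3, a0] at h3
    dsimp only at h3
    linarith

end Pool.Agent.MP_66cee2_co.B2K.H33
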