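import Pool.Agent.MP_66cee2_co.H44L.Cert
import Pool.Agent.MP_66cee2_co.B.Gauss

/-
The one-sided test for a wide Gaussian.
-/

namespace Pool.Agent.MP_66cee2_co.B2K.H37

open MeasureTheory Set Polynomial Pool.Agent.MP_66cee2_co.X Pool.Agent.MP_66cee2_co.B

theorem one_d (l : ℕ) : ∃ (r : ℝ[X]) (κ : ℝ), r.natDegree ≤ l ∧ ∀ k : ℝ,
    (|k| ≤ 1 → 1 ≤ κ * Phi (r.comp (X ^ 2)) k + 64 * (2 * l + 1) ^ 4 / 4 ^ l) ∧
    0 ≤ κ * Phi (r.comp (X ^ 2)) k + 64 * (2 * l + 1) ^ 4 / 4 ^ l ∧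
    κ * Phi (r.comp (X ^ 2)) k ≤ 2 + 64 * (2 * l + 1) ^ 4 / 4 ^ l := by
  obtain ⟨G, r, h1, -, h3, h4, h5⟩ := H44L.cert l
  set g : ℝ := ∫ v in (-(1 / 2) : ℝ)..(1 / 2), G.eval v with hg
  have q0 : (0 : ℝ) < 2 ^ l / (4 * (2 * l + 1) ^ 2) := by positivity
  have g0 : 0 < g := q0.trans_le h4
  have hN : 4 / g ^ 2 ≤ 64 * (2 * l + 1) ^ 4 / 4 ^ l := by
    have e : (64 : ℝ) * (2 * l + 1) ^ 4 / 4 ^ l = 4 / (2 ^ l / (4 * (2 * l + 1) ^ 2)) ^ 2 := by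
      rw [show (4 : ℝ) ^ l = (2 ^ l) ^ 2 by rw [← pow_mul, mul_comm, pow_mul]; norm_num]
      field_simp
      norm_num
    rw [e]
    gcongr
  have cG : Continuous fun v : ℝ => G.eval v := G.continuous
  have cmp : ∀ k c e : ℝ, (∀ v : ℝ, |v| ≤ 1 / 2 → c ≤ e * Real.cos (k * v)) →
      c * g ≤ e * ∫ v in (-(1 / 2) : ℝ)..(1 / 2), Real.cos (k * v) * G.eval v := by
    intro k c e h
    rw [hg, ← intervalIntegral.integral_const_mul, ← intervalIntegral.integral_const_mul]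
    refine intervalIntegral.integral_mono_on (by norm_num)
      (Continuous.intervalIntegrable (by fun_prop) _ _)
      (Continuous.intervalIntegrable (by fun_prop) _ _) fun v hv => ?_
    rw [← mul_assoc]
    exact mul_le_mul_of_nonneg_right (h v (abs_le.2 hv)) (zero_le_one.trans (h3 v hv.1 hv.2))
  refine ⟨r, 2 / g ^ 2, h1, fun k => ?_⟩
  obtain ⟨a1, a2⟩ := abs_le.1 (h5 k)
  have u1 := cmp k (-1) 1 fun v _ => by simpa using Real.neg_one_le_cos _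
  have u2 := cmp k (-1) (-1) fun v _ => by simpa using Real.cos_le_one _
  have u3 : |k| ≤ 1 → 7 / 8 * g ≤
      1 * ∫ v in (-(1 / 2) : ℝ)..(1 / 2), Real.cos (k * v) * G.eval v := fun hk =>
    cmp k (7 / 8) 1 fun v hv => by
      have b1 := Real.one_sub_sq_div_two_le_cos (x := k * v)
      have b2 : |k * v| ≤ 1 / 2 := by
        rw [abs_mul]
        exact (mul_le_of_le_one_left (abs_nonneg _) hk).trans hv
      have b3 := pow_le_pow_left₀ (abs_nonneg _) b2 2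
      rw [sq_abs] at b3
      linarith
  generalize (∫ v in (-(1 / 2) : ℝ)..(1 / 2), Real.cos (k * v) * G.eval v) = s at *
  generalize Phi (r.comp (X ^ 2)) k = P at *
  have g2 : 0 < g ^ 2 := by positivity
  have e1 : ∀ c : ℝ, c * g ^ 2 ≤ 2 * P + 4 → c ≤ 2 / g ^ 2 * P + 4 / g ^ 2 := fun c hc => by
    rw [div_mul_eq_mul_div, ← add_div, le_div_iff₀ g2]
    exact hc
  refine ⟨fun hk => (e1 1 ?_).trans (by linarith), (e1 0 ?_).trans (by linarith), ?_⟩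
  · have := pow_le_pow_left₀ (by positivity) (u3 hk) 2
    nlinarith
  · nlinarith [sq_nonneg s]
  · have s2 : s ^ 2 ≤ g ^ 2 := sq_le_sq' (by linarith) (by linarith)
    have : 2 / g ^ 2 * P ≤ 2 + 4 / g ^ 2 := by
      rw [div_mul_eq_mul_div, div_le_iff₀ g2, add_mul, div_mul_cancel₀ _ g2.ne']
      linarith
    linarith

/-- the two hypotheses of the one-sided bound for a Gaussian. -/
theorem gauss_test (l : ℕ) : ∃ (r : ℝ[X]) (κ : ℝ), r.natDegree ≤ l ∧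
    ∀ (d : ℕ) (a : ℝ), 0 < a → ∀ ξ : E d,
      ct (G d a) ξ ≤ κ * Phi (r.comp (X ^ 2)) ‖ξ‖ +
        (64 * (2 * l + 1) ^ 4 / 4 ^ l + Real.exp (-1 / (4 * a))) ∧
      κ * Phi (r.comp (X ^ 2)) ‖ξ‖ - (2 + 64 * (2 * l + 1) ^ 4 / 4 ^ l) ≤ ct (G d a) ξ := by
  obtain ⟨r, κ, h1, h2⟩ := one_d l
  refine ⟨r, κ, h1, fun d a ha ξ => ?_⟩
  obtain ⟨b1, b2, b3⟩ := h2 ‖ξ‖
  rw [(sGauss d a ha).2.2.2.2 ξ]
  have p1 := Real.exp_pos (-‖ξ‖ ^ 2 / (4 * a))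
  have p2 := Real.exp_pos (-1 / (4 * a))
  refine ⟨?_, by linarith⟩
  rcases le_total ‖ξ‖ 1 with h | h
  · have : Real.exp (-‖ξ‖ ^ 2 / (4 * a)) ≤ 1 := Real.exp_le_one_iff.2
      (div_nonpos_of_nonpos_of_nonneg (neg_nonpos.2 (sq_nonneg _)) (by positivity))
    linarith [b1 ((abs_norm _).le.trans h)]
  · have : Real.exp (-‖ξ‖ ^ 2 / (4 * a)) ≤ Real.exp (-1 / (4 * a)) :=
      Real.exp_le_exp.2 (div_le_div_of_nonneg_right (by nlinarith) (by positivity))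
    linarith

end Pool.Agent.MP_66cee2_co.B2K.H37
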