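import Pool.Agent.MP_66cee2_co.B2K.Spec
import Pool.Agent.MP_66cee2_co.H12.Meh

/-
Base two: nearly independent pairs.
-/

namespace Pool.Agent.MP_66cee2_co.B2K.H40

open MeasureTheory Set Filter Metric Topology Pool.Agent.MP_66cee2_co.X
  Pool.Agent.MP_66cee2_co.B
open scoped RealInnerProductSpace

theorem total {d : ℕ} {σ l : ℝ} (hσ : 0 < σ) (hl : l ^ 2 < 1) :
    ∫ z : E d × E d, H12M.K σ l z.1 z.2 ∂(volume.prod volume) = 1 := by
  rw [integral_prod _ (H12M.K_integrable hσ hl)]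
  simp only [(H12M.K_marg hσ hl _).2]
  exact H12M.G_int hσ

theorem low {d : ℕ} {b l lam : ℝ} (hb : 0 < b) (h0 : 0 ≤ l) (h1 : l ≤ lam) (h2 : lam < 1)
    (x y : E d) : (1 - lam) ^ d * H12M.K (b / (1 - lam)) 0 x y ≤ H12M.K b l x y := by
  have hπ := Real.pi_pos
  have a1 : 0 < 1 - lam := by linarith
  have a2 : 0 < 1 - l := by linarith
  have a3 : l ^ 2 < 1 := by nlinarith
  have a4 : 0 < 1 - l ^ 2 := by linarith
  rw [H12M.K_exp a3, H12M.K_exp (by norm_num : (0 : ℝ) ^ 2 < 1)]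
  have e0 : b / (1 - lam) / (1 - 0 ^ 2) = b / (1 - lam) := by norm_num
  have e1 : (1 - lam) ^ d = (1 - lam) ^ ((d : ℝ) / 2) * (1 - lam) ^ ((d : ℝ) / 2) := by
    rw [← Real.rpow_add a1, add_halves, Real.rpow_natCast]
  have e2 : (1 - lam) ^ ((d : ℝ) / 2) * (b / (1 - lam) / Real.pi) ^ ((d : ℝ) / 2) =
      (b / Real.pi) ^ ((d : ℝ) / 2) := by
    rw [← Real.mul_rpow a1.le (by positivity)]
    congr 1
    field_simp
  rw [e0, e1, ← mul_assoc, mul_mul_mul_comm, e2]
  have c1 : (b / Real.pi) ^ ((d : ℝ) / 2) ≤ (b / (1 - l ^ 2) / Real.pi) ^ ((d : ℝ) / 2) := by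
    refine Real.rpow_le_rpow (by positivity) ?_ (by positivity)
    refine div_le_div_of_nonneg_right ?_ hπ.le
    rw [le_div_iff₀ a4]
    nlinarith [sq_nonneg l]
  refine mul_le_mul (mul_le_mul_of_nonneg_left c1 (by positivity)) (Real.exp_le_exp.2 ?_)
    (by positivity) (by positivity)
  have c2 : -(‖x‖ ^ 2 + ‖y‖ ^ 2) ≤ 2 * ⟪x, y⟫ := by
    have := norm_add_sq_real x y
    nlinarith [sq_nonneg ‖x + y‖]
  have c3 : b / (1 - l ^ 2) * (1 + l) ≤ b / (1 - lam) := by
    rw [show b / (1 - l ^ 2) * (1 + l) = b / (1 - l) by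
      rw [show 1 - l ^ 2 = (1 - l) * (1 + l) by ring]; field_simp]
    exact div_le_div_of_nonneg_left hb.le a1 (by linarith)
  have c4 : 0 ≤ ‖x‖ ^ 2 + ‖y‖ ^ 2 := by positivity
  have c5 : 0 < b / (1 - l ^ 2) := by positivity
  have c6 := mul_le_mul_of_nonneg_right c3 c4
  have c7 := mul_le_mul_of_nonneg_left (mul_le_mul_of_nonneg_left c2 h0) c5.le
  nlinarith

theorem sDecay : SDecay := by
  intro d ι _ Y f A b lam hY hA hb h0 h1
  have a1 : 0 < 1 - lam := by linarith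
  have a3 : lam ^ 2 < 1 := by nlinarith
  have z3 : (0 : ℝ) ^ 2 < 1 := by norm_num
  have hb' : 0 < b / (1 - lam) := by positivity
  have mY : MeasurableSet (Y ×ˢ Y) := hY.ms.prod hY.ms
  have bd : ∀ z ∈ Y ×ˢ Y, |∑ i, f i z.1 * f i z.2| ≤ A := fun z hz => by
    have s1 := hY.sq _ hz.1
    have s2 := hY.sq _ hz.2
    refine (Finset.abs_sum_le_sum_abs _ _).trans ((Finset.sum_le_sum
      (g := fun i => (f i z.1 ^ 2 + f i z.2 ^ 2) / 2) fun i _ => ?_).trans ?_)
    · rw [abs_le]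
      constructor <;> nlinarith [sq_nonneg (f i z.1 + f i z.2), sq_nonneg (f i z.1 - f i z.2)]
    · rw [← Finset.sum_div, Finset.sum_add_distrib]
      linarith
  have ms : Measurable fun z : E d × E d => ∑ i, f i z.1 * f i z.2 :=
    Finset.measurable_sum _ fun i _ =>
      ((hY.meas i).comp measurable_fst).mul ((hY.meas i).comp measurable_snd)
  have it : ∀ l : ℝ, l ^ 2 < 1 → IntegrableOn
      (fun z : E d × E d => H12M.K b l z.1 z.2 * ∑ i, f i z.1 * f i z.2) (Y ×ˢ Y)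
      (volume.prod volume) := fun l hl =>
    (H12M.K_integrable hb hl).integrableOn.mul_bdd ms.aestronglyMeasurable
      ((ae_restrict_iff' mY).2 (Eventually.of_forall bd))
  have ep : ∀ l : ℝ, l ^ 2 < 1 → ph Y b l f = ∫ z in Y ×ˢ Y,
      H12M.K b l z.1 z.2 * ∑ i, f i z.1 * f i z.2 ∂(volume.prod volume) := fun l hl =>
    (setIntegral_prod _ (it l hl)).symm
  have i1 := H12M.K_integrable (d := d) hb a3
  have i2 := H12M.K_integrable (d := d) hb z3
  have i3 := (H12M.K_integrable (d := d) hb' z3).const_mul ((1 - lam) ^ d)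
  have i4 : Integrable (fun z : E d × E d => H12M.K b lam z.1 z.2 + H12M.K b 0 z.1 z.2)
      (volume.prod volume) := i1.add i2
  have i5 := i3.const_mul 2
  have i6 : Integrable (fun z : E d × E d => A * (H12M.K b lam z.1 z.2 + H12M.K b 0 z.1 z.2 -
      2 * ((1 - lam) ^ d * H12M.K (b / (1 - lam)) 0 z.1 z.2))) (volume.prod volume) :=
    (i4.sub i5).const_mul A
  have t1 : ∫ z : E d × E d, A * (H12M.K b lam z.1 z.2 + H12M.K b 0 z.1 z.2 -
      2 * ((1 - lam) ^ d * H12M.K (b / (1 - lam)) 0 z.1 z.2)) ∂(volume.prod volume) =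
      A * (1 + 1 - 2 * ((1 - lam) ^ d * 1)) := by
    rw [integral_const_mul, integral_sub i4 i5, integral_add i1 i2, integral_const_mul,
      integral_const_mul, total hb a3, total hb z3, total hb' z3]
  have t2 := setIntegral_le_integral (s := Y ×ˢ Y) i6 (Eventually.of_forall fun z => by
    have := low hb h0 le_rfl h1 z.1 z.2
    have := low hb le_rfl h0 h1 z.1 z.2
    exact mul_nonneg hA (by linarith))
  have t3 := setIntegral_mono_on ((it lam a3).sub (it 0 z3)) i6.integrableOn mY fun z hz => by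
    have l1 := low hb h0 le_rfl h1 z.1 z.2
    have l2 := low hb le_rfl h0 h1 z.1 z.2
    obtain ⟨b1, b2⟩ := abs_le.1 (bd z hz)
    simp only [Pi.sub_apply]
    nlinarith [mul_nonneg (sub_nonneg.2 l1) (sub_nonneg.2 b2),
      mul_nonneg (sub_nonneg.2 l2) (sub_nonneg.2 b1)]
  have t4 := integral_sub (it lam a3) (it 0 z3)
  have t5 : 1 + (d : ℝ) * -lam ≤ (1 + -lam) ^ d := one_add_mul_le_pow (by linarith) d
  rw [ep lam a3, ep 0 z3]
  simp only [Pi.sub_apply] at t3
  rw [t4] at t3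
  rw [← sub_eq_add_neg 1 lam] at t5
  nlinarith [mul_le_mul_of_nonneg_left t5 hA]

end Pool.Agent.MP_66cee2_co.B2K.H40
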