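import Pool.Agent.MP_66cee2_co.B2K.Spec
import Pool.Agent.MP_66cee2_co.B2K.H6Lin

/-
No flat class of nearly full Gaussian measure.
-/

namespace Pool.Agent.MP_66cee2_co.B2K.H42

open MeasureTheory Set Filter Metric Topology Polynomial Pool.Agent.MP_66cee2_co.X
  Pool.Agent.MP_66cee2_co.XI Pool.Agent.MP_66cee2_co.B
open scoped ENNReal RealInnerProductSpace

/-- the space coordinates in a frame. -/
noncomputable def uu {n : ℕ} (c : E n) (r : ℝ) (y : E n) : Option (Fin n) → ℝ
  | none => vv c r y - r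
  | some i => √2 * (y - c) i

theorem uu_dot {n : ℕ} (c : E n) {r : ℝ} (hr : 0 < r) (y z : E n) :
    ∑ i, uu c r y i * uu c r z i - vv c r y * vv c r z = 1 - ‖y - z‖ ^ 2 := by
  rw [Fintype.sum_option]
  have h1 : ∑ i : Fin n, uu c r y (some i) * uu c r z (some i) = 2 * ⟪y - c, z - c⟫ := by
    rw [PiLp.inner_apply, Finset.mul_sum]
    refine Finset.sum_congr rfl fun i _ => ?_
    have h : √2 * √2 = (2 : ℝ) := Real.mul_self_sqrt (by norm_num)
    have h' : ⟪(y - c) i, (z - c) i⟫ = (z - c) i * (y - c) i := rfl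
    rw [h']
    simp only [uu]
    linear_combination ((y - c) i * (z - c) i) * h
  have h2 : ‖y - z‖ ^ 2 = ‖y - c‖ ^ 2 - 2 * ⟪y - c, z - c⟫ + ‖z - c‖ ^ 2 := by
    rw [← norm_sub_sq_real, sub_sub_sub_cancel_right]
  rw [h1, h2]
  simp only [uu, vv]
  field_simp
  ring

theorem uu_sq {n : ℕ} (c : E n) {r : ℝ} (hr : 0 < r) (y : E n) :
    ∑ i, uu c r y i ^ 2 = 1 + vv c r y ^ 2 := by
  have h := uu_dot c hr y y
  rw [sub_self, norm_zero] at h
  simp only [sq]
  linear_combination h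

theorem vv_meas {n : ℕ} (c : E n) (r : ℝ) : Measurable (vv c r) := by
  unfold vv
  fun_prop

theorem uu_meas {n : ℕ} (c : E n) (r : ℝ) (i : Option (Fin n)) :
    Measurable fun y => uu c r y i := by
  cases i with
  | none => exact (vv_meas c r).sub_const r
  | some i =>
    have h : Continuous fun y : E n => √2 * (y - c) i := by fun_prop
    exact h.measurable

theorem W_meas (v₀ : ℝ) : Measurable (WW v₀) := by
  unfold WW
  fun_prop

theorem W_abs {v₀ : ℝ} (h : 0 < v₀) (v : ℝ) : |WW v₀ v| ≤ 1 / (2 * v₀) := by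
  unfold WW
  have hp : 0 < v ^ 2 + v₀ ^ 2 := by positivity
  rw [abs_div, abs_of_pos hp, div_le_div_iff₀ hp (by positivity)]
  nlinarith [sq_nonneg (|v| - v₀), sq_abs v]

theorem q_eq (v₀ v : ℝ) : WW v₀ v * v = v ^ 2 / (v ^ 2 + v₀ ^ 2) := by
  unfold WW
  ring

theorem q_bd {v₀ : ℝ} (h : 0 < v₀) (v : ℝ) : 0 ≤ WW v₀ v * v ∧ WW v₀ v * v ≤ 1 := by
  have hp : 0 < v ^ 2 + v₀ ^ 2 := by positivity
  rw [q_eq]
  exact ⟨by positivity, (div_le_one hp).2 (by nlinarith [sq_nonneg v₀])⟩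

theorem q_ge {v₀ e v : ℝ} (h : 0 < v₀) (he : 0 ≤ e) (hv : v₀ ^ 2 ≤ e * v ^ 2) :
    1 - e ≤ WW v₀ v * v := by
  have hp : 0 < v ^ 2 + v₀ ^ 2 := by positivity
  rw [q_eq, le_div_iff₀ hp]
  nlinarith [mul_nonneg he (sq_nonneg v₀)]

theorem sFull (hK : SKar) (hF : SFin) (hG : SGap) : SFull := by
  unfold SFull
  unfold SFin at hF
  unfold SGap at hG
  filter_upwards [hF, hG, eventually_ge_atTop 2] with l hF hG hl
  intro n Y β hn hP hV
  by_contra hm
  rw [not_lt] at hm
  have b0 : 0 < bb l := by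
    unfold bb
    positivity
  obtain ⟨gc, g0, gi, g1, -⟩ := sGauss (2 * l + 3) (bb l) b0
  have D7 : (7 : ℝ) ≤ 2 * l + 3 := by
    have : (2 : ℝ) ≤ l := by exact_mod_cast hl
    linarith
  generalize (2 * l + 3 : ℝ) = D at hF hG hn hm D7
  generalize hg : G (2 * l + 3) (bb l) = g at hF hG hm gc g0 gi g1
  have D0 : 0 < D := by linarith
  obtain ⟨A, -, hA⟩ := H6.bdd hP hV
  obtain ⟨B, B0, hB⟩ := H6.van_lin hV
  obtain ⟨e, he⟩ : ∃ e : ℝ, e = 1 / D ^ 6 := ⟨_, rfl⟩
  have e0 : 0 < e := by rw [he]; positivity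
  have eD : e * D ^ 6 = 1 := by rw [he]; field_simp
  have e5 : 6 * e ≤ 1 / D ^ 5 := by
    rw [he, mul_one_div, div_le_div_iff₀ (by positivity) (by positivity)]
    nlinarith [pow_pos D0 5, pow_succ D 5]
  have e6 : 1 / D ^ 5 ≤ 1 / 2 := by
    refine one_div_le_one_div_of_le (by norm_num) ?_
    exact le_trans (by linarith) (le_self_pow₀ (a := D) (by linarith) (by norm_num))
  have hm' : 1 - 4 * e ≤ ∫ x in Y, g x := by
    rw [he, mul_one_div]
    exact hm
  obtain ⟨s, hs⟩ : ∃ s : ℝ, s = 1 / 2 ^ l := ⟨_, rfl⟩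
  have s0 : 0 < s := by rw [hs]; positivity
  have s1 : s ≤ 1 := by
    rw [hs]
    exact (div_le_one (by positivity)).2 (one_le_pow₀ (by norm_num))
  have s2 : s * 2 ^ l = 1 := by rw [hs]; field_simp
  obtain ⟨v₀, v0, hv⟩ : ∃ v₀ : ℝ, 0 < v₀ ∧ v₀ ^ 2 = e * s :=
    ⟨√(e * s), Real.sqrt_pos.2 (by positivity), Real.sq_sqrt (by positivity)⟩
  have gm : Measurable fun x => ENNReal.ofReal (g x) := gc.measurable.ennreal_ofReal
  have giY : Integrable g (volume.restrict Y) := gi.integrableOn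
  haveI := isFiniteMeasure_withDensity_ofReal giY.2
  have hI : ∀ f : E (2 * l + 3) → ℝ,
      ∫ x, f x ∂((volume.restrict Y).withDensity fun x => ENNReal.ofReal (g x)) =
        ∫ x in Y, g x * f x := by
    intro f
    rw [integral_withDensity_eq_integral_toReal_smul gm
      (Eventually.of_forall fun _ => ENNReal.ofReal_lt_top)]
    refine integral_congr_ae (Eventually.of_forall fun x => ?_)
    simp only [ENNReal.toReal_ofReal (g0 x).le, smul_eq_mul]
  obtain ⟨c, r, r1, k1, k2, k3⟩ := hK _ n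
    ((volume.restrict Y).withDensity fun x => ENNReal.ofReal (g x)) β A v₀ hP.meas
    (withDensity_absolutelyContinuous _ _ (by
      filter_upwards [ae_restrict_mem hP.ms] with x hx using hA x hx)) v0
  simp only [hI] at k1 k2 k3
  have r0 : 0 < r := by linarith
  have vm : Measurable fun x => vv c r (β x) := (vv_meas c r).comp hP.meas
  have um : ∀ i, Measurable fun x => uu c r (β x) i := fun i => (uu_meas c r i).comp hP.meas
  have wm : Measurable fun x => WW v₀ (vv c r (β x)) := (W_meas v₀).comp vm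
  have mY : ∫ x in Y, g x ≤ 1 :=
    g1 ▸ setIntegral_le_integral gi (Eventually.of_forall fun x => (g0 x).le)
  obtain ⟨Z, hZ⟩ : ∃ Z, Z = {x | vv c r (β x) ^ 2 ≤ s} := ⟨_, rfl⟩
  have Zm : MeasurableSet Z := hZ ▸ measurableSet_le (vm.pow_const 2) measurable_const
  have Zs : ∀ x, x ∈ Z ↔ vv c r (β x) ^ 2 ≤ s := fun x => by rw [hZ]; rfl
  have f1 := hF (Option (Fin n)) (Y ∩ Z) (fun i x => uu c r (β x) i) (fun x => vv c r (β x))
    ⟨hP.ms.inter Zm, hP.bdd.subset inter_subset_left, um, fun x hx => by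
      rw [uu_sq c r0]; linarith [(Zs x).1 hx.2]⟩ vm
    (fun x _ => by rw [uu_sq c r0]; nlinarith [sq_nonneg (vv c r (β x))])
    (fun x hx => hs ▸ (Zs x).1 hx.2)
    ⟨B, fun x hx y hy => by rw [uu_dot c r0]; exact hB x hx.1 y hy.1⟩
  have f2 : ∫ x in Y ∩ Z, g x ≤ e := by
    refine abs_le_of_sq_le_sq' (f1.trans ?_) e0.le |>.2
    rw [Fintype.card_option, Fintype.card_fin, he, ← mul_div_assoc, div_pow, one_pow,
      div_le_div_iff₀ (by positivity) (by positivity)]
    push_cast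
    calc ((n : ℝ) + 1) * (4000 * D ^ 4) * (D ^ 6) ^ 2 = ((n : ℝ) + 1) * (4000 * D ^ 16) := by ring
      _ ≤ 4 ^ l := hn
      _ = 1 * 4 ^ l := by ring
  have ib : ∀ (f : E (2 * l + 3) → ℝ) (C : ℝ), Measurable f → (∀ x, |f x| ≤ C) →
      Integrable (fun x => g x * f x) (volume.restrict Y) := fun f C hf hC =>
    giY.mul_bdd hf.aestronglyMeasurable (Eventually.of_forall hC)
  have iq : Integrable (fun x => g x * (WW v₀ (vv c r (β x)) * vv c r (β x)))
      (volume.restrict Y) :=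
    ib _ 1 (wm.mul vm) fun x => abs_le.2 ⟨by linarith [(q_bd v0 (vv c r (β x))).1],
      (q_bd v0 _).2⟩
  have iw : Integrable (fun x => g x * WW v₀ (vv c r (β x))) (volume.restrict Y) :=
    ib _ _ wm fun x => W_abs v0 _
  have q1 : 1 - 6 * e ≤ ∫ x in Y, g x * (WW v₀ (vv c r (β x)) * vv c r (β x)) := by
    have h1 : ∫ x in Y, ((1 - e) * g x - Z.indicator g x) ≤
        ∫ x in Y, g x * (WW v₀ (vv c r (β x)) * vv c r (β x)) := by
      refine integral_mono ((giY.const_mul _).sub (giY.indicator Zm)) iq fun x => ?_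
      by_cases hx : x ∈ Z
      · simp only [indicator_of_mem hx]
        nlinarith [mul_nonneg (g0 x).le (q_bd v0 (vv c r (β x))).1, mul_pos e0 (g0 x)]
      · simp only [indicator_of_notMem hx]
        have h2 := not_le.1 ((Zs x).not.1 hx)
        have h3 := q_ge (v := vv c r (β x)) v0 e0.le (by rw [hv]; nlinarith)
        nlinarith [mul_le_mul_of_nonneg_left h3 (g0 x).le]
    rw [integral_sub (giY.const_mul _) (giY.indicator Zm), integral_const_mul,
      setIntegral_indicator Zm] at h1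
    nlinarith [sq_nonneg e]
  have r2 : v₀ / 2 < r := by
    refine lt_of_le_of_ne r1 fun h => ?_
    have h1 : ∫ x in Y, (g x * (WW v₀ (vv c r (β x)) * vv c r (β x)) - 1 / 4 * g x) ≤
        ∫ x in Y, g x * (WW v₀ (vv c r (β x)) * (vv c r (β x) - r)) := by
      refine integral_mono (iq.sub (giY.const_mul _)) ?_ fun x => ?_
      · refine (iq.sub (iw.const_mul r)).congr (Eventually.of_forall fun x => ?_)
        simp only [Pi.sub_apply]
        ring
      · have h2 := (abs_le.1 (W_abs v0 (vv c r (β x)))).2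
        rw [le_div_iff₀ (by positivity)] at h2
        have h3 : WW v₀ (vv c r (β x)) * r ≤ 1 / 4 := by
          generalize WW v₀ (vv c r (β x)) = w at h2 ⊢
          rw [← h]
          linarith
        have h4 := mul_le_mul_of_nonneg_left h3 (g0 x).le
        simp only
        linarith
    rw [integral_sub iq (giY.const_mul _), integral_const_mul] at h1
    linarith
  have W2 : ∀ v, WW v₀ v ^ 2 ≤ D ^ 6 * 2 ^ l / 4 := by
    intro v
    have h1 := pow_le_pow_left₀ (abs_nonneg _) (W_abs v0 v) 2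
    rw [sq_abs] at h1
    refine h1.trans (le_of_eq ?_)
    rw [div_pow, mul_pow, hv, div_eq_div_iff (by positivity) (by norm_num)]
    linear_combination (-4 * (s * 2 ^ l)) * eD - 4 * s2
  refine hG (Option (Fin n)) Y (fun i x => WW v₀ (vv c r (β x)) * uu c r (β x) i)
    (fun x => WW v₀ (vv c r (β x)) * vv c r (β x))
    ⟨hP.ms, hP.bdd, fun i => wm.mul (um i), fun x _ => ?_⟩ (wm.mul vm) (fun x _ => q_bd v0 _)
    ⟨1 / (2 * v₀) * (1 / (2 * v₀)) * B, fun x hx y hy => ?_⟩ (by linarith) fun i => ?_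
  · simp only [mul_pow]
    rw [← Finset.mul_sum, uu_sq c r0, mul_add, mul_one, ← mul_pow]
    obtain ⟨a1, a2⟩ := q_bd v0 (vv c r (β x))
    have a3 : (1 : ℝ) ≤ D ^ 6 * 2 ^ l :=
      one_le_mul_of_one_le_of_one_le (one_le_pow₀ (by linarith)) (one_le_pow₀ (by norm_num))
    have a4 : D ^ 7 * 2 ^ l = D * (D ^ 6 * 2 ^ l) := by ring
    have a5 := W2 (vv c r (β x))
    rw [a4]
    nlinarith
  · have a1 : ∑ i, WW v₀ (vv c r (β x)) * uu c r (β x) i * (WW v₀ (vv c r (β y)) * uu c r (β y) i)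
        - WW v₀ (vv c r (β x)) * vv c r (β x) * (WW v₀ (vv c r (β y)) * vv c r (β y)) =
        WW v₀ (vv c r (β x)) * WW v₀ (vv c r (β y)) * (1 - ‖β x - β y‖ ^ 2) := by
      rw [← uu_dot c r0, mul_sub, Finset.mul_sum]
      refine congrArg₂ _ (Finset.sum_congr rfl fun i _ => by ring) (by ring)
    rw [a1, abs_mul, abs_mul, mul_assoc (1 / (2 * v₀) * (1 / (2 * v₀)))]
    exact mul_le_mul (mul_le_mul (W_abs v0 _) (W_abs v0 _) (abs_nonneg _) (by positivity))
      (hB x hx y hy) (abs_nonneg _) (by positivity)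
  · cases i with
    | none => exact k3 r2
    | some i =>
      have a1 : ∫ x in Y, g x * (WW v₀ (vv c r (β x)) * uu c r (β x) (some i)) =
          ∫ x in Y, √2 * (g x * (WW v₀ (vv c r (β x)) * (β x - c) i)) := by
        refine integral_congr_ae (Eventually.of_forall fun x => ?_)
        simp only [uu]
        ring
      rw [a1, integral_const_mul, k1 i, mul_zero]

end Pool.Agent.MP_66cee2_co.B2K.H42
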