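import Pool.Agent.MP_66cee2_co.B2K.Spec

/-
Logarithmically convex sequences.
-/

namespace Pool.Agent.MP_66cee2_co.B2K.H48

theorem sLogC : SLogC := by
  intro φ e e0 e1 h0 h1 h6 h7
  have r0 : 0 < 1 - 2 * e := by linarith
  have st : ∀ j : ℕ, 0 < φ (7 + j) ∧ (1 - 2 * e) * φ (6 + j) ≤ φ (7 + j) := by
    intro j
    induction j with
    | zero =>
      refine ⟨by simp only [add_zero]; linarith, ?_⟩
      simp only [add_zero]
      nlinarith [mul_le_mul_of_nonneg_left h6 r0.le, sq_nonneg e]
    | succ j ih =>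
      obtain ⟨p, q⟩ := ih
      have a1 := h1 (6 + j) (by omega)
      have a2 := h0 (6 + j + 2) (by omega)
      rw [show 6 + j + 1 = 7 + j by omega] at a1
      rw [show 7 + (j + 1) = 6 + j + 2 by omega, show 6 + (j + 1) = 7 + j by omega]
      have a3 : (1 - 2 * e) * φ (7 + j) ≤ φ (6 + j + 2) := by
        refine le_of_mul_le_mul_left ?_ p
        nlinarith [mul_le_mul_of_nonneg_left a1 r0.le, mul_le_mul_of_nonneg_right q a2]
      exact ⟨(mul_pos r0 p).trans_le a3, a3⟩
  intro j
  induction j with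
  | zero => simpa using h7
  | succ j ih =>
    have a := (st (j + 1)).2
    rw [show 6 + (j + 1) = 7 + j by omega] at a
    have b := mul_le_mul_of_nonneg_left ih r0.le
    have c : (0 : ℝ) ≤ (2 * j + 1) * e ^ 2 := by positivity
    push_cast
    nlinarith

end Pool.Agent.MP_66cee2_co.B2K.H48
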