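import Pool.Agent.MP_66cee2_co.B2K.Spec
import Pool.Agent.MP_66cee2_co.B.Gauss

/-
No flat class of nearly full measure.
-/

namespace Pool.Agent.MP_66cee2_co.B2K.H52

open MeasureTheory Set Filter Metric Topology Polynomial Pool.Agent.MP_66cee2_co.X
  Pool.Agent.MP_66cee2_co.XI Pool.Agent.MP_66cee2_co.B
open scoped ENNReal RealInnerProductSpace

/-- the space coordinates in a frame. -/
noncomputable def uu {n : ℕ} (c : E n) (r : ℝ) (y : E n) : Option (Fin n) → ℝ
  | none => vv c r y - r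
  | some i => √2 * (y - c) i

theorem uu_id {n : ℕ} (c : E n) {r : ℝ} (hr : r ≠ 0) (y z : E n) :
    ∑ i, uu c r y i * uu c r z i - vv c r y * vv c r z = 1 - ‖y - z‖ ^ 2 := by
  have e : y - z = (y - c) - (z - c) := by abel
  have h2 : √2 * √2 = (2 : ℝ) := Real.mul_self_sqrt (by norm_num)
  have h3 : ∑ i, √2 * (y - c) i * (√2 * (z - c) i) = 2 * ⟪y - c, z - c⟫ := by
    rw [PiLp.inner_apply, Finset.mul_sum]
    refine Finset.sum_congr rfl fun i _ => ?_
    simp only [RCLike.inner_apply, conj_trivial]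
    linear_combination ((y - c) i * (z - c) i) * h2
  rw [Fintype.sum_option, e, norm_sub_sq_real (y - c)]
  simp only [uu, h3, vv]
  field_simp
  ring

theorem uu_sq {n : ℕ} (c : E n) {r : ℝ} (hr : r ≠ 0) (y : E n) :
    ∑ i, uu c r y i ^ 2 = 1 + vv c r y ^ 2 := by
  have := uu_id c hr y y
  simp only [sub_self, norm_zero, ← sq] at this
  linarith

theorem meas_vv {d n : ℕ} {β : E d → E n} (h : Measurable β) (c : E n) (r : ℝ) :
    Measurable fun x => vv c r (β x) := by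
  unfold vv
  fun_prop

theorem meas_uu {d n : ℕ} {β : E d → E n} (h : Measurable β) (c : E n) (r : ℝ)
    (i : Option (Fin n)) : Measurable fun x => uu c r (β x) i := by
  have := meas_vv h c r
  rcases i with _ | i
  · simp only [uu]
    fun_prop
  · simp only [uu]
    fun_prop

theorem ww_abs {v₀ : ℝ} (h : 0 < v₀) (v : ℝ) : |WW v₀ v| ≤ 1 / (2 * v₀) := by
  unfold WW
  rw [abs_div, abs_of_pos (show 0 < v ^ 2 + v₀ ^ 2 by positivity),
    div_le_div_iff₀ (by positivity) (by positivity)]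
  nlinarith [sq_nonneg (|v| - v₀), sq_abs v]

theorem ww_q {v₀ : ℝ} (h : 0 < v₀) (v : ℝ) : 0 ≤ WW v₀ v * v ∧ WW v₀ v * v ≤ 1 := by
  have e : WW v₀ v * v = v ^ 2 / (v ^ 2 + v₀ ^ 2) := by unfold WW; ring
  rw [e]
  exact ⟨by positivity, (div_le_one (by positivity)).2 (by nlinarith)⟩

theorem ww_far {v₀ v η : ℝ} (h : 0 < v₀) (h0 : 0 ≤ η) (g : v₀ ^ 2 ≤ η * v ^ 2) :
    1 - η ≤ WW v₀ v * v := by
  have e : WW v₀ v * v = v ^ 2 / (v ^ 2 + v₀ ^ 2) := by unfold WW; ring
  rw [e, le_div_iff₀ (by positivity)]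
  nlinarith [mul_nonneg h0 (sq_nonneg v₀)]

theorem lin {d n p : ℕ} {Y : Set (E d)} {β : E d → E n} (h : Van Y β (2 * p)) :
    ∃ B : ℝ, 0 ≤ B ∧ ∀ x ∈ Y, ∀ y ∈ Y, |1 - ‖β x - β y‖ ^ 2| ≤ B * |‖x - y‖ ^ 2 - 1| ^ p := by
  obtain ⟨B, hB⟩ := h
  refine ⟨√B, Real.sqrt_nonneg _, fun x hx y hy => abs_le_of_sq_le_sq' ?_ (by positivity) |>
    abs_le.2⟩
  refine (hB x hx y hy).trans ?_
  rw [mul_pow, ← pow_mul, mul_comm p]
  refine mul_le_mul_of_nonneg_right ?_ (by positivity)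
  rw [Real.sq_sqrt']
  exact le_max_left _ _

theorem bdd {d n p : ℕ} {Y : Set (E d)} {β : E d → E n} (hP : Pre Y β) (h : Van Y β (2 * p)) :
    ∃ A, ∀ x ∈ Y, ‖β x‖ ≤ A := by
  obtain ⟨B, B0, hB⟩ := lin h
  obtain ⟨R, hR⟩ := hP.bdd.exists_norm_le
  rcases Y.eq_empty_or_nonempty with rfl | ⟨y, hy⟩
  · exact ⟨0, fun x hx => hx.elim⟩
  refine ⟨‖β y‖ + (1 + (1 + B * ((R + R) ^ 2 + 1) ^ p)), fun x hx => ?_⟩
  have h1 : ‖x - y‖ ≤ R + R := (norm_sub_le _ _).trans (add_le_add (hR x hx) (hR y hy))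
  have h2 : |‖x - y‖ ^ 2 - 1| ≤ (R + R) ^ 2 + 1 := by
    have := pow_le_pow_left₀ (norm_nonneg _) h1 2
    rw [abs_le]
    constructor <;> nlinarith [sq_nonneg ‖x - y‖]
  have h3 := (hB x hx y hy).trans
    (mul_le_mul_of_nonneg_left (pow_le_pow_left₀ (abs_nonneg _) h2 p) B0)
  have h4 := (abs_le.1 h3).1
  have h5 : ‖β x‖ ≤ ‖β y‖ + ‖β x - β y‖ := norm_le_insert' _ _
  nlinarith [sq_nonneg (‖β x - β y‖ - 1), norm_nonneg (β x - β y)]

theorem sFull (hK : SKar) (hF : SFin) (hG : SGap) : SFull := by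
  filter_upwards [hF, hG, eventually_ge_atTop 2] with l hF hG l2 n Y β hn hP hV
  by_contra hc
  rw [not_lt] at hc
  obtain ⟨D, hD⟩ : ∃ D : ℝ, D = 2 * l + 3 := ⟨_, rfl⟩
  have D7 : 7 ≤ D := by
    have : (2 : ℝ) ≤ l := by exact_mod_cast l2
    linarith
  have b0 : 0 < bb l := by unfold bb; positivity
  rw [← hD] at hn hc hF hG
  obtain ⟨gc, g0, gi, g1, -⟩ := sGauss (2 * l + 3) (bb l) b0
  have gm := gc.measurable
  obtain ⟨A, hA⟩ := bdd hP hV
  obtain ⟨B, B0, hB⟩ := lin hV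
  obtain ⟨T, hT⟩ : ∃ T : ℝ, T = 2 ^ l := ⟨_, rfl⟩
  have T1 : 1 ≤ T := hT ▸ one_le_pow₀ (by norm_num)
  have T4 : (4 : ℝ) ^ l = T ^ 2 := by rw [hT, ← pow_mul, mul_comm, pow_mul]; norm_num
  rw [← hT] at hF hG
  rw [T4] at hn hF
  obtain ⟨η, hη⟩ : ∃ η : ℝ, η = 1 / D ^ 6 := ⟨_, rfl⟩
  have η0 : 0 < η := by rw [hη]; positivity
  have η5 : 1 / D ^ 5 = D * η := by rw [hη]; field_simp
  have η1 : D * η ≤ 1 / 2 := by
    rw [← η5]
    refine one_div_le_one_div_of_le (by norm_num) ?_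
    exact le_trans (by norm_num) (pow_le_pow_left₀ (by norm_num) D7 5)
  rw [show 4 / D ^ 6 = 4 * η by rw [hη]; ring] at hc
  obtain ⟨v₀, v0, hv⟩ : ∃ v₀ : ℝ, 0 < v₀ ∧ v₀ ^ 2 = η / T :=
    ⟨√(η / T), Real.sqrt_pos.2 (by positivity), Real.sq_sqrt (by positivity)⟩
  set ν : Measure (E (2 * l + 3)) :=
    (volume.restrict Y).withDensity fun x => ENNReal.ofReal (G _ (bb l) x) with hν
  haveI : IsFiniteMeasure ν := isFiniteMeasure_withDensity_ofReal gi.integrableOn.2
  have eν : ∀ f : E (2 * l + 3) → ℝ, ∫ x, f x ∂ν = ∫ x in Y, G _ (bb l) x * f x := fun f => by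
    rw [hν, integral_withDensity_eq_integral_toReal_smul gm.ennreal_ofReal
      (ae_of_all _ fun _ => ENNReal.ofReal_lt_top)]
    simp only [ENNReal.toReal_ofReal (g0 _).le, smul_eq_mul]
  obtain ⟨c, r, r0, k1, k2, k3⟩ := hK _ n ν β A v₀ hP.meas
    ((withDensity_absolutelyContinuous _ _).ae_le
      ((ae_restrict_mem hP.ms).mono fun x hx => hA x hx)) v0
  simp only [eν] at k1 k2 k3
  have r1 : r ≠ 0 := by linarith [half_pos v0] |> fun h : 0 < r => h.ne'
  have mv := meas_vv hP.meas c r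
  have mu := meas_uu hP.meas c r
  have mW : Measurable fun x => WW v₀ (vv c r (β x)) := by unfold WW; fun_prop
  have ib : ∀ (f : E (2 * l + 3) → ℝ) (C : ℝ), Measurable f → (∀ x, |f x| ≤ C) →
      IntegrableOn (fun x => G _ (bb l) x * f x) Y := fun f C hf hb =>
    (gi.mul_bdd hf.aestronglyMeasurable (ae_of_all _ hb)).integrableOn
  have m1 : ∫ x in Y, G _ (bb l) x ≤ 1 :=
    g1 ▸ setIntegral_le_integral gi (ae_of_all _ fun x => (g0 x).le)
  obtain ⟨S, hS⟩ : ∃ S, S = {x | vv c r (β x) ^ 2 ≤ 1 / T} := ⟨_, rfl⟩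
  have mS : MeasurableSet S := hS ▸ measurableSet_le (by fun_prop) measurable_const
  have T2 : 1 / T ≤ 1 := (div_le_one (by positivity)).2 T1
  have f1 := hF (Option (Fin n)) (Y ∩ S) (fun i x => uu c r (β x) i) (fun x => vv c r (β x))
    ⟨hP.ms.inter mS, hP.bdd.subset inter_subset_left, mu, fun x hx => by
      have : vv c r (β x) ^ 2 ≤ 1 / T := by simpa only [hS, mem_ofPred_eq] using hx.2
      rw [uu_sq c r1]
      linarith⟩ mv
    (fun x _ => by rw [uu_sq c r1]; nlinarith [sq_nonneg (vv c r (β x))])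
    (fun x hx => by simpa only [hS, mem_ofPred_eq] using hx.2)
    ⟨B, fun x hx y hy => by rw [uu_id c r1]; exact hB x hx.1 y hy.1⟩
  have f2 : ∫ x in Y ∩ S, G _ (bb l) x ≤ η := by
    refine abs_le_of_sq_le_sq' (f1.trans ?_) η0.le |>.2
    rw [Fintype.card_option, Fintype.card_fin, hη, ← mul_div_assoc, div_pow,
      div_le_div_iff₀ (by positivity) (by positivity)]
    push_cast
    calc _ = ((n : ℝ) + 1) * (4000 * D ^ 16) := by ring
      _ ≤ _ := by linarith
  have iq : IntegrableOn (fun x => G _ (bb l) x * (WW v₀ (vv c r (β x)) * vv c r (β x))) Y :=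
    ib _ 1 (mW.mul mv) fun x => (abs_of_nonneg (ww_q v0 _).1).trans_le (ww_q v0 _).2
  have q1 : 1 - 6 * η ≤ ∫ x in Y, G _ (bb l) x * (WW v₀ (vv c r (β x)) * vv c r (β x)) := by
    have i1 : IntegrableOn (fun x => S.indicator (G _ (bb l)) x) Y :=
      (gi.indicator mS).integrableOn
    have a1 : ∫ x in Y, ((1 - η) * G _ (bb l) x - S.indicator (G _ (bb l)) x) ≤
        ∫ x in Y, G _ (bb l) x * (WW v₀ (vv c r (β x)) * vv c r (β x)) :=
      integral_mono ((gi.integrableOn.const_mul _).sub i1) iq fun x => by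
        have := g0 x
        by_cases hx : x ∈ S
        · have := mul_nonneg (g0 x).le (ww_q v0 (vv c r (β x))).1
          simp only [indicator_of_mem hx]
          nlinarith
        · simp only [indicator_of_notMem hx, sub_zero]
          rw [mul_comm (1 - η)]
          refine mul_le_mul_of_nonneg_left (ww_far v0 η0.le ?_) (g0 x).le
          have : 1 / T ≤ vv c r (β x) ^ 2 := by
            simp only [hS, mem_ofPred_eq, not_le] at hx
            exact hx.le
          rw [hv, div_eq_mul_one_div]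
          exact mul_le_mul_of_nonneg_left this η0.le
    rw [integral_sub (gi.integrableOn.const_mul _) i1, integral_const_mul,
      setIntegral_indicator mS] at a1
    nlinarith
  have r2 : v₀ / 2 < r := by
    refine lt_of_le_of_ne r0 fun e => ?_
    have a1 : ∫ x in Y, (G _ (bb l) x * (WW v₀ (vv c r (β x)) * vv c r (β x)) -
        1 / 4 * G _ (bb l) x) ≤
        ∫ x in Y, G _ (bb l) x * (WW v₀ (vv c r (β x)) * (vv c r (β x) - r)) := by
      have hw : ∀ v, |WW v₀ v * r| ≤ 1 / 4 := fun v => by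
        rw [abs_mul, ← e, abs_of_pos (half_pos v0)]
        refine (mul_le_mul_of_nonneg_right (ww_abs v0 v) (half_pos v0).le).trans (le_of_eq ?_)
        field_simp
        norm_num
      refine integral_mono (iq.sub (gi.integrableOn.const_mul _))
        (ib (fun x => WW v₀ (vv c r (β x)) * (vv c r (β x) - r)) 2
          (mW.mul (mv.sub measurable_const)) fun x => ?_) fun x => ?_
      · have a := abs_le.1 (hw (vv c r (β x)))
        have b := ww_q v0 (vv c r (β x))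
        rw [mul_sub, abs_le]
        constructor <;> linarith [a.1, a.2, b.1, b.2]
      · have a := (abs_le.1 (hw (vv c r (β x)))).2
        have := g0 x
        simp only
        nlinarith
    rw [integral_sub iq (gi.integrableOn.const_mul _), integral_const_mul] at a1
    nlinarith
  refine hG (Option (Fin n)) Y (fun i x => WW v₀ (vv c r (β x)) * uu c r (β x) i)
    (fun x => WW v₀ (vv c r (β x)) * vv c r (β x))
    ⟨hP.ms, hP.bdd, fun i => mW.mul (mu i), fun x _ => ?_⟩ (mW.mul mv) (fun x _ => ww_q v0 _)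
    ⟨1 / (2 * v₀) * (1 / (2 * v₀)) * B, fun x hx y hy => ?_⟩ (by rw [η5]; nlinarith) ?_
  · simp only [mul_pow, ← Finset.mul_sum, uu_sq c r1]
    have a := pow_le_pow_left₀ (abs_nonneg _) (ww_abs v0 (vv c r (β x))) 2
    have b := ww_q v0 (vv c r (β x))
    have e : (1 / (2 * v₀)) ^ 2 = D ^ 6 * T / 4 := by
      rw [div_pow, mul_pow, hv, hη]
      field_simp
      norm_num
    rw [sq_abs, e] at a
    have D6 : 1 ≤ D ^ 6 * T := one_le_mul_of_one_le_of_one_le (one_le_pow₀ (by linarith)) T1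
    have b2 : (WW v₀ (vv c r (β x)) * vv c r (β x)) ^ 2 ≤ 1 := pow_le_one₀ b.1 b.2
    rw [mul_pow] at b2
    have : D ^ 7 * T = D * (D ^ 6 * T) := by ring
    nlinarith
  · have e := uu_id c r1 (β x) (β y)
    have e2 : ∑ i, WW v₀ (vv c r (β x)) * uu c r (β x) i * (WW v₀ (vv c r (β y)) * uu c r (β y) i)
        = WW v₀ (vv c r (β x)) * WW v₀ (vv c r (β y)) * ∑ i, uu c r (β x) i * uu c r (β y) i := by
      rw [Finset.mul_sum]
      exact Finset.sum_congr rfl fun i _ => by ring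
    rw [e2, show ∀ a b s v w : ℝ, a * b * s - a * v * (b * w) = a * b * (s - v * w) from
      fun _ _ _ _ _ => by ring, e, abs_mul, abs_mul, mul_assoc _ B]
    exact mul_le_mul (mul_le_mul (ww_abs v0 _) (ww_abs v0 _) (abs_nonneg _) (by positivity))
      (hB x hx y hy) (abs_nonneg _) (by positivity)
  · rintro (_ | i)
    · exact k3 r2
    · have := k1 i
      simp only [uu]
      rw [← mul_zero √2, ← this, ← integral_const_mul]
      exact integral_congr_ae (ae_of_all _ fun x => by simp only; ring)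

end Pool.Agent.MP_66cee2_co.B2K.H52
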