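import Pool.Agent.MP_66cee2_co.B2K.Spec

/-
Logarithmically convex sequences.
-/

namespace Pool.Agent.MP_66cee2_co.B2K.H59

theorem sLogC : SLogC := by
  intro φ e e0 e1 h0 h1 h6 h7
  have q0 : 0 < 1 - 2 * e := by linarith
  have key : ∀ j : ℕ, 0 < φ (7 + j) ∧ (1 - 2 * e) * φ (6 + j) ≤ φ (7 + j) ∧
      1 - (2 * j + 1) * e ≤ φ (7 + j) := by
    intro j
    induction j with
    | zero =>
      have := mul_le_mul_of_nonneg_left h6 q0.le
      refine ⟨by simp only [add_zero]; linarith, ?_, by simpa using h7⟩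
      simp only [add_zero]
      nlinarith [mul_nonneg e0 e0]
    | succ j ih =>
      obtain ⟨a1, a2, a3⟩ := ih
      have b1 := h1 (6 + j) (by omega)
      rw [show 6 + j + 1 = 7 + j by omega, show 6 + j + 2 = 7 + (j + 1) by omega] at b1
      have b2 := h0 (7 + (j + 1)) (by omega)
      have b3 := mul_le_mul_of_nonneg_left b1 q0.le
      have b4 := mul_le_mul_of_nonneg_right a2 b2
      have b5 : (1 - 2 * e) * φ (7 + j) ≤ φ (7 + (j + 1)) :=
        le_of_mul_le_mul_left (by linarith) a1
      have b6 := mul_le_mul_of_nonneg_left a3 q0.le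
      have b7 : 0 ≤ (2 * (j : ℝ) + 1) * (e * e) := by positivity
      refine ⟨(mul_pos q0 a1).trans_le b5, ?_, ?_⟩
      · rwa [show 6 + (j + 1) = 7 + j by omega]
      · push_cast
        linarith
  exact fun j => (key j).2.2

end Pool.Agent.MP_66cee2_co.B2K.H59
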