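import Pool.Agent.MP_66cee2_co.B2K.Spec

/-
Row NumC: the numbers.
-/

namespace Pool.Agent.MP_66cee2_co.B2K.H60

open Filter Topology

theorem sNumC : SNumC := by
  intro c h1 h2
  have hr0 : 0 ≤ c ^ 2 / 4 := by positivity
  have hr : |c ^ 2 / 4| < 1 := by
    rw [abs_of_nonneg hr0]; nlinarith
  have ht := tendsto_pow_const_mul_const_pow_of_abs_lt_one 16 hr
  have hK : (0 : ℝ) < 1 / (128000 * 5 ^ 16) := by positivity
  filter_upwards [ht.eventually (gt_mem_nhds hK), eventually_ge_atTop 1] with l hl hl1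
  have hl1' : (1 : ℝ) ≤ l := by exact_mod_cast hl1
  have a1 : (2 * l + 3 : ℝ) ^ 16 ≤ 5 ^ 16 * (l : ℝ) ^ 16 := by
    rw [← mul_pow]
    exact pow_le_pow_left₀ (by positivity) (by linarith) 16
  have a2 : c ^ (2 * l + 4) + 1 ≤ 32 * (c ^ 2) ^ l := by
    have e : c ^ (2 * l + 4) = (c ^ 2) ^ l * c ^ 4 := by rw [pow_add, pow_mul]
    have b1 : 1 ≤ (c ^ 2) ^ l := one_le_pow₀ (one_le_pow₀ h1)
    have b2 : c ^ 4 ≤ 2 ^ 4 := pow_le_pow_left₀ (by linarith) h2.le 4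
    rw [e]
    nlinarith
  have a3 : (c ^ 2) ^ l = (c ^ 2 / 4) ^ l * 4 ^ l := by
    rw [← mul_pow]
    exact congrArg (· ^ l) (by ring)
  have h4 : (0 : ℝ) < 4 ^ l := by positivity
  have a4 : 128000 * 5 ^ 16 * ((l : ℝ) ^ 16 * (c ^ 2 / 4) ^ l) ≤ 1 := by
    rw [lt_div_iff₀ (by positivity)] at hl
    linarith
  calc (c ^ (2 * l + 4) + 1) * (4000 * (2 * l + 3 : ℝ) ^ 16)
      ≤ (32 * (c ^ 2) ^ l) * (4000 * (5 ^ 16 * (l : ℝ) ^ 16)) :=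
        mul_le_mul a2 (by linarith) (by positivity) (by positivity)
    _ = (128000 * 5 ^ 16 * ((l : ℝ) ^ 16 * (c ^ 2 / 4) ^ l)) * 4 ^ l := by rw [a3]; ring
    _ ≤ 1 * 4 ^ l := mul_le_mul_of_nonneg_right a4 h4.le
    _ = 4 ^ l := one_mul _

end Pool.Agent.MP_66cee2_co.B2K.H60
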