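import Pool.Agent.MP_66cee2_co.B2K.Spec
import Pool.Agent.MP_66cee2_co.H63.Cov

/-
The four classes cover most of a ball.
-/

namespace Pool.Agent.MP_66cee2_co.B2K.H63

open MeasureTheory Set Metric Pool.Agent.MP_66cee2_co.X Pool.Agent.MP_66cee2_co.B

theorem sCovA : SCovA := by
  intro d n p P u R δ hd hp hP hu hR hδ
  rcases H63C.cov d n p P u R δ hd hp hP hu hR hδ with h | ⟨Y, β, h1, h2, h3, h4, h5⟩
  · exact Or.inl h
  refine Or.inr ⟨Y, β, h1, fun c hc => ?_, ?_⟩
  · fin_cases c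
    · exact ⟨1 / 2, le_rfl, h2⟩
    · exact ⟨0, by norm_num, fun x _ => by simp [h3 x]⟩
    · exact absurd rfl hc
    · exact ⟨0, by norm_num, fun x _ => by simp [h4 x]⟩
  · rw [measureReal_diff (iUnion_subset fun c => (h1 c).2.2)
      (MeasurableSet.iUnion fun c => (h1 c).1.ms) measure_ball_lt_top.ne] at h5
    linarith

end Pool.Agent.MP_66cee2_co.B2K.H63
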