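import Pool.Agent.MP_66cee2_co.B.Cov
import Pool.Agent.MP_66cee2_co.B.Sgn
import Pool.Agent.MP_66cee2_co.B.NoP
import Pool.Agent.MP_66cee2_co.H17B.Cov

/-
The four pieces, their data, and an almost full cover.
-/

namespace Pool.Agent.MP_66cee2_co.B2K

open MeasureTheory Set Filter Metric Topology Pool.Agent.MP_66cee2_co.X
  Pool.Agent.MP_66cee2_co.XI Pool.Agent.MP_66cee2_co.D.CaseBx Pool.Agent.MP_66cee2_co.B
open scoped ENNReal

open Sgnx in
theorem sgn0 {d n p : ℕ} {Z : Set (E d)} {V : E d → Ix n → ℝ} (hp : 1 ≤ p) (hZ : IsClosed Z)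
    (hF : Flat Z V p) (h0 : ∀ x, V x sI = 0) :
    ∃ β : E d → E n, Measurable β ∧ (∀ x ∈ Z, ‖β x‖ ^ 2 = 1 / 2) ∧ ∀ x ∈ Z, ∀ y ∈ Z,
      (1 - ‖β x - β y‖ ^ 2) ^ 2 = lz (V x) (V y) ^ 2 := by
  classical
  obtain ⟨M, hM, hMZ⟩ := exM hp hZ hF
  have hlz : ∀ x y, lz (V x) (V y) = 2 * ∑ i, V x (Sum.inl i) * V y (Sum.inl i) := by
    intro x y
    have h1 : V x (Sum.inr true) = 0 := h0 x
    have h2 : V y (Sum.inr true) = 0 := h0 y
    rw [lz_eq, h1, h2]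
    ring
  refine ⟨fun x => WithLp.toLp 2 fun i => ∑ a : Fin n,
    if M (Sum.inl a) (Sum.inl a) x ≠ 0 ∧ ∀ b, b < a → M (Sum.inl b) (Sum.inl b) x = 0 then
      M (Sum.inl a) (Sum.inl i) x / √(M (Sum.inl a) (Sum.inl a) x) else 0, ?_, ?_⟩
  · refine (WithLp.measurable_toLp 2 _).comp (measurable_pi_lambda _ fun i => ?_)
    refine Finset.measurable_sum _ fun a _ => Measurable.ite ?_
      ((hM _ _).div (hM _ _).sqrt) measurable_const
    refine MeasurableSet.inter (s₁ := {x | M (Sum.inl a) (Sum.inl a) x ≠ 0})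
      (s₂ := {x | ∀ b, b < a → M (Sum.inl b) (Sum.inl b) x = 0})
      ((hM _ _) (measurableSet_singleton 0)).compl ?_
    have : {x | ∀ b, b < a → M (Sum.inl b) (Sum.inl b) x = 0} =
        ⋂ b, ⋂ (_ : b < a), M (Sum.inl b) (Sum.inl b) ⁻¹' {0} := by
      ext x
      simp
    rw [this]
    exact MeasurableSet.iInter fun b => MeasurableSet.iInter fun _ =>
      (hM _ _) (measurableSet_singleton 0)
  · have key : ∀ x ∈ Z, ∃ ε : ℝ, ε ^ 2 = 1 ∧ ∀ i, (∑ a : Fin n,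
        if M (Sum.inl a) (Sum.inl a) x ≠ 0 ∧ ∀ b, b < a → M (Sum.inl b) (Sum.inl b) x = 0 then
          M (Sum.inl a) (Sum.inl i) x / √(M (Sum.inl a) (Sum.inl a) x) else 0) =
        ε * V x (Sum.inl i) := by
      intro x hx
      simp only [hMZ x hx]
      refine sel (fun i => V x (Sum.inl i)) ?_
      by_contra hn
      push Not at hn
      have := hF.one x hx
      rw [hlz] at this
      simp [hn] at this
    refine ⟨fun x hx => ?_, fun x hx y hy => ?_⟩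
    · obtain ⟨ε, hε, h1⟩ := key x hx
      have hx1 := hF.one x hx
      rw [hlz] at hx1
      rw [EuclideanSpace.real_norm_sq_eq]
      simp only [h1]
      have : ∑ i, (ε * V x (Sum.inl i)) ^ 2 = ε ^ 2 * ∑ i, V x (Sum.inl i) * V x (Sum.inl i) := by
        rw [Finset.mul_sum]
        exact Finset.sum_congr rfl fun i _ => by ring
      rw [this, hε]
      linarith
    obtain ⟨ε, hε, h1⟩ := key x hx
    obtain ⟨δ, hδ, h2⟩ := key y hy
    have hx1 := hF.one x hx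
    have hy1 := hF.one y hy
    rw [hlz] at hx1 hy1 ⊢
    rw [EuclideanSpace.real_norm_sq_eq]
    simp only [PiLp.sub_apply, h1, h2]
    have : ∑ i, (ε * V x (Sum.inl i) - δ * V y (Sum.inl i)) ^ 2 =
        ε ^ 2 * ∑ i, V x (Sum.inl i) * V x (Sum.inl i) +
          δ ^ 2 * ∑ i, V y (Sum.inl i) * V y (Sum.inl i) -
          2 * (ε * δ) * ∑ i, V x (Sum.inl i) * V y (Sum.inl i) := by
      simp only [Finset.mul_sum, ← Finset.sum_add_distrib, ← Finset.sum_sub_distrib]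
      exact Finset.sum_congr rfl fun i _ => by ring
    rw [this, hε, hδ]
    have h3 : 1 - (1 * ∑ i, V x (Sum.inl i) * V x (Sum.inl i) +
        1 * ∑ i, V y (Sum.inl i) * V y (Sum.inl i) -
        2 * (ε * δ) * ∑ i, V x (Sum.inl i) * V y (Sum.inl i)) =
        (ε * δ) * (2 * ∑ i, V x (Sum.inl i) * V y (Sum.inl i)) := by linarith
    rw [h3, mul_pow, mul_pow ε, hε, hδ]
    ring

theorem lev {d n : ℕ} (p : ℕ) {P : E d → Matrix (Ix n) (Ix n) ℝ} {u : E d → Ix n → ℝ}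
    (hd : 1 ≤ d) (hu : JetField P u) {R δ : ℝ} (hR : 0 < R) (hδ : 0 < δ) :
    ∃ (w : E d) (D j : ℕ) (r r' : ℝ), ‖w‖ = 1 ∧ 1 ≤ j ∧ 0 < r ∧ 0 < r' ∧
      volume.real (ball (0 : E d) R \
        ⋃ c, Den (Den (Pc u D (4 * D + p + 1) j (Cl c j w)) r) r' ∩ ball 0 R) ≤ δ := by
  have v0 : volume (ball (0 : E d) R) ≠ 0 := (measure_ball_pos volume _ hR).ne'
  have v1 : volume (ball (0 : E d) R) ≠ ∞ := measure_ball_lt_top.ne
  have hδ' : ENNReal.ofReal δ ≠ 0 := by simpa using hδ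
  obtain ⟨w, D, j, r, r', a1, a2, a3, a4, h⟩ :=
    H17B.cov p hd hu (ball 0 R) (ENNReal.sub_lt_self v1 v0 hδ')
  refine ⟨w, D, j, r, r', a1, a2, a3, a4, ?_⟩
  have e : {x | ∃ c, x ∈ Den (Den (Pc u D (4 * D + p + 1) j (Cl c j w)) r) r'} ∩ ball 0 R =
      ⋃ c, Den (Den (Pc u D (4 * D + p + 1) j (Cl c j w)) r) r' ∩ ball 0 R := by
    ext x
    simp only [mem_inter_iff, mem_ofPred_eq, mem_iUnion, exists_and_right]
  rw [e] at h
  set U := ⋃ c, Den (Den (Pc u D (4 * D + p + 1) j (Cl c j w)) r) r' ∩ ball (0 : E d) R with hU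
  have hUs : U ⊆ ball 0 R := iUnion_subset fun c => inter_subset_right
  have hUm : MeasurableSet U := MeasurableSet.iUnion fun c =>
    ((sDen d _).1 ((sDen d _).1 (isClosed_pc sClo u D _ j c w) r) r').measurableSet.inter
      measurableSet_ball
  have f : volume U ≠ ∞ := ((measure_mono hUs).trans_lt measure_ball_lt_top).ne
  refine ENNReal.toReal_le_of_le_ofReal hδ.le ?_
  rw [measure_sdiff hUs hUm.nullMeasurableSet f, tsub_le_iff_left, ← tsub_le_iff_right]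
  exact h.le

/-- the cover. -/
theorem cov2 (d n p : ℕ) (P : E d → Matrix (Ix n) (Ix n) ℝ) (u : E d → Ix n → ℝ) (R δ : ℝ)
    (hd : 3 ≤ d) (hp : 1 ≤ p) (hP : Field P) (hu : JetField P u) (hR : 0 < R) (hδ : 0 < δ) :
    Concl P ∨ ∃ (Y : Fin 4 → Set (E d)) (β : Fin 4 → E d → E n),
      (∀ c, Pre (Y c) (β c) ∧ Van (Y c) (β c) p ∧ Y c ⊆ ball 0 R) ∧
      (∀ x ∈ Y 0, ‖β 0 x‖ ^ 2 = 1 / 2) ∧ (∀ x, β 1 x = 0) ∧ (∀ x, β 3 x = 0) ∧
      volume.real (ball (0 : E d) R \ ⋃ c, Y c) ≤ δ := by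
  have hRem := sRem sNull
  have hEdge := sEdge hRem sCoef (XI.sSig sNull)
  have hHol := sHol hRem sCoef
  have hd2 : 2 ≤ d := by omega
  have hU : UF u := XI.JetField.uf hu
  obtain ⟨w, D, j, r, r', hw, hj, hr, hr', hcov⟩ := lev p (by omega) hu hR hδ
  set K := 4 * D + p + 1 with hK
  set Z : Fin 4 → Set (E d) := fun c => Pc u D K j (Cl c j w) with hZ
  have hZc : ∀ c, IsClosed (Z c) := fun c => isClosed_pc sClo u D K j c w
  have hAc : ∀ c, IsClosed (Den (Z c) r) := fun c => (sDen d _).1 (hZc c) r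
  set Y : Fin 4 → Set (E d) := fun c => Den (Den (Z c) r) r' ∩ ball 0 R with hY
  have hYm : ∀ c, MeasurableSet (Y c) := fun c =>
    ((sDen d _).1 (hAc c) r').measurableSet.inter measurableSet_ball
  have hYb : ∀ c, Bornology.IsBounded (Y c) := fun c => isBounded_ball.subset inter_subset_right
  have key : ∀ (c : Fin 4) (V : E d → Ix n → ℝ) (β : E d → E n), Flat (Z c) V p → Measurable β →
      (∀ x ∈ Z c, ∀ y ∈ Z c, (1 - ‖β x - β y‖ ^ 2) ^ 2 = lz (V x) (V y) ^ 2) →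
      Pre (Y c) β ∧ Van (Y c) β p ∧ Y c ⊆ ball 0 R := by
    intro c V β hV hβ e
    obtain ⟨B, hB⟩ := sApx d n p (Z c) V r hr hV
    refine ⟨⟨hYm c, hYb c, hβ⟩, ⟨B, fun x hx y hy => ?_⟩, inter_subset_right⟩
    rw [e x hx.1.1.1 y hy.1.1.1]
    exact hB x hx.1.1 y hy.1.1
  obtain ⟨⟨V₀, hV₀, hV₀'⟩, hno⟩ := sDatE hEdge hHol sOne d n u hd2 hU D p j K hp hj (by omega) w hw
  obtain ⟨g, hg⟩ := sDatL hEdge hHol sOne d n u hd2 hU D p j K hp hj (by omega) w hw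
  rw [← cl_zero] at hV₀
  rw [← cl_one] at hno
  rw [← cl_two] at hg
  obtain ⟨β₀, m0, n0, e0⟩ := sgn0 hp (hZc 0) hV₀ hV₀'
  obtain ⟨β₂, m2, e2⟩ := sSgn d n p (Z 2) _ hp (hZc 2) hg (Or.inr ⟨g, rfl⟩)
  have k0 := key 0 V₀ β₀ hV₀ m0 e0
  have k1 := key 1 _ (fun _ => (0 : E n)) (MainA.flat_const p hno) measurable_const
    (fun x _ y _ => by rw [lz_lift])
  have k2 := key 2 _ β₂ hg m2 e2
  have hZ3 : Z 3 = Pc u D K j (Cl2 j) := by simp only [hZ, cl_three]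
  by_cases h : ∀ x ∈ Den (Z 3) r, ∀ x₁ ∈ Den (Z 3) r, ∀ x₂ ∈ Den (Z 3) r, ‖x₁ - x‖ = 1 →
      ‖x₂ - x‖ = 1 → x₁ ≠ x₂ → x₁ - x = -(x₂ - x)
  · obtain ⟨η, hη, e⟩ := sNoP d _ r' (hAc 3).measurableSet hr'
      (pair_null hd2 (hAc 3).measurableSet h)
    have k3 : Pre (Y 3) (fun _ => (0 : E n)) ∧ Van (Y 3) (fun _ => (0 : E n)) p ∧
        Y 3 ⊆ ball 0 R := by
      refine ⟨⟨hYm 3, hYb 3, measurable_const⟩,
        ⟨(η ^ p)⁻¹, fun x hx y hy => ?_⟩, inter_subset_right⟩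
      have := pow_le_pow_left₀ hη.le (e x hx.1 y hy.1) p
      rw [sub_self, norm_zero, ← div_eq_inv_mul, le_div_iff₀ (by positivity)]
      simpa using this
    refine Or.inr ⟨Y, ![β₀, fun _ => 0, β₂, fun _ => 0], fun c => ?_,
      fun x hx => n0 x hx.1.1.1, fun _ => rfl, fun _ => rfl, hcov⟩
    fin_cases c
    exacts [k0, k1, k2, k3]
  · push Not at h
    rw [hZ3] at h
    obtain ⟨x, hx, x₁, h1, x₂, h2, n1, n2, n3, n4⟩ := h
    obtain ⟨T, c, hT⟩ := posI d n u hd2 hU D K j r (by omega) hj hr x hx x₁ h1 x₂ h2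
      n1 n2 n3 n4
    refine Or.inl ⟨aff T c, fun x y => ?_, endI d n hd2 P u hP hu T c hT⟩
    simp only [aff, add_sub_add_right_eq_sub, ← map_sub, LinearIsometry.norm_map]

end Pool.Agent.MP_66cee2_co.B2K
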