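import Pool.Agent.MP_66cee2_co.B2K.Spec
import Pool.Agent.MP_66cee2_co.B2K.H6Cov

/-
The cover, in the wording of the list of statements.
-/

namespace Pool.Agent.MP_66cee2_co.B2K.H6

open MeasureTheory Set Filter Metric Topology Pool.Agent.MP_66cee2_co.X
  Pool.Agent.MP_66cee2_co.B

theorem sCovA : SCovA := by
  intro d n p P u R δ hd hp hP hu hR hδ
  rcases cov2 d n p P u R δ hd hp hP hu hR hδ with h | ⟨Y, β, h1, h2, h3, h4, h5⟩
  · exact Or.inl h
  refine Or.inr ⟨Y, β, h1, fun c hc => ?_, ?_⟩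
  · fin_cases c
    · exact ⟨1 / 2, le_rfl, h2⟩
    · exact ⟨0, by norm_num, fun x _ => by simpa using h3 x⟩
    · exact (hc rfl).elim
    · exact ⟨0, by norm_num, fun x _ => by simpa using h4 x⟩
  · have hUm : MeasurableSet (⋃ c, Y c) := MeasurableSet.iUnion fun c => (h1 c).1.ms
    have hUs : (⋃ c, Y c) ⊆ ball 0 R := iUnion_subset fun c => (h1 c).2.2
    rw [measureReal_sdiff hUs hUm measure_ball_lt_top.ne] at h5
    linarith

end Pool.Agent.MP_66cee2_co.B2K.H6
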