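import Pool.Agent.MP_66cee2_co.B2K.Spec
import Pool.Agent.MP_66cee2_co.B.Gauss

/-
Base two: no flat class of nearly full measure.
-/

namespace Pool.Agent.MP_66cee2_co.B2K.H71

open MeasureTheory Set Filter Metric Topology Polynomial Pool.Agent.MP_66cee2_co.X
  Pool.Agent.MP_66cee2_co.XI Pool.Agent.MP_66cee2_co.B
open scoped ENNReal RealInnerProductSpace

/-- the space coordinates in a frame. -/
noncomputable def uu {n : ℕ} (c : E n) (r : ℝ) (y : E n) : Option (Fin n) → ℝ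
  | none => vv c r y - r
  | some i => √2 * (y - c) i

theorem uu_id {n : ℕ} (c : E n) {r : ℝ} (hr : 0 < r) (y z : E n) :
    ∑ i, uu c r y i * uu c r z i - vv c r y * vv c r z = 1 - ‖y - z‖ ^ 2 := by
  have h1 : ‖y - z‖ ^ 2 = ‖y - c‖ ^ 2 - 2 * ⟪y - c, z - c⟫ + ‖z - c‖ ^ 2 := by
    rw [← norm_sub_sq_real, sub_sub_sub_cancel_right]
  have h2 : ∑ i, √2 * (y - c) i * (√2 * (z - c) i) = 2 * ⟪y - c, z - c⟫ := by
    rw [PiLp.inner_apply, Finset.mul_sum]
    refine Finset.sum_congr rfl fun i _ => ?_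
    have h : √2 * √2 = (2 : ℝ) := Real.mul_self_sqrt (by norm_num)
    simp only [RCLike.inner_apply, conj_trivial]
    linear_combination ((y - c) i * (z - c) i) * h
  rw [Fintype.sum_option]
  simp only [uu]
  rw [h2, h1]
  unfold vv
  field_simp
  ring

theorem uu_sq {n : ℕ} (c : E n) {r : ℝ} (hr : 0 < r) (y : E n) :
    ∑ i, uu c r y i ^ 2 = 1 + vv c r y ^ 2 := by
  have h := uu_id c hr y y
  simp only [sub_self, norm_zero, ← sq] at h
  linarith

theorem vv_meas {n : ℕ} (c : E n) (r : ℝ) : Measurable (vv c r) := by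
  unfold vv
  fun_prop

theorem uu_meas {n : ℕ} (c : E n) (r : ℝ) (i : Option (Fin n)) :
    Measurable fun y => uu c r y i := by
  cases i with
  | none => exact (vv_meas c r).sub_const r
  | some i =>
    simp only [uu]
    fun_prop

theorem WW_meas (v₀ : ℝ) : Measurable (WW v₀) := by
  unfold WW
  fun_prop

theorem WW_le {v₀ : ℝ} (h : 0 < v₀) (v : ℝ) : |WW v₀ v| ≤ 1 / (2 * v₀) := by
  unfold WW
  have hp : 0 < v ^ 2 + v₀ ^ 2 := by positivity
  rw [abs_div, abs_of_pos hp, div_le_div_iff₀ hp (by positivity), ← sq_abs v]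
  nlinarith [sq_nonneg (|v| - v₀)]

theorem q_mem {v₀ : ℝ} (h : 0 < v₀) (v : ℝ) : 0 ≤ WW v₀ v * v ∧ WW v₀ v * v ≤ 1 := by
  unfold WW
  have hp : 0 < v ^ 2 + v₀ ^ 2 := by positivity
  rw [div_mul_eq_mul_div, ← sq]
  exact ⟨by positivity, (div_le_one hp).2 (by nlinarith)⟩

theorem q_ge {v₀ s η : ℝ} (h : 0 < v₀) (hη : 0 ≤ η) (he : v₀ ^ 2 = s * η) {v : ℝ}
    (hv : s ≤ v ^ 2) : 1 - η ≤ WW v₀ v * v := by
  unfold WW
  have hp : 0 < v ^ 2 + v₀ ^ 2 := by positivity
  rw [div_mul_eq_mul_div, ← sq, le_div_iff₀ hp]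
  nlinarith [mul_nonneg hη (sub_nonneg.2 hv), mul_nonneg hη (sq_nonneg v₀)]

theorem flat {d n p : ℕ} {Y : Set (E d)} {β : E d → E n} (hV : Van Y β (2 * p)) :
    ∃ B : ℝ, ∀ x ∈ Y, ∀ y ∈ Y, |1 - ‖β x - β y‖ ^ 2| ≤ B * |‖x - y‖ ^ 2 - 1| ^ p := by
  obtain ⟨B, hB⟩ := hV
  refine ⟨√B, fun x hx y hy => ?_⟩
  have h := Real.abs_le_sqrt (hB x hx y hy)
  rwa [Real.sqrt_mul' _ (by positivity), mul_comm 2 p, pow_mul,
    Real.sqrt_sq (by positivity)] at h

theorem bound {d n p : ℕ} {Y : Set (E d)} {β : E d → E n} (hb : Bornology.IsBounded Y)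
    (hV : Van Y β (2 * p)) : ∃ A : ℝ, ∀ x ∈ Y, ‖β x‖ ≤ A := by
  rcases Y.eq_empty_or_nonempty with rfl | ⟨y, hy⟩
  · exact ⟨0, fun x hx => hx.elim⟩
  obtain ⟨B, hB⟩ := flat hV
  obtain ⟨R, hR⟩ := hb.exists_norm_le
  refine ⟨‖β y‖ + (|B| * ((2 * R) ^ 2 + 1) ^ p + 2), fun x hx => ?_⟩
  have h1 : ‖x - y‖ ≤ 2 * R := (norm_sub_le x y).trans (by linarith [hR x hx, hR y hy])
  have h2 : ‖x - y‖ ^ 2 ≤ (2 * R) ^ 2 := pow_le_pow_left₀ (norm_nonneg _) h1 2
  have h3 : |‖x - y‖ ^ 2 - 1| ≤ (2 * R) ^ 2 + 1 :=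
    abs_le.2 ⟨by nlinarith [sq_nonneg ‖x - y‖, sq_nonneg (2 * R)], by linarith⟩
  have h4 : B * |‖x - y‖ ^ 2 - 1| ^ p ≤ |B| * ((2 * R) ^ 2 + 1) ^ p :=
    mul_le_mul (le_abs_self B) (pow_le_pow_left₀ (abs_nonneg _) h3 p) (by positivity)
      (abs_nonneg B)
  have h5 := (abs_le.1 ((hB x hx y hy).trans h4)).1
  have h6 : ‖β x‖ ≤ ‖β y‖ + ‖β x - β y‖ := norm_le_norm_add_norm_sub' _ _
  nlinarith [sq_nonneg (‖β x - β y‖ - 1)]

theorem core {d n p : ℕ} (hK : SKar) {Y : Set (E d)} {β : E d → E n} {b η s A : ℝ} (hb : 0 < b)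
    (hP : Pre Y β) (hV : Van Y β (2 * p)) (hη : 0 < η) (hη' : η ≤ 1 / 10) (hs : 0 < s)
    (hs' : s ≤ 1) (hA : 1 / (4 * (s * η)) + 1 ≤ A)
    (hF : ∀ (Z : Set (E d)) (u : Option (Fin n) → E d → ℝ) (v : E d → ℝ), Bd Z u 2 →
      Measurable v → (∀ x ∈ Z, 1 ≤ ∑ i, u i x ^ 2) → (∀ x ∈ Z, v x ^ 2 ≤ s) → Fl Z u v p →
      ∫ x in Z, G d b x ≤ η)
    (hG : ∀ (f : Option (Fin n) → E d → ℝ) (q : E d → ℝ), Bd Y f A → Measurable q →
      (∀ x ∈ Y, 0 ≤ q x ∧ q x ≤ 1) → Fl Y f q p → 1 - 6 * η ≤ ∫ x in Y, G d b x * q x →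
      ¬ ∀ i, ∫ x in Y, G d b x * f i x = 0) :
    ∫ x in Y, G d b x < 1 - 4 * η := by
  by_contra hm
  rw [not_lt] at hm
  obtain ⟨gc, gp, gi, g1, -⟩ := sGauss d b hb
  obtain ⟨M, hM⟩ := bound hP.bdd hV
  obtain ⟨B, hB⟩ := flat hV
  set v₀ : ℝ := √(s * η) with hv₀
  have v0 : 0 < v₀ := Real.sqrt_pos.2 (by positivity)
  have v2 : v₀ ^ 2 = s * η := Real.sq_sqrt (by positivity)
  have gm : Measurable fun x => ENNReal.ofReal (G d b x) := gc.measurable.ennreal_ofReal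
  have : IsFiniteMeasure ((volume.restrict Y).withDensity fun x => ENNReal.ofReal (G d b x)) :=
    isFiniteMeasure_withDensity_ofReal gi.integrableOn.2
  have tr : ∀ f : E d → ℝ,
      ∫ x, f x ∂((volume.restrict Y).withDensity fun x => ENNReal.ofReal (G d b x)) =
        ∫ x in Y, G d b x * f x := fun f => by
    rw [integral_withDensity_eq_integral_toReal_smul gm
      (ae_of_all _ fun _ => ENNReal.ofReal_lt_top)]
    refine integral_congr_ae (ae_of_all _ fun x => ?_)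
    simp only [ENNReal.toReal_ofReal (gp x).le, smul_eq_mul]
  obtain ⟨c, r, hr, k1, k2, k3⟩ := hK (E d) n
    ((volume.restrict Y).withDensity fun x => ENNReal.ofReal (G d b x)) β M v₀ hP.meas
    ((withDensity_absolutelyContinuous _ _).ae_le (ae_restrict_of_forall_mem hP.ms hM)) v0
  have r0 : 0 < r := by linarith
  simp only [tr] at k1 k2 k3
  have vm : Measurable fun x => vv c r (β x) := (vv_meas c r).comp hP.meas
  have um : ∀ i, Measurable fun x => uu c r (β x) i := fun i => (uu_meas c r i).comp hP.meas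
  have wm : Measurable fun x => WW v₀ (vv c r (β x)) := (WW_meas v₀).comp vm
  have zm : MeasurableSet {x | vv c r (β x) ^ 2 ≤ s} :=
    measurableSet_le (vm.pow_const 2) measurable_const
  have hZ := hF (Y ∩ {x | vv c r (β x) ^ 2 ≤ s}) (fun i x => uu c r (β x) i)
    (fun x => vv c r (β x))
    ⟨hP.ms.inter zm, hP.bdd.subset inter_subset_left, um, fun x hx => by
      have h : vv c r (β x) ^ 2 ≤ s := hx.2
      rw [uu_sq c r0]
      linarith⟩ vm
    (fun x _ => by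
      rw [uu_sq c r0]
      linarith [sq_nonneg (vv c r (β x))]) (fun x hx => hx.2)
    ⟨B, fun x hx y hy => by
      rw [uu_id c r0]
      exact hB x hx.1 y hy.1⟩
  have ib : ∀ (f : E d → ℝ) (C : ℝ), Measurable f → (∀ x, |f x| ≤ C) →
      Integrable fun x => G d b x * f x := fun f C hf hC =>
    gi.mul_bdd hf.aestronglyMeasurable (ae_of_all _ hC)
  have iq := ib (fun x => WW v₀ (vv c r (β x)) * vv c r (β x)) 1 (wm.mul vm) fun x =>
    abs_le.2 ⟨by linarith [(q_mem v0 (vv c r (β x))).1], (q_mem v0 _).2⟩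
  have iw := ib (fun x => WW v₀ (vv c r (β x))) _ wm fun x => WW_le v0 _
  have m1 : ∫ x in Y, G d b x ≤ 1 :=
    (setIntegral_le_integral gi (ae_of_all _ fun x => (gp x).le)).trans g1.le
  have sp := integral_inter_add_sdiff (μ := volume) (s := Y) zm gi.integrableOn
  have q1 : (1 - η) * ∫ x in Y \ {x | vv c r (β x) ^ 2 ≤ s}, G d b x ≤
      ∫ x in Y \ {x | vv c r (β x) ^ 2 ≤ s},
        G d b x * (WW v₀ (vv c r (β x)) * vv c r (β x)) := by
    rw [← integral_const_mul]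
    refine setIntegral_mono_on (gi.const_mul _).integrableOn iq.integrableOn (hP.ms.diff zm)
      fun x hx => ?_
    have h : ¬ vv c r (β x) ^ 2 ≤ s := hx.2
    rw [mul_comm]
    exact mul_le_mul_of_nonneg_left (q_ge v0 hη.le v2 (not_le.1 h).le) (gp x).le
  have q2 : ∫ x in Y \ {x | vv c r (β x) ^ 2 ≤ s},
      G d b x * (WW v₀ (vv c r (β x)) * vv c r (β x)) ≤
      ∫ x in Y, G d b x * (WW v₀ (vv c r (β x)) * vv c r (β x)) :=
    setIntegral_mono_set iq.integrableOn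
      (ae_of_all _ fun x => mul_nonneg (gp x).le (q_mem v0 _).1) sdiff_subset.eventuallyLE
  have q3 : 1 - 6 * η ≤ ∫ x in Y, G d b x * (WW v₀ (vv c r (β x)) * vv c r (β x)) := by
    have h : (1 - η) * (1 - 5 * η) ≤
        (1 - η) * ∫ x in Y \ {x | vv c r (β x) ^ 2 ≤ s}, G d b x :=
      mul_le_mul_of_nonneg_left (by linarith) (by linarith)
    nlinarith [sq_nonneg η]
  have hr' : v₀ / 2 < r := by
    refine lt_of_le_of_ne hr fun e => ?_
    have e1 : ∫ x in Y, G d b x * (WW v₀ (vv c r (β x)) * (vv c r (β x) - r)) =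
        (∫ x in Y, G d b x * (WW v₀ (vv c r (β x)) * vv c r (β x))) -
          r * ∫ x in Y, G d b x * WW v₀ (vv c r (β x)) := by
      rw [← integral_const_mul, ← integral_sub iq.integrableOn (iw.const_mul r).integrableOn]
      refine integral_congr_ae (ae_of_all _ fun x => ?_)
      simp only
      ring
    have e2 : ∫ x in Y, G d b x * WW v₀ (vv c r (β x)) ≤ 1 / (2 * v₀) * ∫ x in Y, G d b x := by
      rw [← integral_const_mul]
      refine setIntegral_mono_on iw.integrableOn (gi.const_mul _).integrableOn hP.ms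
        fun x _ => ?_
      rw [mul_comm]
      exact mul_le_mul_of_nonneg_right ((le_abs_self _).trans (WW_le v0 _)) (gp x).le
    have e3 : r * (1 / (2 * v₀)) = 1 / 4 := by
      rw [← e]
      field_simp
      norm_num
    have e4 := mul_le_mul_of_nonneg_left e2 r0.le
    rw [← mul_assoc, e3] at e4
    rw [e1] at k2
    linarith
  refine hG (fun i x => WW v₀ (vv c r (β x)) * uu c r (β x) i)
    (fun x => WW v₀ (vv c r (β x)) * vv c r (β x))
    ⟨hP.ms, hP.bdd, fun i => wm.mul (um i), fun x _ => ?_⟩ (wm.mul vm) (fun x _ => q_mem v0 _)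
    ⟨1 / (2 * v₀) * (1 / (2 * v₀)) * B, fun x hx y hy => ?_⟩ q3 fun i => ?_
  · simp only [mul_pow]
    rw [← Finset.mul_sum, uu_sq c r0]
    have h1 := pow_le_pow_left₀ (abs_nonneg _) (WW_le v0 (vv c r (β x))) 2
    rw [sq_abs, div_pow, mul_pow, v2] at h1
    obtain ⟨h2, h3⟩ := q_mem v0 (vv c r (β x))
    have h4 := pow_le_one₀ (n := 2) h2 h3
    rw [mul_pow] at h4
    norm_num at h1 hA ⊢
    linarith
  · have e : ∑ i, WW v₀ (vv c r (β x)) * uu c r (β x) i * (WW v₀ (vv c r (β y)) * uu c r (β y) i) -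
        WW v₀ (vv c r (β x)) * vv c r (β x) * (WW v₀ (vv c r (β y)) * vv c r (β y)) =
        WW v₀ (vv c r (β x)) * WW v₀ (vv c r (β y)) * (1 - ‖β x - β y‖ ^ 2) := by
      rw [← uu_id c r0, mul_sub, Finset.mul_sum]
      congr 1
      · exact Finset.sum_congr rfl fun i _ => by ring
      · ring
    rw [e, abs_mul, abs_mul, mul_assoc _ B]
    exact mul_le_mul (mul_le_mul (WW_le v0 _) (WW_le v0 _) (abs_nonneg _) (by positivity))
      (hB x hx y hy) (abs_nonneg _) (by positivity)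
  · cases i with
    | none => exact k3 hr'
    | some i =>
      have e : ∫ x in Y, G d b x * (WW v₀ (vv c r (β x)) * uu c r (β x) (some i)) =
          √2 * ∫ x in Y, G d b x * (WW v₀ (vv c r (β x)) * (β x - c) i) := by
        rw [← integral_const_mul]
        refine integral_congr_ae (ae_of_all _ fun x => ?_)
        simp only [uu]
        ring
      rw [e, k1 i, mul_zero]

theorem sFull (hK : SKar) (hF : SFin) (hG : SGap) : SFull := by
  filter_upwards [hF, hG, eventually_ge_atTop 2] with l hF hG hl n Y β hn hP hV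
  have l2 : (2 : ℝ) ≤ l := by exact_mod_cast hl
  obtain ⟨D, hD⟩ : ∃ D : ℝ, D = 2 * l + 3 := ⟨_, rfl⟩
  have hb : 0 < bb l := by
    unfold bb
    positivity
  rw [← hD] at hF hG hn ⊢
  have d7 : 7 ≤ D := by linarith
  have d0 : 0 < D := by linarith
  have d6 : 10 ≤ D ^ 6 := le_trans (by norm_num) (pow_le_pow_left₀ (by norm_num) d7 6)
  have t1 : (1 : ℝ) ≤ 2 ^ l := one_le_pow₀ (by norm_num)
  have h := core (n := n) (p := l + 2) (η := 1 / D ^ 6) (s := 1 / 2 ^ l) (A := D ^ 7 * 2 ^ l) hK hb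
    hP hV (by positivity) (one_div_le_one_div_of_le (by norm_num) d6) (by positivity)
    ((div_le_one (by positivity)).2 t1) ?_ (fun Z u v h1 h2 h3 h4 h5 => ?_)
    (fun f q h1 h2 h3 h4 h5 => hG _ Y f q h1 h2 h3 h4 (le_trans ?_ h5))
  · rwa [mul_one_div] at h
  · have e : 1 / (4 * (1 / (2 : ℝ) ^ l * (1 / D ^ 6))) = D ^ 6 * 2 ^ l / 4 := by field_simp
    have h1 : 10 * 1 ≤ D ^ 6 * 2 ^ l := mul_le_mul d6 t1 (by norm_num) (by positivity)
    have h2 : 7 * (D ^ 6 * 2 ^ l) ≤ D * (D ^ 6 * 2 ^ l) :=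
      mul_le_mul_of_nonneg_right d7 (by positivity)
    rw [e]
    nlinarith
  · have h6 := hF _ Z u v h1 h2 h3 h4 h5
    rw [Fintype.card_option, Fintype.card_fin] at h6
    push_cast at h6
    have h7 : ((n : ℝ) + 1) * (4000 * D ^ 4 / 4 ^ l) ≤ (1 / D ^ 6) ^ 2 := by
      rw [← mul_div_assoc, div_pow, div_le_div_iff₀ (by positivity) (by positivity)]
      nlinarith
    exact le_of_sq_le_sq (h6.trans h7) (by positivity)
  · have h6 : 6 * (1 / D ^ 6) ≤ 1 / D ^ 5 := by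
      rw [mul_one_div, div_le_div_iff₀ (by positivity) (by positivity)]
      nlinarith [pow_pos d0 5]
    linarith

end Pool.Agent.MP_66cee2_co.B2K.H71
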