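import Pool.Agent.MP_66cee2_co.B2K.Spec
import Pool.Agent.MP_66cee2_co.B2K.H6Lin

/-
Base two: no flat class of nearly full measure.
-/

namespace Pool.Agent.MP_66cee2_co.B2K.H74

open MeasureTheory Set Filter Metric Topology Pool.Agent.MP_66cee2_co.X
  Pool.Agent.MP_66cee2_co.XI Pool.Agent.MP_66cee2_co.B
open scoped ENNReal RealInnerProductSpace

/-- the space part of the label. -/
noncomputable def uu {n : ℕ} (c : E n) (r : ℝ) (i : Option (Fin n)) (y : E n) : ℝ :=
  match i with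
  | none => vv c r y - r
  | some i => √2 * (y - c) i

theorem uu_sum {n : ℕ} (c : E n) {r : ℝ} (hr : r ≠ 0) (y z : E n) :
    ∑ i, uu c r i y * uu c r i z - vv c r y * vv c r z = 1 - ‖y - z‖ ^ 2 := by
  have h2 : √2 * √2 = (2 : ℝ) := Real.mul_self_sqrt (by norm_num)
  have e1 : ∑ i : Fin n, uu c r (some i) y * uu c r (some i) z =
      2 * ∑ i : Fin n, (y - c) i * (z - c) i := by
    rw [Finset.mul_sum]
    refine Finset.sum_congr rfl fun i _ => ?_
    simp only [uu]
    linear_combination ((y - c) i * (z - c) i) * h2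
  have e2 : ‖y - z‖ ^ 2 = ‖y - c‖ ^ 2 + ‖z - c‖ ^ 2 - 2 * ∑ i : Fin n, (y - c) i * (z - c) i := by
    rw [EuclideanSpace.real_norm_sq_eq, EuclideanSpace.real_norm_sq_eq,
      EuclideanSpace.real_norm_sq_eq, Finset.mul_sum, ← Finset.sum_add_distrib,
      ← Finset.sum_sub_distrib]
    refine Finset.sum_congr rfl fun i _ => ?_
    simp only [PiLp.sub_apply]
    ring
  rw [Fintype.sum_option, e1, e2]
  simp only [uu, vv]
  field_simp
  ring

theorem uu_sq {n : ℕ} (c : E n) {r : ℝ} (hr : r ≠ 0) (y : E n) :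
    ∑ i, uu c r i y ^ 2 = 1 + vv c r y ^ 2 := by
  have := uu_sum c hr y y
  simp only [sub_self, norm_zero] at this
  simp only [sq]
  linarith

theorem vv_cont {n : ℕ} (c : E n) (r : ℝ) : Continuous (vv c r) := by
  unfold vv
  fun_prop

theorem uu_cont {n : ℕ} (c : E n) (r : ℝ) (i : Option (Fin n)) : Continuous (uu c r i) := by
  cases i with
  | none => exact (vv_cont c r).sub continuous_const
  | some i =>
    change Continuous fun y : E n => √2 * (y - c) i
    fun_prop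

theorem WW_meas (v₀ : ℝ) : Measurable (WW v₀) := by
  unfold WW
  fun_prop

theorem WW_abs {v₀ : ℝ} (h : 0 < v₀) (v : ℝ) : |WW v₀ v| ≤ 1 / (2 * v₀) := by
  unfold WW
  have h1 : 0 < v ^ 2 + v₀ ^ 2 := by positivity
  rw [abs_div, abs_of_pos h1, div_le_div_iff₀ h1 (by positivity)]
  nlinarith [sq_nonneg (|v| - v₀), sq_abs v]

theorem q_mem {v₀ : ℝ} (h : 0 < v₀) (v : ℝ) : 0 ≤ WW v₀ v * v ∧ WW v₀ v * v ≤ 1 := by
  unfold WW
  have h1 : 0 < v ^ 2 + v₀ ^ 2 := by positivity
  rw [div_mul_eq_mul_div]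
  refine ⟨div_nonneg (mul_self_nonneg v) h1.le, ?_⟩
  rw [div_le_one h1]
  nlinarith [sq_nonneg v₀]

theorem q_ge {v₀ η : ℝ} (h : 0 < v₀) (hη : 0 < η) (v : ℝ) (hv : v₀ ^ 2 ≤ η * v ^ 2) :
    1 - η ≤ WW v₀ v * v := by
  unfold WW
  have h1 : 0 < v ^ 2 + v₀ ^ 2 := by positivity
  rw [div_mul_eq_mul_div, le_div_iff₀ h1]
  nlinarith [mul_pos hη (pow_pos h 2)]

theorem int_dens {d : ℕ} (Y : Set (E d)) {g : E d → ℝ} (hg : Measurable g) (h0 : ∀ x, 0 ≤ g x)
    (f : E d → ℝ) :
    ∫ x, f x ∂((volume.restrict Y).withDensity fun x => ENNReal.ofReal (g x)) =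
      ∫ x in Y, g x * f x := by
  rw [integral_withDensity_eq_integral_toReal_smul hg.ennreal_ofReal
    (Eventually.of_forall fun _ => ENNReal.ofReal_lt_top)]
  simp only [ENNReal.toReal_ofReal (h0 _), smul_eq_mul]

theorem sFull : SKar → SFin → SGap → SFull := by
  intro hK hF hG
  filter_upwards [hF, hG, eventually_ge_atTop 2] with l hF hG hl n Y β hn hP hV
  by_contra hcon
  push Not at hcon
  obtain ⟨D, hD⟩ : ∃ D : ℝ, D = 2 * l + 3 := ⟨_, rfl⟩
  have hD7 : 7 ≤ D := by
    have : (2 : ℝ) ≤ l := by exact_mod_cast hl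
    linarith
  have hD0 : 0 < D := by linarith
  rw [← hD] at hF hG hn hcon
  have hb : 0 < bb l := by
    unfold bb
    positivity
  obtain ⟨gc, gp, gi, g1, -⟩ := sGauss (2 * l + 3) (bb l) hb
  obtain ⟨g, hg⟩ : ∃ g : E (2 * l + 3) → ℝ, g = G _ (bb l) := ⟨_, rfl⟩
  rw [← hg] at gc gp gi g1 hF hG hcon
  obtain ⟨A, -, hA⟩ := H6.bdd hP hV
  obtain ⟨B, hB0, hB⟩ := H6.van_lin hV
  have h2l : (1 : ℝ) ≤ 2 ^ l := one_le_pow₀ (by norm_num)
  obtain ⟨η, hη⟩ : ∃ η : ℝ, η = 1 / D ^ 6 := ⟨_, rfl⟩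
  have hη0 : 0 < η := by
    rw [hη]
    positivity
  obtain ⟨v₀, hv0, hv2⟩ : ∃ v₀ : ℝ, 0 < v₀ ∧ v₀ ^ 2 = η * (1 / 2 ^ l) :=
    ⟨√(η * (1 / 2 ^ l)), by positivity, Real.sq_sqrt (by positivity)⟩
  haveI : IsFiniteMeasure ((volume.restrict Y).withDensity fun x => ENNReal.ofReal (g x)) :=
    isFiniteMeasure_withDensity_ofReal gi.integrableOn.2
  obtain ⟨c, r, hr, k1, k2, k3⟩ := hK (E (2 * l + 3)) n
    ((volume.restrict Y).withDensity fun x => ENNReal.ofReal (g x)) β A v₀ hP.meas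
    ((withDensity_absolutelyContinuous _ _).ae_le ((ae_restrict_iff' hP.ms).2
      (Eventually.of_forall hA))) hv0
  simp only [int_dens Y gc.measurable fun x => (gp x).le] at k1 k2 k3
  have hr0 : r ≠ 0 := by
    have : 0 < r := by linarith
    exact this.ne'
  have mv : Measurable fun x => vv c r (β x) := (vv_cont c r).measurable.comp hP.meas
  have mu : ∀ i, Measurable fun x => uu c r i (β x) :=
    fun i => (uu_cont c r i).measurable.comp hP.meas
  have mW : Measurable fun x => WW v₀ (vv c r (β x)) := (WW_meas v₀).comp mv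
  obtain ⟨T, hT⟩ : ∃ T : Set (E (2 * l + 3)), T = {x | vv c r (β x) ^ 2 ≤ 1 / 2 ^ l} := ⟨_, rfl⟩
  have mT : MeasurableSet T := by
    rw [hT]
    exact measurableSet_le (mv.pow_const 2) measurable_const
  have hTm : ∀ x, x ∈ T ↔ vv c r (β x) ^ 2 ≤ 1 / 2 ^ l := fun x => by rw [hT]; rfl
  have h1l : (1 : ℝ) / 2 ^ l ≤ 1 := by
    rw [div_le_one (by positivity)]
    exact h2l
  have hsmall := hF (Option (Fin n)) (T ∩ Y) (fun i x => uu c r i (β x))
    (fun x => vv c r (β x)) ⟨mT.inter hP.ms, hP.bdd.subset inter_subset_right, mu, fun x hx => by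
      rw [uu_sq c hr0]
      linarith [(hTm x).1 hx.1]⟩ mv (fun x _ => by
      rw [uu_sq c hr0]
      linarith [sq_nonneg (vv c r (β x))]) (fun x hx => (hTm x).1 hx.1)
    ⟨B, fun x hx y hy => by
      rw [uu_sum c hr0]
      exact hB x hx.2 y hy.2⟩
  have hY1 : ∫ x in T ∩ Y, g x ≤ η := by
    refine (abs_le_of_sq_le_sq' (hsmall.trans ?_) hη0.le).2
    rw [Fintype.card_option, Fintype.card_fin, hη, ← mul_div_assoc, div_pow,
      div_le_div_iff₀ (by positivity) (by positivity)]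
    push_cast
    calc ((n : ℝ) + 1) * (4000 * D ^ 4) * (D ^ 6) ^ 2 = (n + 1) * (4000 * D ^ 16) := by ring
      _ ≤ 4 ^ l := hn
      _ = 1 ^ 2 * 4 ^ l := by ring
  have giY : IntegrableOn g Y := gi.integrableOn
  have gY1 : ∫ x in Y, g x ≤ 1 := by
    rw [← g1]
    exact setIntegral_le_integral gi (Eventually.of_forall fun x => (gp x).le)
  have ib : ∀ (f : E (2 * l + 3) → ℝ) (C : ℝ), Measurable f → (∀ x, |f x| ≤ C) →
      IntegrableOn (fun x => g x * f x) Y := fun f C hf hC =>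
    giY.mul_bdd hf.aestronglyMeasurable (Eventually.of_forall fun x => hC x)
  have iq : IntegrableOn (fun x => g x * (WW v₀ (vv c r (β x)) * vv c r (β x))) Y :=
    ib _ 1 (mW.mul mv) fun x => by
      rw [abs_of_nonneg (q_mem hv0 _).1]
      exact (q_mem hv0 _).2
  have hη1 : η ≤ 1 / 7 * (1 / D ^ 5) := by
    rw [hη, div_mul_div_comm, one_mul]
    refine one_div_le_one_div_of_le (by positivity) ?_
    calc 7 * D ^ 5 ≤ D * D ^ 5 := by gcongr
      _ = D ^ 6 := by ring
  have hD5 : 1 / D ^ 5 ≤ 1 / 2 := by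
    refine one_div_le_one_div_of_le (by norm_num) ?_
    calc (2 : ℝ) ≤ 7 ^ 5 := by norm_num
      _ ≤ D ^ 5 := by gcongr
  have hq : 1 - 1 / D ^ 5 ≤ ∫ x in Y, g x * (WW v₀ (vv c r (β x)) * vv c r (β x)) := by
    have e1 : ∫ x in Y, ((1 - η) * g x - T.indicator g x) =
        (1 - η) * (∫ x in Y, g x) - ∫ x in T ∩ Y, g x := by
      rw [integral_sub (giY.const_mul _) (giY.indicator mT), integral_const_mul,
        integral_indicator mT, Measure.restrict_restrict mT]
    have e2 : ∫ x in Y, ((1 - η) * g x - T.indicator g x) ≤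
        ∫ x in Y, g x * (WW v₀ (vv c r (β x)) * vv c r (β x)) := by
      refine integral_mono ((giY.const_mul _).sub (giY.indicator mT)) iq fun x => ?_
      have q0 := (q_mem hv0 (vv c r (β x))).1
      by_cases hx : x ∈ T
      · simp only [indicator_of_mem hx]
        nlinarith [mul_nonneg (gp x).le q0, mul_pos hη0 (gp x)]
      · simp only [indicator_of_notMem hx]
        have h1 : 1 / 2 ^ l ≤ vv c r (β x) ^ 2 := (not_le.1 fun h => hx ((hTm x).2 h)).le
        have h2 := q_ge hv0 hη0 (vv c r (β x)) (by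
          rw [hv2]
          exact mul_le_mul_of_nonneg_left h1 hη0.le)
        nlinarith [mul_le_mul_of_nonneg_left h2 (gp x).le]
    have e3 : 4 / D ^ 6 = 4 * η := by
      rw [hη]
      ring
    rw [e3] at hcon
    nlinarith [mul_le_mul_of_nonneg_left gY1 hη0.le]
  have hrr : v₀ / 2 < r := by
    refine lt_of_le_of_ne hr fun h => ?_
    have iW : IntegrableOn (fun x => g x * WW v₀ (vv c r (β x))) Y :=
      ib _ _ mW fun x => WW_abs hv0 _
    have e1 : ∫ x in Y, (g x * (WW v₀ (vv c r (β x)) * vv c r (β x)) - 1 / 4 * g x) ≤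
        ∫ x in Y, g x * (WW v₀ (vv c r (β x)) * (vv c r (β x) - r)) := by
      refine integral_mono (iq.sub (giY.const_mul _))
        ((iq.sub (iW.const_mul r)).congr (Eventually.of_forall fun x => ?_)) fun x => ?_
      · simp only [Pi.sub_apply]
        ring
      · have h1 := (abs_le.1 (WW_abs hv0 (vv c r (β x)))).2
        have h2 : WW v₀ (vv c r (β x)) * r ≤ 1 / 4 := by
          calc WW v₀ (vv c r (β x)) * r ≤ 1 / (2 * v₀) * r := by
                gcongr
                linarith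
            _ = 1 / 4 := by
              rw [← h]
              field_simp
              norm_num
        nlinarith [mul_le_mul_of_nonneg_left h2 (gp x).le]
    rw [integral_sub iq (giY.const_mul _), integral_const_mul] at e1
    linarith
  have hW2 : ∀ v, WW v₀ v ^ 2 ≤ D ^ 6 * 2 ^ l := by
    intro v
    have h1 : WW v₀ v ^ 2 ≤ (1 / (2 * v₀)) ^ 2 := by
      rw [← sq_abs]
      gcongr
      exact WW_abs hv0 v
    refine h1.trans ?_
    rw [div_pow, mul_pow, hv2, hη, div_le_iff₀ (by positivity)]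
    field_simp
    norm_num
  refine hG (Option (Fin n)) Y (fun i x => WW v₀ (vv c r (β x)) * uu c r i (β x))
    (fun x => WW v₀ (vv c r (β x)) * vv c r (β x))
    ⟨hP.ms, hP.bdd, fun i => mW.mul (mu i), fun x _ => ?_⟩ (mW.mul mv)
    (fun x _ => q_mem hv0 _) ⟨1 / (2 * v₀) * (1 / (2 * v₀)) * B, fun x hx y hy => ?_⟩ hq
    fun i => ?_
  · simp only [mul_pow]
    rw [← Finset.mul_sum, uu_sq c hr0]
    have q0 := q_mem hv0 (vv c r (β x))
    have h1 := hW2 (vv c r (β x))
    have h2 : (WW v₀ (vv c r (β x)) * vv c r (β x)) ^ 2 ≤ 1 := by nlinarith [q0.1, q0.2]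
    have h3 : 1 ≤ D ^ 6 * 2 ^ l := by
      have : (1 : ℝ) ≤ D ^ 6 := one_le_pow₀ (by linarith)
      nlinarith
    have h4 : D ^ 7 * 2 ^ l = D * (D ^ 6 * 2 ^ l) := by ring
    rw [h4]
    nlinarith
  · have e : ∑ i, WW v₀ (vv c r (β x)) * uu c r i (β x) * (WW v₀ (vv c r (β y)) * uu c r i (β y)) -
        WW v₀ (vv c r (β x)) * vv c r (β x) * (WW v₀ (vv c r (β y)) * vv c r (β y)) =
        WW v₀ (vv c r (β x)) * WW v₀ (vv c r (β y)) * (1 - ‖β x - β y‖ ^ 2) := by
      rw [← uu_sum c hr0, mul_sub, Finset.mul_sum]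
      congr 1
      · exact Finset.sum_congr rfl fun i _ => by ring
      · ring
    rw [e, abs_mul, abs_mul, mul_assoc (1 / (2 * v₀) * (1 / (2 * v₀)))]
    gcongr
    · exact WW_abs hv0 _
    · exact WW_abs hv0 _
    · exact hB x hx y hy
  · cases i with
    | none => exact k3 hrr
    | some i =>
      have e : ∀ x, g x * (WW v₀ (vv c r (β x)) * uu c r (some i) (β x)) =
          √2 * (g x * (WW v₀ (vv c r (β x)) * (β x - c) i)) := fun x => by
        simp only [uu]
        ring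
      simp only [e]
      rw [integral_const_mul, k1 i, mul_zero]

end Pool.Agent.MP_66cee2_co.B2K.H74
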