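import Pool.Agent.MP_66cee2_co.B2K.H7Ga
import Pool.Agent.MP_66cee2_co.B2L.LP
import Pool.Agent.MP_66cee2_co.B.Gauss

/-
The two-sided Gaussian test for flat kernels of finite rank.
-/

namespace Pool.Agent.MP_66cee2_co.B2K.H7

open MeasureTheory Polynomial Pool.Agent.MP_66cee2_co.X Pool.Agent.MP_66cee2_co.B

theorem two {l : ℕ} (hl : 1 ≤ l) {a : ℝ} (h1 : 37 / 50 * l ≤ a) (h2 : a ≤ 9 / 10 * l)
    {ι τ : Type} [Fintype ι] [Fintype τ] {Y : Set (E (2 * l + 3))}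
    (hY : MeasurableSet Y) (hb : Bornology.IsBounded Y) {f : ι → E (2 * l + 3) → ℝ}
    {g : τ → E (2 * l + 3) → ℝ} (hf : ∀ i, Measurable (f i)) (hg : ∀ j, Measurable (g j))
    {C : ℝ} (hfC : ∀ i x, |f i x| ≤ C) (hgC : ∀ j x, |g j x| ≤ C) {B : ℝ}
    (hB : ∀ x ∈ Y, ∀ y ∈ Y, |∑ i, f i x * f i y - ∑ j, g j x * g j y| ≤
      B * |‖x - y‖ ^ 2 - 1| ^ (l + 2)) :
    |∫ x in Y, ∫ y in Y, G (2 * l + 3) a (y - x) *
        (∑ i, f i x * f i y - ∑ j, g j x * g j y)| ≤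
      10 * l * Real.exp (-(37 / 50 * l)) *
        ((∫ x in Y, ∑ i, f i x ^ 2) + ∫ x in Y, ∑ j, g j x ^ 2) := by
  have l1 : (1 : ℝ) ≤ l := by exact_mod_cast hl
  obtain ⟨r, hr, h⟩ := gaA l hl a h1 h2
  obtain ⟨gc, -, gi, -, gt⟩ := sGauss (2 * l + 3) a (by linarith)
  have m0 : 0 ≤ 10 * l * Real.exp (-(37 / 50 * l : ℝ)) := by positivity
  have u1 : ∀ ξ : E (2 * l + 3), ct (G (2 * l + 3) a) ξ ≤ √(a / Real.pi) *
      Phi (r.comp (X ^ 2)) ‖ξ‖ + 10 * l * Real.exp (-(37 / 50 * l)) := fun ξ => by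
    rw [gt]
    linarith [(abs_le.1 (h ‖ξ‖)).1]
  have u2 : ∀ ξ : E (2 * l + 3), √(a / Real.pi) * Phi (r.comp (X ^ 2)) ‖ξ‖ -
      10 * l * Real.exp (-(37 / 50 * l)) ≤ ct (G (2 * l + 3) a) ξ := fun ξ => by
    rw [gt]
    linarith [(abs_le.1 (h ‖ξ‖)).2]
  have e1 := B2L.lp2 hY hb hf hg hfC hgC hB gc gi m0 m0 hr u1 u2
  have e2 := B2L.lp2 hY hb hg hf hgC hfC (B := B)
    (fun x hx y hy => by rw [abs_sub_comm]; exact hB x hx y hy) gc gi m0 m0 hr u1 u2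
  have e3 : ∫ x in Y, ∫ y in Y, G (2 * l + 3) a (y - x) *
      (∑ j, g j x * g j y - ∑ i, f i x * f i y) = -∫ x in Y, ∫ y in Y, G (2 * l + 3) a (y - x) *
        (∑ i, f i x * f i y - ∑ j, g j x * g j y) := by
    rw [← integral_neg]
    refine integral_congr_ae (ae_of_all _ fun x => ?_)
    simp only
    rw [← integral_neg]
    exact integral_congr_ae (ae_of_all _ fun y => by simp only; ring)
  rw [e3] at e2
  rw [mul_add]
  exact abs_le.2 ⟨by linarith, e1⟩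

end Pool.Agent.MP_66cee2_co.B2K.H7
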