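import Pool.Agent.MP_66cee2_co.B2K.Spec
import Pool.Agent.MP_66cee2_co.B2L.LPG

/-
Base two: the linear programme in a Gaussian window.
-/

namespace Pool.Agent.MP_66cee2_co.B2K

open MeasureTheory Set Filter Metric Topology Polynomial Pool.Agent.MP_66cee2_co.X
  Pool.Agent.MP_66cee2_co.B

namespace LPx

variable {d : ℕ} {ι : Type} [Fintype ι] {Y : Set (E d)} {f : ι → E d → ℝ} {w : E d → ℝ} {A C : ℝ}

/-- the weighted family. -/
noncomputable def wt (Y : Set (E d)) (w : E d → ℝ) (f : ι → E d → ℝ) (i : ι) : E d → ℝ :=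
  Y.indicator fun x => w x * f i x

theorem wt_meas (h : Bd Y f A) (hw : Continuous w) (i : ι) : Measurable (wt Y w f i) :=
  (hw.measurable.mul (h.meas i)).indicator h.ms

theorem wt_bd (h : Bd Y f A) (hC : ∀ x, |w x| ≤ C) {D : ℝ} (hA : 0 ≤ A) (hD : A ≤ D) (i : ι)
    (x : E d) : |wt Y w f i x| ≤ C * (1 + D) := by
  have h0 : 0 ≤ C := (abs_nonneg _).trans (hC x)
  by_cases hx : x ∈ Y
  · rw [wt, indicator_of_mem hx, abs_mul]
    have h1 : f i x ^ 2 ≤ A := (Finset.single_le_sum (f := fun i => f i x ^ 2)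
      (fun i _ => sq_nonneg _) (Finset.mem_univ i)).trans (h.sq x hx)
    refine mul_le_mul (hC x) (abs_le.2 ⟨?_, ?_⟩) (abs_nonneg _) h0
    · nlinarith [sq_nonneg (f i x + 1)]
    · nlinarith [sq_nonneg (f i x - 1)]
  · rw [wt, indicator_of_notMem hx, abs_zero]
    exact mul_nonneg h0 (by linarith)

theorem wt_sum {x y : E d} (hx : x ∈ Y) (hy : y ∈ Y) :
    ∑ i, wt Y w f i x * wt Y w f i y = w x * w y * ∑ i, f i x * f i y := by
  rw [Finset.mul_sum]
  refine Finset.sum_congr rfl fun i _ => ?_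
  rw [wt, indicator_of_mem hx, indicator_of_mem hy]
  ring

theorem wt_sq (h : Bd Y f A) (hA : 0 ≤ A) (hi : Integrable fun x => w x ^ 2) {L : ℝ}
    (hL : ∫ x, w x ^ 2 ≤ L) : ∫ x in Y, ∑ i, wt Y w f i x ^ 2 ≤ A * L := by
  have h1 : ∫ x in Y, ∑ i, wt Y w f i x ^ 2 ≤ ∫ x in Y, A * w x ^ 2 := by
    refine integral_mono_of_nonneg (ae_of_all _ fun x => Finset.sum_nonneg fun i _ => sq_nonneg _)
      (hi.const_mul A).integrableOn ?_
    filter_upwards [ae_restrict_mem h.ms] with x hx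
    have e := wt_sum (w := w) (f := f) hx hx
    simp only [← sq] at e
    rw [e, mul_comm A]
    exact mul_le_mul_of_nonneg_left (h.sq x hx) (sq_nonneg _)
  have h2 : ∫ x in Y, A * w x ^ 2 ≤ ∫ x, A * w x ^ 2 :=
    setIntegral_le_integral (hi.const_mul A) (ae_of_all _ fun x => mul_nonneg hA (sq_nonneg _))
  have h3 : ∫ x, A * w x ^ 2 = A * ∫ x, w x ^ 2 := integral_const_mul _ _
  exact (h1.trans (h2.trans_eq h3)).trans (mul_le_mul_of_nonneg_left hL hA)

theorem ph_eq (h : Bd Y f A) (hA : 0 ≤ A) (hw : Continuous w) (hC : ∀ x, |w x| ≤ C) {a b lam : ℝ}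
    (ha : 0 < a) (hK : ∀ x y, K d b lam x y = G d a (y - x) * (w x * w y)) :
    Integrable (fun p : E d × E d => G d a (p.2 - p.1) * ∑ i, wt Y w f i p.1 * wt Y w f i p.2)
      ((volume.restrict Y).prod (volume.restrict Y)) ∧
    ph Y b lam f = ∫ p : E d × E d, G d a (p.2 - p.1) * ∑ i, wt Y w f i p.1 * wt Y w f i p.2
      ∂((volume.restrict Y).prod (volume.restrict Y)) := by
  obtain ⟨m1, ⟨D, b1⟩, -⟩ := B2L.pd_sum h.ms h.bdd (wt_meas h hw) (wt_bd h hC hA le_rfl)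
  have hi := (B2L.hk_unfold h.ms h.bdd m1 b1 (sGauss d a ha).1).1
  refine ⟨hi, ?_⟩
  rw [integral_prod _ hi, ph]
  refine setIntegral_congr_fun h.ms fun x hx => setIntegral_congr_fun h.ms fun y hy => ?_
  simp only []
  rw [wt_sum hx hy, hK, mul_assoc]

end LPx

open LPx in
theorem sLP : SFac → SLP := by
  intro hF l ι τ _ _ Y f g A A' B b lam κ m M r hf hg hA hA' hb h0 h1 hm0 hM0 hB hr hm hM
  obtain ⟨w, hw, ⟨C, hC⟩, hi, hL, hK⟩ := hF (2 * l + 3) b lam hb h0 h1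
  have ha : 0 < b * lam / (1 - lam ^ 2) := div_pos (mul_pos hb h0) (by nlinarith)
  have h := B2L.lpG1 hf.ms hf.bdd (wt_meas hf hw) (wt_meas hg hw)
    (wt_bd hf hC (D := A + A') hA (by linarith)) (wt_bd hg hC (D := A + A') hA' (by linarith))
    (B := C * C * B) (fun x hx y hy => by
      have h0 : 0 ≤ C := (abs_nonneg _).trans (hC x)
      rw [wt_sum hx hy, wt_sum hx hy, ← mul_sub, abs_mul, abs_mul, mul_assoc (C * C)]
      exact mul_le_mul (mul_le_mul (hC x) (hC y) (abs_nonneg _) h0) (hB x hx y hy)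
        (abs_nonneg _) (mul_nonneg h0 h0)) ha hm0 hM0 hr hm hM
  obtain ⟨i1, e1⟩ := ph_eq hf hA hw hC ha hK
  obtain ⟨i2, e2⟩ := ph_eq hg hA' hw hC ha hK
  have i3 : Integrable (fun p : E (2 * l + 3) × E (2 * l + 3) =>
      G (2 * l + 3) (b * lam / (1 - lam ^ 2)) (p.2 - p.1) *
        (∑ i, wt Y w f i p.1 * wt Y w f i p.2 - ∑ j, wt Y w g j p.1 * wt Y w g j p.2))
      ((volume.restrict Y).prod (volume.restrict Y)) := by
    simp only [mul_sub]
    exact i1.sub i2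
  have e3 := integral_prod _ i3
  simp only [] at e3
  rw [← e3] at h
  simp only [mul_sub] at h
  rw [integral_sub i1 i2, ← e1, ← e2] at h
  have s1 := mul_le_mul_of_nonneg_left (wt_sq hf hA hi hL) hm0
  have s2 := mul_le_mul_of_nonneg_left (wt_sq hg hA' hi hL) hM0
  nlinarith

end Pool.Agent.MP_66cee2_co.B2K
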