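import Pool.Agent.MP_66cee2_co.B2K.Spec
import Pool.Agent.MP_66cee2_co.H44L.Cert

/-
One sided approximation of wide Gaussians.
-/

namespace Pool.Agent.MP_66cee2_co.B2K

open MeasureTheory Set Filter Topology Polynomial Pool.Agent.MP_66cee2_co.B

theorem Nearx.one_d (l : ℕ) : ∃ (r : ℝ[X]) (κ : ℝ), r.natDegree ≤ l ∧ ∀ k : ℝ,
    (|k| ≤ 2 → 1 ≤ κ * Phi (r.comp (X ^ 2)) k + 128 * (2 * l + 1) ^ 4 / 4 ^ l) ∧
    0 ≤ κ * Phi (r.comp (X ^ 2)) k + 128 * (2 * l + 1) ^ 4 / 4 ^ l ∧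
    κ * Phi (r.comp (X ^ 2)) k ≤ 4 + 128 * (2 * l + 1) ^ 4 / 4 ^ l := by
  obtain ⟨G, r, h1, -, h3, h4, h5⟩ := H44L.cert l
  set g : ℝ := ∫ v in (-(1 / 2) : ℝ)..(1 / 2), G.eval v with hg
  have q0 : (0 : ℝ) < 2 ^ l / (4 * (2 * l + 1) ^ 2) := by positivity
  have g0 : 0 < g := q0.trans_le h4
  have hN : 8 / g ^ 2 ≤ 128 * (2 * l + 1) ^ 4 / 4 ^ l := by
    have e : (128 : ℝ) * (2 * l + 1) ^ 4 / 4 ^ l = 8 / (2 ^ l / (4 * (2 * l + 1) ^ 2)) ^ 2 := by
      rw [show (4 : ℝ) ^ l = (2 ^ l) ^ 2 by rw [← pow_mul, mul_comm, pow_mul]; norm_num]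
      field_simp
      norm_num
    rw [e]
    gcongr
  have cG : Continuous fun v : ℝ => G.eval v := G.continuous
  have cmp : ∀ k c e : ℝ, (∀ v : ℝ, |v| ≤ 1 / 2 → c ≤ e * Real.cos (k * v)) →
      c * g ≤ e * ∫ v in (-(1 / 2) : ℝ)..(1 / 2), Real.cos (k * v) * G.eval v := by
    intro k c e h
    rw [hg, ← intervalIntegral.integral_const_mul, ← intervalIntegral.integral_const_mul]
    refine intervalIntegral.integral_mono_on (by norm_num)
      (Continuous.intervalIntegrable (by fun_prop) _ _)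
      (Continuous.intervalIntegrable (by fun_prop) _ _) fun v hv => ?_
    rw [← mul_assoc]
    exact mul_le_mul_of_nonneg_right (h v (abs_le.2 hv)) (zero_le_one.trans (h3 v hv.1 hv.2))
  refine ⟨r, 4 / g ^ 2, h1, fun k => ?_⟩
  obtain ⟨a1, a2⟩ := abs_le.1 (h5 k)
  have u1 := cmp k (-1) 1 fun v _ => by simpa using Real.neg_one_le_cos _
  have u2 := cmp k (-1) (-1) fun v _ => by simpa using Real.cos_le_one _
  have u3 : |k| ≤ 2 → 1 / 2 * g ≤
      1 * ∫ v in (-(1 / 2) : ℝ)..(1 / 2), Real.cos (k * v) * G.eval v := fun hk =>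
    cmp k (1 / 2) 1 fun v hv => by
      have b1 := Real.one_sub_sq_div_two_le_cos (x := k * v)
      have b2 : |k * v| ≤ 2 * (1 / 2) := by
        rw [abs_mul]
        exact mul_le_mul hk hv (abs_nonneg _) (by norm_num)
      have b3 := pow_le_pow_left₀ (abs_nonneg _) b2 2
      rw [sq_abs] at b3
      linarith
  generalize (∫ v in (-(1 / 2) : ℝ)..(1 / 2), Real.cos (k * v) * G.eval v) = s at *
  generalize Phi (r.comp (X ^ 2)) k = P at *
  have g2 : 0 < g ^ 2 := by positivity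
  have e1 : ∀ c : ℝ, c * g ^ 2 ≤ 4 * P + 8 → c ≤ 4 / g ^ 2 * P + 8 / g ^ 2 := fun c hc => by
    rw [div_mul_eq_mul_div, ← add_div, le_div_iff₀ g2]
    exact hc
  refine ⟨fun hk => (e1 1 ?_).trans (by linarith), (e1 0 ?_).trans (by linarith), ?_⟩
  · have := pow_le_pow_left₀ (by positivity) (u3 hk) 2
    nlinarith
  · nlinarith [sq_nonneg s]
  · have s2 : s ^ 2 ≤ g ^ 2 := sq_le_sq' (by linarith) (by linarith)
    have : 4 / g ^ 2 * P ≤ 4 + 8 / g ^ 2 := by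
      rw [div_mul_eq_mul_div, div_le_iff₀ g2, add_mul, div_mul_cancel₀ _ g2.ne']
      linarith
    linarith

theorem Nearx.ev : ∀ᶠ l : ℕ in atTop, (128 : ℝ) * (2 * l + 1) ^ 4 / 4 ^ l ≤ 1 := by
  have h := tendsto_pow_const_div_const_pow_of_one_lt 4 (by norm_num : (1 : ℝ) < 4)
  filter_upwards [h.eventually_le_const (by norm_num : (0 : ℝ) < 1 / 10368),
    eventually_ge_atTop 1] with l h1 h2
  have h3 : (1 : ℝ) ≤ l := by exact_mod_cast h2
  have h4 : (2 * l + 1 : ℝ) ^ 4 ≤ (3 * l) ^ 4 := pow_le_pow_left₀ (by positivity) (by linarith) 4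
  rw [div_le_iff₀ (by positivity)] at h1 ⊢
  nlinarith

theorem sNear : SNear := by
  filter_upwards [Nearx.ev] with l hl a ha hb
  obtain ⟨r, κ, h1, h2⟩ := Nearx.one_d l
  have q : (0 : ℝ) < 4 ^ l := by positivity
  have hl0 : (0 : ℝ) ≤ l := Nat.cast_nonneg l
  have m1 : (128 : ℝ) * (2 * l + 1) ^ 4 / 4 ^ l + 1 / 4 ^ l ≤
      200 * (2 * l + 3 : ℝ) ^ 4 / 4 ^ l := by
    rw [← add_div]
    refine div_le_div_of_nonneg_right ?_ q.le
    have a1 : (2 * l + 1 : ℝ) ^ 4 ≤ (2 * l + 3) ^ 4 :=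
      pow_le_pow_left₀ (by positivity) (by linarith) 4
    have a2 : (1 : ℝ) ≤ (2 * l + 3) ^ 4 := one_le_pow₀ (by linarith)
    linarith
  have m2 : (0 : ℝ) < 1 / 4 ^ l := by positivity
  refine ⟨κ, r, h1, fun k => ?_, fun k => ?_⟩
  · obtain ⟨b1, b2, -⟩ := h2 k
    rcases le_total |k| 2 with h | h
    · have : Real.exp (-k ^ 2 / (4 * a)) ≤ 1 := Real.exp_le_one_iff.2
        (div_nonpos_of_nonpos_of_nonneg (neg_nonpos.2 (sq_nonneg _)) (by positivity))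
      linarith [b1 h]
    · have k2 : 2 ^ 2 ≤ k ^ 2 := by
        rw [← sq_abs k]
        exact pow_le_pow_left₀ (by norm_num) h 2
      have c1 : -k ^ 2 / (4 * a) ≤ -((l : ℝ) * 2) := by
        rw [le_div_iff₀ (by positivity)] at hb
        rw [div_le_iff₀ (by positivity)]
        nlinarith
      have c2 : (4 : ℝ) ≤ Real.exp 2 := by
        have := Real.add_one_le_exp (1 : ℝ)
        rw [show (2 : ℝ) = 1 + 1 by norm_num, Real.exp_add]
        nlinarith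
      have c3 : Real.exp (-((l : ℝ) * 2)) ≤ 1 / 4 ^ l := by
        rw [Real.exp_neg, Real.exp_nat_mul, one_div]
        exact inv_anti₀ q (pow_le_pow_left₀ (by norm_num) c2 l)
      linarith [Real.exp_le_exp.2 c1]
  · obtain ⟨-, -, b3⟩ := h2 k
    linarith [Real.exp_pos (-k ^ 2 / (4 * a))]

end Pool.Agent.MP_66cee2_co.B2K
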