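import Pool.Agent.MP_66cee2_co.B2K.Spec
import Pool.Agent.MP_66cee2_co.B.Gauss

/-
A set that fills a large ball has nearly full Gaussian measure.
-/

namespace Pool.Agent.MP_66cee2_co.B2K

open MeasureTheory Set Filter Metric Topology Pool.Agent.MP_66cee2_co.X
  Pool.Agent.MP_66cee2_co.B

theorem sTail : STail := by
  intro d b ε hb hε
  obtain ⟨g1, g2, g3, g4, -⟩ := sGauss d b hb
  have hp := Real.pi_pos
  obtain ⟨S, hS0, hS⟩ : ∃ S : ℝ, 0 < S ∧ ∀ x, G d b x ≤ S := by
    refine ⟨(b / Real.pi) ^ ((d : ℝ) / 2), by positivity, fun x => ?_⟩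
    unfold G
    refine mul_le_of_le_one_right (by positivity) (Real.exp_le_one_iff.2 ?_)
    nlinarith [sq_nonneg ‖x‖]
  have hlim := tendsto_setIntegral_of_monotone (μ := volume) (f := G d b)
    (s := fun k : ℕ => ball (0 : E d) ((k : ℝ) + 1)) (fun _ => measurableSet_ball)
    (fun i j h => ball_subset_ball (by simpa using h)) g3.integrableOn
  rw [iUnion_ball_nat_succ, Measure.restrict_univ, g4] at hlim
  obtain ⟨k, hk⟩ := (hlim.eventually (lt_mem_nhds (show 1 - ε / 2 < 1 by linarith))).exists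
  refine ⟨k + 1, ε / 2 / S, by positivity, by positivity, fun Y hY hv => ?_⟩
  have hUm : MeasurableSet (⋃ c, Y c) := MeasurableSet.iUnion fun c => (hY c).1
  have hUs : (⋃ c, Y c) ⊆ ball 0 ((k : ℝ) + 1) := iUnion_subset fun c => (hY c).2
  have f : volume (ball (0 : E d) ((k : ℝ) + 1)) ≠ ⊤ := measure_ball_lt_top.ne
  have e1 := setIntegral_sdiff hUm (g3.integrableOn (s := ball 0 ((k : ℝ) + 1))) hUs
  have e2 : volume.real (ball (0 : E d) ((k : ℝ) + 1) \ ⋃ c, Y c) ≤ ε / 2 / S := by
    rw [measureReal_sdiff hUs hUm f]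
    linarith
  have e3 : ∫ x in ball (0 : E d) ((k : ℝ) + 1) \ ⋃ c, Y c, G d b x ≤ ε / 2 := by
    have h := norm_setIntegral_le_of_norm_le_const (μ := volume) (f := G d b) (C := S)
      (s := ball (0 : E d) ((k : ℝ) + 1) \ ⋃ c, Y c)
      ((measure_mono sdiff_subset).trans_lt f.lt_top)
      (fun x _ => by rw [Real.norm_eq_abs, abs_of_pos (g2 x)]; exact hS x)
    refine (le_abs_self _).trans (h.trans ?_)
    calc S * _ ≤ S * (ε / 2 / S) := mul_le_mul_of_nonneg_left e2 hS0.le
      _ = ε / 2 := by field_simp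
  have e4 : ∫ x in ⋃ c, Y c, G d b x ≤ ∑ c, ∫ x in Y c, G d b x := by
    simp only [← integral_indicator hUm, ← integral_indicator (hY _).1]
    rw [← integral_finsetSum _ fun c _ => g3.indicator (hY c).1]
    refine integral_mono (g3.indicator hUm)
      (integrable_finsetSum _ fun c _ => g3.indicator (hY c).1) fun x => ?_
    have n : ∀ c, 0 ≤ (Y c).indicator (G d b) x := fun c =>
      indicator_nonneg (fun y _ => (g2 y).le) x
    by_cases hx : x ∈ ⋃ c, Y c
    · obtain ⟨c, hc⟩ := mem_iUnion.1 hx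
      have := Finset.single_le_sum (f := fun c => (Y c).indicator (G d b) x) (fun c _ => n c)
        (Finset.mem_univ c)
      simp only [indicator_of_mem hc] at this
      simpa only [indicator_of_mem hx] using this
    · simpa only [indicator_of_notMem hx] using Finset.sum_nonneg fun c _ => n c
  linarith

end Pool.Agent.MP_66cee2_co.B2K
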