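import Pool.Agent.MP_66cee2_co.B2K.Apx
import Pool.Agent.MP_66cee2_co.B2K.CovA
import Pool.Agent.MP_66cee2_co.B2K.Decay
import Pool.Agent.MP_66cee2_co.B2K.Fin
import Pool.Agent.MP_66cee2_co.B2K.Gap
import Pool.Agent.MP_66cee2_co.B2K.H12Rows
import Pool.Agent.MP_66cee2_co.B2K.H18Asm
import Pool.Agent.MP_66cee2_co.B2K.H54Test
import Pool.Agent.MP_66cee2_co.B2K.H68Full
import Pool.Agent.MP_66cee2_co.B2K.Kar
import Pool.Agent.MP_66cee2_co.B2K.LP
import Pool.Agent.MP_66cee2_co.B2K.LogC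
import Pool.Agent.MP_66cee2_co.B2K.Near
import Pool.Agent.MP_66cee2_co.B2K.One
import Pool.Agent.MP_66cee2_co.B2K.Par
import Pool.Agent.MP_66cee2_co.B2K.Small
import Pool.Agent.MP_66cee2_co.B2K.Tail
import Pool.Agent.MP_66cee2_co.B.All

/-
Base two with a polynomial loss: the theorem.
-/

namespace Pool.Agent.MP_66cee2_co.B2K.H83

theorem fin : SFin := sFin H12.sCS H12.sZero (sOne H12.sBasic) (sLP H12.sFac) sNear

theorem gap : SGap :=
  sGap H12.sCS H12.sZero (sDecay H12.sBasic)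
    (H54.sTest (sLP H12.sFac) sApx sPar (sOne H12.sBasic)) sLogC

theorem baseP : H18.SBaseP :=
  H18.baseP_of D.sJ3 D.sTrAll XT.rowODD (H68.sFull sKar fin gap) (sSmall fin) sCovA sTail

end Pool.Agent.MP_66cee2_co.B2K.H83
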