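import Pool.Agent.MP_66cee2_co.B2K.Spec
import Pool.Agent.MP_66cee2_co.H12.Meh

/-
The factorisation of the joint density.
-/

namespace Pool.Agent.MP_66cee2_co.B2K.H87

open MeasureTheory Set Filter Metric Topology Pool.Agent.MP_66cee2_co.X
  Pool.Agent.MP_66cee2_co.B Pool.Agent.MP_66cee2_co.B2K

theorem sFac : SFac := by
  intro d b lam hb h0 h1
  have hπ := Real.pi_pos
  set c : ℝ := (b / (lam * Real.pi)) ^ ((d : ℝ) / 2) with hc
  have c0 : 0 ≤ c := by rw [hc]; positivity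
  have hw : ∀ x : E d, (√c * Real.exp (-(b / (1 + lam)) * ‖x‖ ^ 2)) ^ 2 ≤
      lam⁻¹ ^ ((d : ℝ) / 2) * G d b x := by
    intro x
    rw [mul_pow, Real.sq_sqrt c0]
    exact H12M.w_le hb h0 h1 x
  have hcont : Continuous fun x : E d => √c * Real.exp (-(b / (1 + lam)) * ‖x‖ ^ 2) := by
    fun_prop
  have gi : Integrable fun x : E d => lam⁻¹ ^ ((d : ℝ) / 2) * G d b x :=
    (H12M.G_integrable hb).const_mul _
  have hi : Integrable fun x : E d => (√c * Real.exp (-(b / (1 + lam)) * ‖x‖ ^ 2)) ^ 2 := by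
    refine gi.mono' (hcont.pow 2).aestronglyMeasurable (Eventually.of_forall fun x => ?_)
    rw [Real.norm_eq_abs, abs_of_nonneg (sq_nonneg _)]
    exact hw x
  refine ⟨fun x => √c * Real.exp (-(b / (1 + lam)) * ‖x‖ ^ 2), hcont, ⟨√c, fun x => ?_⟩, hi, ?_,
    fun x y => ?_⟩
  · rw [abs_of_nonneg (by positivity)]
    refine mul_le_of_le_one_right (Real.sqrt_nonneg _) (Real.exp_le_one_iff.2 ?_)
    have : 0 ≤ b / (1 + lam) * ‖x‖ ^ 2 := by positivity
    linarith
  · refine (integral_mono hi gi hw).trans ?_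
    rw [integral_const_mul, H12M.G_int hb, mul_one, ← inv_pow, ← Real.rpow_natCast]
    refine Real.rpow_le_rpow_of_exponent_le ((one_le_inv₀ h0).2 h1.le) ?_
    have : (0 : ℝ) ≤ d := Nat.cast_nonneg d
    linarith
  · have h := H12M.K_factor hb h0 h1 x y
    have e : K d b lam x y = H12M.K b lam x y := rfl
    rw [e, h, ← hc, mul_mul_mul_comm, Real.mul_self_sqrt c0]
    ring

end Pool.Agent.MP_66cee2_co.B2K.H87
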