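import Pool.Agent.MP_66cee2_co.B2K.Spec

/-
Base two: row Small.
-/

namespace Pool.Agent.MP_66cee2_co.B2K.H89

open MeasureTheory Set Filter Metric Topology Polynomial Pool.Agent.MP_66cee2_co.X
  Pool.Agent.MP_66cee2_co.XI Pool.Agent.MP_66cee2_co.B
open scoped ENNReal RealInnerProductSpace

theorem nsq {n : ℕ} (a : E n) : ‖a‖ ^ 2 = ∑ i, a i ^ 2 := by
  rw [EuclideanSpace.norm_sq_eq]
  simp [Real.norm_eq_abs, sq_abs]

theorem prod_eq {n : ℕ} (a b : E n) :
    2 * ∑ i, a i * b i = ‖a‖ ^ 2 + ‖b‖ ^ 2 - ‖a - b‖ ^ 2 := by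
  rw [nsq, nsq, nsq, ← Finset.sum_add_distrib, ← Finset.sum_sub_distrib, Finset.mul_sum]
  refine Finset.sum_congr rfl fun i _ => ?_
  rw [PiLp.sub_apply]
  ring

theorem sSmall : SFin → SSmall := by
  intro hF
  filter_upwards [hF] with l hl n Y β s hn hP hV hs hβ
  let u : Option (Fin n) → E (2 * l + 3) → ℝ := fun o x =>
    o.elim (√(1 - 2 * s)) (fun i => √2 * β x i)
  have h2 : √2 * √2 = (2 : ℝ) := Real.mul_self_sqrt (by norm_num)
  have h1 : √(1 - 2 * s) * √(1 - 2 * s) = 1 - 2 * s := Real.mul_self_sqrt (by linarith)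
  have key : ∀ x ∈ Y, ∀ y ∈ Y, ∑ o, u o x * u o y = 1 - ‖β x - β y‖ ^ 2 := by
    intro x hx y hy
    rw [Fintype.sum_option]
    have e : ∑ i, u (some i) x * u (some i) y = 2 * ∑ i, β x i * β y i := by
      rw [Finset.mul_sum]
      refine Finset.sum_congr rfl fun i _ => ?_
      show √2 * β x i * (√2 * β y i) = 2 * (β x i * β y i)
      calc √2 * β x i * (√2 * β y i) = √2 * √2 * (β x i * β y i) := by ring
        _ = 2 * (β x i * β y i) := by rw [h2]
    have e0 : u none x * u none y = 1 - 2 * s := h1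
    rw [e, e0, prod_eq, hβ x hx, hβ y hy]
    ring
  have one : ∀ x ∈ Y, ∑ o, u o x ^ 2 = 1 := by
    intro x hx
    have := key x hx x hx
    simp only [sub_self, norm_zero] at this
    simp only [sq]
    rw [this]
    norm_num
  have hB : Bd Y u 2 := by
    refine ⟨hP.ms, hP.bdd, ?_, fun x hx => by rw [one x hx]; norm_num⟩
    intro o
    cases o with
    | none => exact measurable_const
    | some i =>
      have hc : Continuous fun a : E n => √2 * a i := by fun_prop
      exact hc.measurable.comp hP.meas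
  have hFl : Fl Y u (fun _ => 0) (l + 2) := by
    obtain ⟨B, hB⟩ := hV
    refine ⟨√|B|, fun x hx y hy => ?_⟩
    rw [key x hx y hy, mul_zero, sub_zero]
    refine abs_le_of_sq_le_sq' ?_ (by positivity) |> abs_le.mpr
    rw [mul_pow, Real.sq_sqrt (abs_nonneg B), ← pow_mul, mul_comm (l + 2) 2]
    exact (hB x hx y hy).trans
      (mul_le_mul_of_nonneg_right (le_abs_self B) (by positivity))
  have h := hl (Option (Fin n)) Y u (fun _ => 0) hB measurable_const
    (fun x hx => (one x hx).ge) (fun x _ => by simp) hFl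
  rw [Fintype.card_option, Fintype.card_fin] at h
  push_cast at h
  have hd : (0 : ℝ) < 2 * l + 3 := by positivity
  have h4 : (0 : ℝ) < 4 ^ l := by positivity
  have h3 : ((n : ℝ) + 1) * (4000 * (2 * l + 3 : ℝ) ^ 4 / 4 ^ l) ≤ (1 / (2 * l + 3 : ℝ) ^ 6) ^ 2 := by
    rw [← mul_div_assoc, div_pow, div_le_div_iff₀ h4 (by positivity)]
    calc ((n : ℝ) + 1) * (4000 * (2 * l + 3 : ℝ) ^ 4) * ((2 * l + 3 : ℝ) ^ 6) ^ 2
        = ((n : ℝ) + 1) * (4000 * (2 * l + 3 : ℝ) ^ 16) := by ring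
      _ ≤ 4 ^ l := hn
      _ = 1 ^ 2 * 4 ^ l := by ring
  exact (abs_le_of_sq_le_sq' (h.trans h3) (by positivity)).2

end Pool.Agent.MP_66cee2_co.B2K.H89
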