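import Pool.Agent.MP_66cee2_co.B2K.Spec

/-
Base two: the assembly.
-/

namespace Pool.Agent.MP_66cee2_co.B2K.H8

open MeasureTheory Set Filter Metric Topology Polynomial Pool.Agent.MP_66cee2_co.X
  Pool.Agent.MP_66cee2_co.B

/-- the theorem. -/
def SBaseK' : Prop :=
  ∀ c : ℝ, 0 ≤ c → c < 2 → ∃ d₀ : ℕ, ∀ d n : ℕ, d₀ ≤ d → (n : ℝ) ≤ c ^ d → XT.AllIso d n

theorem baseK_of (hJ : D.SJ3) (hT : D.STr) (hO : XT.RowODD) (hC : SCovA) (hTl : STail)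
    (hF : SFull) (hS : SSmall) (hN : SNumC) : SBaseK' := by
  intro c c0 hc
  have c1 : (1 : ℝ) ≤ max c 1 := le_max_right _ _
  obtain ⟨l₀, h⟩ := eventually_atTop.1
    (hF.and (hS.and (hN (max c 1) c1 (max_lt hc one_lt_two))))
  refine ⟨2 * l₀ + 4, fun d n hd hn => ?_⟩
  obtain ⟨l, hl, e⟩ : ∃ l, l₀ ≤ l ∧ (d = 2 * l + 3 ∨ d = 2 * l + 3 + 1) :=
    ⟨(d - 3) / 2, by omega, by omega⟩
  have hn' : (n : ℝ) ≤ (max c 1) ^ (2 * l + 4) :=
    hn.trans ((pow_le_pow_left₀ c0 (le_max_left c 1) d).trans (pow_le_pow_right₀ c1 (by omega)))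
  obtain ⟨f1, f2, f3⟩ := h l hl
  have hn2 : ((n : ℝ) + 1) * (4000 * (2 * l + 3 : ℝ) ^ 16) ≤ 4 ^ l :=
    (mul_le_mul_of_nonneg_right (by linarith) (by positivity)).trans f3
  have h1 : XT.AllIso (2 * l + 3) n := by
    refine hT _ n (by omega) fun P hP => ?_
    obtain ⟨u, hu⟩ := hJ _ n (by omega) P hP
    obtain ⟨R, δ, R0, δ0, hR⟩ := hTl (2 * l + 3) (bb l) (1 / (2 * l + 3 : ℝ) ^ 6)
      (by unfold bb; positivity) (by positivity)
    rcases hC _ n (2 * (l + 2)) P u R δ (by omega) (by omega) hP hu R0 δ0 with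
      h | ⟨Y, β, hY, hs, hcov⟩
    · exact h
    · exfalso
      have k := hR Y (fun c => ⟨(hY c).1.ms, (hY c).2.2⟩) hcov
      have sm : ∀ c : Fin 4, c ≠ 2 →
          ∫ x in Y c, G _ (bb l) x ≤ 1 / (2 * l + 3 : ℝ) ^ 6 := fun c hc => by
        obtain ⟨s, s1, s2⟩ := hs c hc
        exact f2 n _ _ s hn2 (hY c).1 (hY c).2.1 s1 s2
      have b2 := f1 n _ _ hn2 (hY 2).1 (hY 2).2.1
      have b0 := sm 0 (by decide)
      have b1 := sm 1 (by decide)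
      have b3 := sm 3 (by decide)
      rw [Fin.sum_univ_four] at k
      have : (4 : ℝ) / (2 * l + 3 : ℝ) ^ 6 = 4 * (1 / (2 * l + 3 : ℝ) ^ 6) := by ring
      linarith
  rcases e with rfl | rfl
  · exact h1
  · exact hO _ n (by omega) h1

end Pool.Agent.MP_66cee2_co.B2K.H8
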