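import Pool.Agent.MP_66cee2_co.B2K.Spec

/-
Row Par: the parameters.
-/

namespace Pool.Agent.MP_66cee2_co.B2K.H94

open Filter

theorem core (L b x lam : ℝ) (n : ℕ) (hL : 3 ≤ L) (hb : 0 < b) (hx : 0 < x) (hx1 : x ≤ 1 / 100)
    (h1 : 12 * b ≤ 21 * (L * x)) (h2 : 21 * (L * x) ≤ 14 * b) (hn : (n : ℝ) * x ≤ 1 / 2)
    (hlam : lam = Real.exp (-x)) :
    74 / 100 * L ≤ b * lam / (1 - lam ^ 2) ∧ b * lam / (1 - lam ^ 2) ≤ 88 / 100 * L ∧
      (lam ^ n)⁻¹ ≤ 2 := by
  have hp : 0 < lam := hlam ▸ Real.exp_pos _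
  have hlo : 1 - x ≤ lam := by
    have := Real.add_one_le_exp (-x)
    rw [hlam]; linarith
  have hup : lam * (1 + x) ≤ 1 := by
    have h := Real.add_one_le_exp x
    have e : lam * Real.exp x = 1 := by
      rw [hlam, ← Real.exp_add]; simp
    have := mul_le_mul_of_nonneg_left h hp.le
    linarith
  have hlx : 0 < lam * x := mul_pos hp hx
  have hl1 : lam < 1 := by linarith
  have hD : 0 < 1 - lam ^ 2 := by nlinarith
  have hDu : 1 - lam ^ 2 ≤ 2 * x := by nlinarith
  have hDl : lam * x * (199 / 100) ≤ 1 - lam ^ 2 := by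
    have a1 : lam * x ≤ 1 - lam := by linarith
    have a2 : (199 / 100 : ℝ) ≤ 1 + lam := by linarith
    have := mul_le_mul a1 a2 (by norm_num) (by linarith)
    nlinarith
  have hL0 : 0 ≤ L := by linarith
  refine ⟨?_, ?_, ?_⟩
  · rw [le_div_iff₀ hD]
    have a1 := mul_le_mul_of_nonneg_left hDu hL0
    have a2 : b * (99 / 100) ≤ b * lam := mul_le_mul_of_nonneg_left (by linarith) hb.le
    nlinarith
  · rw [div_le_iff₀ hD]
    have a1 := mul_le_mul_of_nonneg_left hDl hL0
    have a2 := mul_le_mul_of_nonneg_left h1 hp.le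
    have a3 := mul_pos hb hp
    nlinarith
  · have a1 := one_add_mul_le_pow (a := lam - 1) (by linarith) n
    have e : 1 + (lam - 1) = lam := by ring
    rw [e] at a1
    have a2 : (n : ℝ) * (-x) ≤ n * (lam - 1) :=
      mul_le_mul_of_nonneg_left (by linarith) (Nat.cast_nonneg n)
    have a3 : (1 / 2 : ℝ) ≤ lam ^ n := by linarith
    rw [inv_le_comm₀ (pow_pos hp n) (by norm_num)]
    linarith

theorem sPar : SPar := by
  refine eventually_atTop.2 ⟨3, fun l hl j hj lam hlam => ?_⟩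
  have hL : (3 : ℝ) ≤ l := by exact_mod_cast hl
  have hL0 : (0 : ℝ) < l := by linarith
  have hd : (0 : ℝ) < 2 * l + 3 := by linarith
  have hb : 0 < bb l := by unfold bb; positivity
  have hbe : bb l * (2 * l + 3 : ℝ) ^ 2 = 1 := by unfold bb; field_simp
  have ht : 0 < tt l := by unfold tt; positivity
  have hte : 21 * (l * tt l) = 2 * bb l := by unfold tt; field_simp
  have hb1 : bb l * (2 * l + 3 : ℝ) ≤ 1 / 9 := by
    have := mul_pos hb hd
    nlinarith
  have hb2 : bb l ≤ 1 / 81 := by nlinarith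
  have ht1 : 63 * tt l ≤ 2 * bb l := by nlinarith
  have ht2 : (2 * l + 3 : ℝ) * tt l ≤ 1 / 14 := by
    have := mul_le_mul_of_nonneg_left ht1 hd.le
    nlinarith
  have hj6 : (6 : ℝ) ≤ j := by rcases hj with h | h <;> (subst h; norm_num)
  have hj7 : (j : ℝ) ≤ 7 := by rcases hj with h | h <;> (subst h; norm_num)
  have b1 := mul_le_mul_of_nonneg_right hj6 ht.le
  have b2 := mul_le_mul_of_nonneg_right hj7 ht.le
  have b3 := mul_le_mul_of_nonneg_left b1 hL0.le
  have b4 := mul_le_mul_of_nonneg_left b2 hL0.le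
  have b5 := mul_le_mul_of_nonneg_left b2 hd.le
  refine core l (bb l) (j * tt l) lam (2 * l + 3) hL hb (by linarith) (by linarith)
    (by nlinarith) (by nlinarith) ?_ hlam
  push_cast
  nlinarith

end Pool.Agent.MP_66cee2_co.B2K.H94
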