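import Pool.Agent.MP_66cee2_co.B2K.Spec
import Pool.Agent.MP_66cee2_co.D.Defs

/-
Base two: the assembly.
-/

namespace Pool.Agent.MP_66cee2_co.B2K

open MeasureTheory Set Filter Metric Topology Polynomial Pool.Agent.MP_66cee2_co.X
  Pool.Agent.MP_66cee2_co.XI Pool.Agent.MP_66cee2_co.B

/-- the theorem, for a nonnegative base. -/
def SBaseP : Prop :=
  ∀ c : ℝ, 0 ≤ c → c < 2 → ∃ d₀ : ℕ, ∀ d n : ℕ, d₀ ≤ d → (n : ℝ) ≤ c ^ d → XT.AllIso d n

theorem baseK_of (hJ : D.SJ3) (hT : D.STr) (hO : XT.RowODD) (hCov : SCovA) (hTail : STail)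
    (hF : SFull) (hS : SSmall) (hN : SNumC) : SBaseP := by
  intro c h0 hc
  have hc1 : (1 : ℝ) ≤ max c 1 := le_max_right _ _
  have hc2 : max c 1 < 2 := max_lt hc (by norm_num)
  obtain ⟨l₀, h⟩ := eventually_atTop.1 ((hF.and hS).and (hN (max c 1) hc1 hc2))
  refine ⟨2 * l₀ + 3, fun d n hd hn => ?_⟩
  obtain ⟨l, hl, e⟩ : ∃ l, l₀ ≤ l ∧ (d = 2 * l + 3 ∨ d = 2 * l + 3 + 1) :=
    ⟨(d - 3) / 2, by omega, by omega⟩
  obtain ⟨⟨hF', hS'⟩, hN'⟩ := h l hl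
  have hn1 : (n : ℝ) ≤ (max c 1) ^ d := hn.trans (pow_le_pow_left₀ h0 (le_max_left _ _) d)
  have hn' : (n : ℝ) ≤ (max c 1) ^ (2 * l + 4) :=
    hn1.trans (pow_le_pow_right₀ hc1 (by omega))
  have hnum : ((n : ℝ) + 1) * (4000 * (2 * l + 3 : ℝ) ^ 16) ≤ 4 ^ l :=
    le_trans (mul_le_mul_of_nonneg_right (by linarith) (by positivity)) hN'
  have hb : 0 < bb l := by unfold bb; positivity
  have hε : (0 : ℝ) < 1 / (2 * l + 3 : ℝ) ^ 6 := by positivity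
  obtain ⟨R, δ, hR, hδ, hT'⟩ := hTail (2 * l + 3) (bb l) _ hb hε
  have h1 : XT.AllIso (2 * l + 3) n := by
    refine hT _ n (by omega) fun P hP => ?_
    obtain ⟨u, hu⟩ := hJ _ n (by omega) P hP
    rcases hCov _ n (2 * (l + 2)) P u R δ (by omega) (by omega) hP hu hR hδ with
      h | ⟨Y, β, hY, hs, hcov⟩
    · exact h
    · exfalso
      have h2 := hT' Y (fun c => ⟨(hY c).1.ms, (hY c).2.2⟩) hcov
      have h3 : ∀ c : Fin 4, c ≠ 2 → ∫ x in Y c, G _ (bb l) x ≤ 1 / (2 * l + 3 : ℝ) ^ 6 := by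
        intro c hc
        obtain ⟨s, hs1, hs2⟩ := hs c hc
        exact hS' n (Y c) (β c) s hnum (hY c).1 (hY c).2.1 hs1 hs2
      have h4 := hF' n (Y 2) (β 2) hnum (hY 2).1 (hY 2).2.1
      have h5 := h3 0 (by decide)
      have h6 := h3 1 (by decide)
      have h7 := h3 3 (by decide)
      rw [Fin.sum_univ_four] at h2
      have h8 : (4 : ℝ) / (2 * l + 3 : ℝ) ^ 6 = 4 * (1 / (2 * l + 3 : ℝ) ^ 6) := by ring
      linarith
  rcases e with rfl | rfl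
  · exact h1
  · exact hO _ n (by omega) h1

end Pool.Agent.MP_66cee2_co.B2K
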