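import Pool.Agent.MP_66cee2_co.B2K.Spec

/-
Row NumC: an exponential with base below four times a polynomial.
-/

namespace Pool.Agent.MP_66cee2_co.B2K

open Filter Topology

theorem sNumC : SNumC := by
  intro c h1 h2
  have hq0 : 0 ≤ c ^ 2 / 4 := by positivity
  have hq1 : c ^ 2 / 4 < 1 := by nlinarith
  have ht := tendsto_pow_const_mul_const_pow_of_abs_lt_one 16
    (r := c ^ 2 / 4) (by rwa [abs_of_nonneg hq0])
  have hε : (0 : ℝ) < 1 / (128000 * 5 ^ 16) := by positivity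
  filter_upwards [ht.eventually (gt_mem_nhds hε), eventually_ge_atTop 1] with l hl hl1
  have hl1' : (1 : ℝ) ≤ l := by exact_mod_cast hl1
  have hc0 : 0 ≤ c := by linarith
  have e4 : c ^ 4 ≤ 2 ^ 4 := pow_le_pow_left₀ hc0 h2.le 4
  have e1 : 1 ≤ c ^ (2 * l + 4) := one_le_pow₀ h1
  have e2 : c ^ (2 * l + 4) = (c ^ 2 / 4) ^ l * 4 ^ l * c ^ 4 := by
    rw [← mul_pow, div_mul_cancel₀ _ (by norm_num : (4 : ℝ) ≠ 0), ← pow_mul, pow_add]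
  have p4 : (0 : ℝ) < 4 ^ l := by positivity
  have pq : 0 ≤ (c ^ 2 / 4) ^ l := by positivity
  have e3 : c ^ (2 * l + 4) + 1 ≤ 32 * ((c ^ 2 / 4) ^ l * 4 ^ l) := by
    have : (c ^ 2 / 4) ^ l * 4 ^ l * c ^ 4 ≤ (c ^ 2 / 4) ^ l * 4 ^ l * 2 ^ 4 :=
      mul_le_mul_of_nonneg_left e4 (by positivity)
    linarith
  have e5 : (2 * l + 3 : ℝ) ^ 16 ≤ 5 ^ 16 * (l : ℝ) ^ 16 := by
    rw [← mul_pow]
    exact pow_le_pow_left₀ (by positivity) (by linarith) 16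
  have e6 : (128000 * 5 ^ 16) * ((l : ℝ) ^ 16 * (c ^ 2 / 4) ^ l) ≤ 1 := by
    rw [lt_div_iff₀ (by positivity)] at hl
    linarith
  calc (c ^ (2 * l + 4) + 1) * (4000 * (2 * l + 3 : ℝ) ^ 16)
      ≤ (32 * ((c ^ 2 / 4) ^ l * 4 ^ l)) * (4000 * (5 ^ 16 * (l : ℝ) ^ 16)) :=
        mul_le_mul e3 (by linarith) (by positivity) (by positivity)
    _ = (128000 * 5 ^ 16) * ((l : ℝ) ^ 16 * (c ^ 2 / 4) ^ l) * 4 ^ l := by ring
    _ ≤ 1 * 4 ^ l := mul_le_mul_of_nonneg_right e6 p4.le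
    _ = 4 ^ l := one_mul _

end Pool.Agent.MP_66cee2_co.B2K
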