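import Pool.Agent.MP_66cee2_co.B2K.Asm
import Pool.Agent.MP_66cee2_co.B2K.H12Rows
import Pool.Agent.MP_66cee2_co.B2K.Decay
import Pool.Agent.MP_66cee2_co.B2K.Fin
import Pool.Agent.MP_66cee2_co.B2K.Gap
import Pool.Agent.MP_66cee2_co.B2K.H54Test
import Pool.Agent.MP_66cee2_co.B2K.LP
import Pool.Agent.MP_66cee2_co.B2K.LogC
import Pool.Agent.MP_66cee2_co.B2K.Near
import Pool.Agent.MP_66cee2_co.B2K.One
import Pool.Agent.MP_66cee2_co.B2K.Par
import Pool.Agent.MP_66cee2_co.B2K.Small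
import Pool.Agent.MP_66cee2_co.B2K.CovA
import Pool.Agent.MP_66cee2_co.B2K.H17Tail
import Pool.Agent.MP_66cee2_co.B2K.Kar
import Pool.Agent.MP_66cee2_co.B2K.Apx
import Pool.Agent.MP_66cee2_co.D.SJ3
import Pool.Agent.MP_66cee2_co.D.AllX
import Pool.Agent.MP_66cee2_co.XT.TR

/-
Base two: the rows put together.
-/

namespace Pool.Agent.MP_66cee2_co.B2K

theorem rowFin : SFin := sFin H12.sCS H12.sZero (sOne H12.sBasic) (sLP H12.sFac) sNear

theorem rowGap : SGap :=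
  sGap H12.sCS H12.sZero (sDecay H12.sBasic)
    (H54.sTest (sLP H12.sFac) sApx sPar (sOne H12.sBasic)) sLogC

theorem baseQ_of_full (h : SKar → SFin → SGap → SFull) : SBaseQ :=
  baseQ_of D.sJ3 D.sTrAll XT.rowODD sCovA H17.sTail (h sKar rowFin rowGap) (sSmall rowFin)

end Pool.Agent.MP_66cee2_co.B2K
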