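import Pool.Agent.MP_66cee2_co.B2K.Spec
import Pool.Agent.MP_66cee2_co.H12.Meh

namespace Pool.Agent.MP_66cee2_co.B2K

open MeasureTheory Pool.Agent.MP_66cee2_co.X Pool.Agent.MP_66cee2_co.B

theorem sSemi : SSemi := by
  intro d b μ ν hb h0 h1 h2 h3 x y
  have hm : μ ^ 2 < 1 := by nlinarith
  have hn : ν ^ 2 < 1 := by nlinarith
  have h := H12M.K_semi hb hm hn x y
  have e : ∀ z : E d, H12M.K b μ x z * H12M.K b ν z y / G d b z =
      G d b z * (Q d b μ z x * Q d b ν z y) := fun z => by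
    rw [H12M.K_symm hm x z, div_eq_iff (H12M.G_pos hb z).ne']
    unfold H12M.K Q
    ring
  simp only [e] at h
  exact h

end Pool.Agent.MP_66cee2_co.B2K
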