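import Pool.Agent.MP_66cee2_co.B2K.Spec

/-
Row Zero: independent pairs.
-/

namespace Pool.Agent.MP_66cee2_co.B2K

open MeasureTheory Set Filter Metric Topology Pool.Agent.MP_66cee2_co.X
  Pool.Agent.MP_66cee2_co.B

theorem sZero (h : SBasic) : SZero := by
  intro d ι _ Y f A b hY hb
  have hK := (h d b 0 hb le_rfl one_pos).2.2.2.2.2
  have : IsFiniteMeasure (volume.restrict Y) := isFiniteMeasure_restrict.2 hY.bdd.measure_lt_top.ne
  have hG : Measurable (G d b) := by
    unfold G
    fun_prop
  have hc : 0 ≤ (b / Real.pi) ^ ((d : ℝ) / 2) := by positivity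
  have hi : ∀ i, Integrable (fun x => G d b x * f i x) (volume.restrict Y) := fun i => by
    refine (integrable_const ((b / Real.pi) ^ ((d : ℝ) / 2) * (1 + A))).mono'
      (hG.mul (hY.meas i)).aestronglyMeasurable ?_
    filter_upwards [ae_restrict_mem hY.ms] with x hx
    have h1 : f i x ^ 2 ≤ A := (Finset.single_le_sum (f := fun j => f j x ^ 2)
      (fun j _ => sq_nonneg _) (Finset.mem_univ i)).trans (hY.sq x hx)
    have h2 : |f i x| ≤ 1 + A := by nlinarith [sq_abs (f i x), sq_nonneg (|f i x| - 1)]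
    have h3 : Real.exp (-b * ‖x‖ ^ 2) ≤ 1 :=
      Real.exp_le_one_iff.2 (by nlinarith [mul_nonneg hb.le (sq_nonneg ‖x‖)])
    have h4 : |G d b x| ≤ (b / Real.pi) ^ ((d : ℝ) / 2) := by
      unfold G
      rw [abs_of_nonneg (mul_nonneg hc (Real.exp_pos _).le)]
      exact mul_le_of_le_one_right hc h3
    rw [Real.norm_eq_abs, abs_mul]
    exact mul_le_mul h4 h2 (abs_nonneg _) hc
  have h1 : ∀ x, ∫ y in Y, K d b 0 x y * ∑ i, f i x * f i y =
      ∑ i, G d b x * f i x * ∫ y in Y, G d b y * f i y := fun x => by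
    have e : (fun y => K d b 0 x y * ∑ i, f i x * f i y) =
        fun y => ∑ i, G d b x * f i x * (G d b y * f i y) := by
      funext y
      rw [hK, Finset.mul_sum]
      exact Finset.sum_congr rfl fun i _ => by ring
    rw [e, integral_finsetSum _ fun i _ => (hi i).const_mul _]
    exact Finset.sum_congr rfl fun i _ => integral_const_mul _ _
  unfold ph
  rw [funext h1, integral_finsetSum _ fun i _ => (hi i).mul_const _]
  exact Finset.sum_congr rfl fun i _ => by rw [integral_mul_const, sq]

end Pool.Agent.MP_66cee2_co.B2K
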